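import Pool.Agent.J6H98.Sel.Geo

set_option autoImplicit false
set_option linter.unusedSectionVars false

/-!
# The chain homotopy between the subdivision and the identity, and the inductive construction
-/

namespace Pool.Agent.J6H98.Sel

open Finset
open Finsupp (single)
open Pool.Agent.Helper325.BorsukUlam (Chain cone bdL bd sub bary S single_mem_S S_eq_span lin_mem
  cone_mem_S bdL_mem_S bd_single bd_cone bd_bdL bd_bd bd_sub sub_succ_single add_self S_mono
  bary_mem)

section Homotopy

variable {V : Type*} [AddCommGroup V] [Module ℝ V]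

noncomputable def Hh : ℕ → (Chain V →ₗ[ZMod 2] Chain V)
  | 0 => 0
  | n + 1 => Finsupp.linearCombination (ZMod 2)
      (fun l => cone (bary l) (single l 1 + Hh n (bdL l)))

theorem Hh_succ_single (n : ℕ) (l : List V) (a : ZMod 2) :
    Hh (n + 1) (single l a) = a • cone (bary l) (single l 1 + Hh n (bdL l)) := by
  simp [Hh]

theorem bd_Hh (n : ℕ) (c : Chain V) : bd (Hh (n + 1) c) = sub (n + 1) c + c + Hh n (bd c) := by
  induction n generalizing c with
  | zero =>
    induction c using Finsupp.induction_linear with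
    | zero => simp
    | add f g hf hg =>
      simp only [map_add, hf, hg]; abel
    | single l a =>
      rw [Hh_succ_single, map_smul, bd_cone, map_add, bd_single, sub_succ_single]
      simp only [Hh, LinearMap.zero_apply, map_zero, add_zero, sub, LinearMap.id_coe, id_eq,
        one_smul, smul_add, Finsupp.smul_single, smul_eq_mul, mul_one]
      abel
  | succ n ih =>
    induction c using Finsupp.induction_linear with
    | zero => simp
    | add f g hf hg =>
      simp only [map_add, hf, hg]; abel
    | single l a =>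
      rw [Hh_succ_single, map_smul, bd_cone, map_add, ih, bd_bdL, map_zero, add_zero, bd_single,
        bd_single, sub_succ_single, map_smul, one_smul]
      have h1 : bdL l + (sub (n + 1) (bdL l) + bdL l) = sub (n + 1) (bdL l) := by
        rw [add_comm (sub (n + 1) (bdL l)), ← add_assoc, add_self, zero_add]
      rw [h1, smul_add, smul_add, Finsupp.smul_single, smul_eq_mul, mul_one]
      abel

theorem Hh_mem (n : ℕ) : ∀ (C : Set V) (_ : Convex ℝ C) (l : List V),
    l.length = n → (∀ u ∈ l, u ∈ C) →
      Hh n (single l 1) ∈ S (fun l' : List V => l'.length = n + 1 ∧ ∀ u ∈ l', u ∈ C) := by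
  induction n with
  | zero =>
    intro C _ l _ _
    simp only [Hh, LinearMap.zero_apply]
    exact Submodule.zero_mem _
  | succ n ih =>
    intro C hC l hl h
    rw [Hh_succ_single, one_smul]
    have hne : l ≠ [] := by
      intro h; rw [h] at hl; simp at hl
    have hb : bary l ∈ C := by
      have hpos : 0 < l.length := List.length_pos_iff.mpr hne
      have hsum : l.sum = ∑ i : Fin l.length, l[(i : ℕ)] := by
        rw [Fin.sum_univ_getElem]
      rw [bary, hsum, Finset.smul_sum]
      refine hC.sum_mem (fun i _ => by positivity) ?_ (fun i _ => h _ (List.getElem_mem _))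
      rw [Finset.sum_const, Finset.card_univ, Fintype.card_fin, nsmul_eq_mul]
      have : (l.length : ℝ) ≠ 0 := by positivity
      exact mul_inv_cancel₀ this
    refine cone_mem_S (P := fun l' => l'.length = n + 1 ∧ ∀ u ∈ l', u ∈ C) (bary l) ?_ ?_
    · rintro l' ⟨h1, h2⟩
      refine ⟨by simp [h1], ?_⟩
      intro u hu
      rcases List.mem_cons.1 hu with rfl | hu
      · exact hb
      · exact h2 u hu
    · refine Submodule.add_mem _ (single_mem_S ⟨hl, h⟩ 1) ?_
      refine lin_mem (Hh n) (P := fun l' => l'.length = n ∧ ∀ u ∈ l', u ∈ C) ?_ ?_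
      · rintro l' ⟨h1, h2⟩
        exact ih C hC l' h1 h2
      · refine S_mono ?_ (bdL_mem_S l)
        rintro l' ⟨h1, h2⟩
        exact ⟨by omega, fun u hu => h u (h2 hu)⟩

end Homotopy

section Lin

variable {V : Type*}

theorem lin_mem' {M : Type*} [AddCommGroup M] [Module (ZMod 2) M] (T : Chain V →ₗ[ZMod 2] M)
    {P : List V → Prop} (Q : Submodule (ZMod 2) M) (h : ∀ l, P l → T (single l 1) ∈ Q)
    {c : Chain V} (hc : c ∈ S P) : T c ∈ Q := by
  have : S P ≤ Q.comap T := by
    rw [S_eq_span, Submodule.span_le]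
    rintro _ ⟨l, hl, rfl⟩
    exact h l hl
  exact this hc

theorem S_inter {P Q : List V → Prop} {c : Chain V} (h1 : c ∈ S P) (h2 : c ∈ S Q) :
    c ∈ S (fun l => P l ∧ Q l) := by
  rw [S, Finsupp.mem_supported] at *
  intro l hl
  exact ⟨h1 hl, h2 hl⟩

theorem mem_S_iff {P : List V → Prop} {c : Chain V} : c ∈ S P ↔ ∀ l ∈ c.support, P l := by
  rw [S, Finsupp.mem_supported]
  rfl

/-- finitely many chains have finitely many vertices -/
theorem exists_vertices [DecidableEq V] (N : ℕ) (c : ℕ → Chain V) :
    ∃ W : Finset V, (∀ k < N, c k ∈ S (fun l => ∀ u ∈ l, u ∈ W)) ∧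
      ∀ u ∈ W, ∃ k < N, ∃ l ∈ (c k).support, u ∈ l := by
  classical
  refine ⟨(Finset.range N).biUnion fun k => (c k).support.biUnion fun l => l.toFinset, ?_, ?_⟩
  · intro k hk
    rw [mem_S_iff]
    intro l hl u hu
    exact mem_biUnion.2 ⟨k, mem_range.2 hk, mem_biUnion.2 ⟨l, hl, List.mem_toFinset.2 hu⟩⟩
  · intro u hu
    obtain ⟨k, hk, hu⟩ := mem_biUnion.1 hu
    obtain ⟨l, hl, hu⟩ := mem_biUnion.1 hu
    exact ⟨k, mem_range.1 hk, l, hl, List.mem_toFinset.1 hu⟩

end Lin

end Pool.Agent.J6H98.Sel
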