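import Mathlib

set_option autoImplicit false
set_option linter.unusedSectionVars false
set_option linter.style.haveILetI false

/-!
# Small primitives of small cocycles on a complete multipartite complex

The classes are indexed by the finite type `κ`, the class `i` is `ι i`.  A cochain assigns to a set
`J` of classes and a point `s` of the product an element of `ZMod 2` which depends only on the
coordinates in `J`.
-/

namespace Pool.Agent.J6H98.Sel

open Finset

section Cofill

variable {κ : Type*} [Fintype κ] [DecidableEq κ] {ι : κ → Type*}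

/-- cochains -/
abbrev Coch {κ : Type*} (ι : κ → Type*) := Finset κ → ((i : κ) → ι i) → ZMod 2

/-- the value on `J` depends only on the coordinates in `J` -/
def Loc (α : Coch ι) : Prop :=
  ∀ (J : Finset κ) (s s' : (i : κ) → ι i), (∀ j ∈ J, s j = s' j) → α J s = α J s'

/-- coboundary -/
def del (α : Coch ι) : Coch ι := fun J s => ∑ j ∈ J, α (J.erase j) s

theorem del_add (α β : Coch ι) : del (α + β) = del α + del β := by
  funext J s
  simp [del, sum_add_distrib]

theorem del_zero : del (0 : Coch ι) = 0 := by
  funext J s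
  simp [del]

theorem z2 (a : ZMod 2) : a + a = 0 := CharTwo.add_self_eq_zero a

theorem c2 (α : Coch ι) : α + α = 0 := by
  funext J s
  exact z2 _

theorem del_del (α : Coch ι) : del (del α) = 0 := by
  funext J s
  simp only [del, Pi.zero_apply]
  -- sum over ordered pairs of distinct elements
  have h1 : ∑ j ∈ J, ∑ k ∈ J.erase j, α ((J.erase j).erase k) s =
      ∑ p ∈ J.offDiag, α ((J.erase p.1).erase p.2) s := by
    rw [Finset.sum_sigma']
    refine Finset.sum_bij' (fun x _ => (x.1, x.2)) (fun p _ => ⟨p.1, p.2⟩) ?_ ?_ ?_ ?_ ?_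
    · rintro ⟨j, k⟩ h
      simp only [mem_sigma, mem_erase] at h
      simp only [mem_offDiag]
      exact ⟨h.1, h.2.2, fun e => h.2.1 e.symm⟩
    · rintro ⟨j, k⟩ h
      simp only [mem_offDiag] at h
      simp only [mem_sigma, mem_erase]
      exact ⟨h.1, fun e => h.2.2 e.symm, h.2.1⟩
    · rintro ⟨j, k⟩ h; rfl
    · rintro ⟨j, k⟩ h; rfl
    · rintro ⟨j, k⟩ h; rfl
  rw [h1]
  refine Finset.sum_involution (fun p _ => (p.2, p.1)) ?_ ?_ ?_ ?_
  · rintro ⟨j, k⟩ h
    simp only
    rw [Finset.erase_right_comm]
    exact z2 _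
  · rintro ⟨j, k⟩ h _ e
    simp only [mem_offDiag] at h
    simp only [Prod.mk.injEq] at e
    exact h.2.2 e.2
  · rintro ⟨j, k⟩ h
    simp only [mem_offDiag] at h ⊢
    exact ⟨h.2.1, h.1, fun e => h.2.2 e.symm⟩
  · rintro ⟨j, k⟩ h; rfl

theorem Loc.add {α β : Coch ι} (h1 : Loc α) (h2 : Loc β) : Loc (α + β) := by
  intro J s s' h
  simp only [Pi.add_apply]
  rw [h1 J s s' h, h2 J s s' h]

theorem Loc.zero : Loc (0 : Coch ι) := fun _ _ _ _ => rfl

theorem Loc.del {α : Coch ι} (h1 : Loc α) : Loc (del α) := by
  intro J s s' h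
  simp only [Sel.del]
  exact Finset.sum_congr rfl fun j _ => h1 _ _ _ fun k hk => h k (mem_of_mem_erase hk)

/-- the partial contraction towards the point `y` of the class `m` -/
def hop (m : κ) (y : ι m) (α : Coch ι) : Coch ι := fun J s =>
  if m ∈ J then 0 else α (insert m J) (Function.update s m y)

/-- the complementary projection -/
def pop (m : κ) (y : ι m) (α : Coch ι) : Coch ι := fun J s =>
  if m ∈ J then α J s + α J (Function.update s m y) else 0

theorem hop_zero (m : κ) (y : ι m) : hop m y (0 : Coch ι) = 0 := by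
  funext J s
  simp [hop]

theorem Loc.hop {α : Coch ι} (h1 : Loc α) (m : κ) (y : ι m) : Loc (hop m y α) := by
  intro J s s' h
  simp only [Sel.hop]
  split_ifs with hm
  · rfl
  · refine h1 _ _ _ fun j hj => ?_
    by_cases hjm : j = m
    · subst hjm; simp
    · rw [Function.update_of_ne hjm, Function.update_of_ne hjm]
      exact h j ((mem_insert.1 hj).resolve_left hjm)

theorem Loc.pop {α : Coch ι} (h1 : Loc α) (m : κ) (y : ι m) : Loc (pop m y α) := by
  intro J s s' h
  simp only [Sel.pop]
  split_ifs with hm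
  · rw [h1 J s s' h]
    congr 1
    refine h1 _ _ _ fun j hj => ?_
    by_cases hjm : j = m
    · subst hjm; simp
    · rw [Function.update_of_ne hjm, Function.update_of_ne hjm]
      exact h j hj
  · rfl

theorem hom_id {α : Coch ι} (h1 : Loc α) (m : κ) (y : ι m) :
    del (hop m y α) + hop m y (del α) = α + pop m y α := by
  funext J s
  simp only [Pi.add_apply, del, hop, pop]
  by_cases hm : m ∈ J
  · rw [if_pos hm, if_pos hm, add_zero, ← Finset.add_sum_erase J _ hm]
    rw [if_neg (notMem_erase m J), Finset.insert_erase hm]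
    have h2 : ∑ x ∈ J.erase m, (if m ∈ J.erase x then (0 : ZMod 2) else
        α (insert m (J.erase x)) (Function.update s m y)) = 0 := by
      refine Finset.sum_eq_zero fun x hx => ?_
      rw [if_pos]
      exact mem_erase.2 ⟨(ne_of_mem_erase hx).symm, hm⟩
    rw [h2, add_zero, ← add_assoc, z2, zero_add]
  · rw [if_neg hm, if_neg hm, add_zero, Finset.sum_insert hm, Finset.erase_insert hm]
    have h2 : ∀ j ∈ J, (if m ∈ J.erase j then (0 : ZMod 2) else
        α (insert m (J.erase j)) (Function.update s m y)) =
        α ((insert m J).erase j) (Function.update s m y) := by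
      intro j hj
      have hjm : m ≠ j := fun e => hm (e ▸ hj)
      rw [if_neg (fun h => hm (mem_of_mem_erase h)), Finset.erase_insert_of_ne hjm]
    rw [Finset.sum_congr rfl h2, ← add_assoc, add_right_comm, z2, zero_add]
    refine h1 _ _ _ fun j hj => ?_
    rw [Function.update_of_ne]
    rintro rfl
    exact hm hj

theorem del_pop {α : Coch ι} (h1 : Loc α) (m : κ) (y : ι m) :
    del (pop m y α) = pop m y (del α) := by
  have e1 := hom_id h1 m y
  have e2 := hom_id h1.del m y
  rw [del_del, hop_zero, add_zero] at e2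
  have e3 : del (del (hop m y α) + hop m y (del α)) = del (α + pop m y α) := by rw [e1]
  rw [del_add, del_del, zero_add, del_add] at e3
  rw [e2] at e3
  -- del α + pop (del α) = del α + del (pop α)
  exact (add_left_cancel e3).symm

/-! ### norms -/

variable [∀ i, Fintype (ι i)] [∀ i, DecidableEq (ι i)]

/-- number of pairs at which a cochain does not vanish -/
def Nm (α : Coch ι) : ℕ := ∑ J : Finset κ, (univ.filter fun s => α J s ≠ 0).card

theorem Nm_zero : Nm (0 : Coch ι) = 0 := by simp [Nm]

theorem Nm_add (α β : Coch ι) : Nm (α + β) ≤ Nm α + Nm β := by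
  rw [Nm, Nm, Nm, ← sum_add_distrib]
  refine sum_le_sum fun J _ => ?_
  refine le_trans (card_le_card ?_) (card_union_le _ _)
  intro s hs
  simp only [mem_filter, mem_univ, true_and, Pi.add_apply, mem_union] at hs ⊢
  by_contra h
  push Not at h
  exact hs (by rw [h.1, h.2, add_zero])

/-- averaging over one coordinate -/
theorem sum_update (m : κ) (f : ((i : κ) → ι i) → ℕ) :
    ∑ y : ι m, ∑ s, f (Function.update s m y) = Fintype.card (ι m) * ∑ s, f s := by
  have h1 : ∑ y : ι m, ∑ s, f (Function.update s m y) =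
      ∑ p : ι m × ((i : κ) → ι i), f (Function.update p.2 m p.1) := by
    rw [Fintype.sum_prod_type]
  have h2 : ∑ p : ι m × ((i : κ) → ι i), f p.2 = Fintype.card (ι m) * ∑ s, f s := by
    rw [Fintype.sum_prod_type]
    simp
  rw [h1, ← h2]
  refine Fintype.sum_equiv (Equiv.ofBijective
    (fun p : ι m × ((i : κ) → ι i) => (p.2 m, Function.update p.2 m p.1))
    (Function.Involutive.bijective ?_)) _ _ ?_
  · rintro ⟨y, s⟩
    simp
  · rintro ⟨y, s⟩
    simp

theorem sum_card_update (m : κ) (P : ((i : κ) → ι i) → Prop) [DecidablePred P] :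
    ∑ y : ι m, (univ.filter fun s => P (Function.update s m y)).card =
      Fintype.card (ι m) * (univ.filter P).card := by
  have := sum_update m (fun s => if P s then 1 else 0)
  simp only [Finset.card_filter]
  exact this

theorem sum_Nm_hop (m : κ) (α : Coch ι) :
    ∑ y : ι m, Nm (hop m y α) ≤ Fintype.card (ι m) * Nm α := by
  simp only [Nm]
  rw [Finset.sum_comm, Finset.mul_sum]
  have h1 : ∀ J : Finset κ, ∑ y : ι m, (univ.filter fun s => hop m y α J s ≠ 0).card =
      if m ∈ J then 0 else Fintype.card (ι m) *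
        (univ.filter fun s => α (insert m J) s ≠ 0).card := by
    intro J
    split_ifs with hm
    · simp [hop, hm]
    · rw [← sum_card_update m (fun s => α (insert m J) s ≠ 0)]
      simp [hop, hm]
  rw [Finset.sum_congr rfl fun J _ => h1 J]
  rw [Finset.sum_ite, Finset.sum_const_zero, zero_add]
  have h2 : ∑ J ∈ univ.filter (fun J : Finset κ => ¬ m ∈ J), Fintype.card (ι m) *
        (univ.filter fun s => α (insert m J) s ≠ 0).card =
      ∑ J ∈ univ.filter (fun J : Finset κ => m ∈ J), Fintype.card (ι m) *
        (univ.filter fun s => α J s ≠ 0).card := by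
    refine Finset.sum_bij' (fun J _ => insert m J) (fun J _ => J.erase m) ?_ ?_ ?_ ?_ ?_
    · intro J hJ; simp
    · intro J hJ; simp
    · intro J hJ
      simp only [mem_filter, mem_univ, true_and] at hJ
      exact erase_insert hJ
    · intro J hJ
      simp only [mem_filter, mem_univ, true_and] at hJ
      exact insert_erase hJ
    · intro J hJ; rfl
  rw [h2]
  exact Finset.sum_le_sum_of_subset (filter_subset _ _)

theorem sum_Nm_pop (m : κ) (α : Coch ι) :
    ∑ y : ι m, Nm (pop m y α) ≤ Fintype.card (ι m) * (2 * Nm α) := by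
  simp only [Nm]
  rw [Finset.sum_comm, Finset.mul_sum, Finset.mul_sum]
  refine Finset.sum_le_sum fun J _ => ?_
  calc ∑ y : ι m, (univ.filter fun s => pop m y α J s ≠ 0).card
      ≤ ∑ y : ι m, ((univ.filter fun s => α J s ≠ 0).card +
          (univ.filter fun s => α J (Function.update s m y) ≠ 0).card) := by
        refine Finset.sum_le_sum fun y _ => ?_
        refine le_trans (card_le_card ?_) (card_union_le _ _)
        intro s hs
        have hs' := (mem_filter.1 hs).2
        simp only [mem_filter, mem_univ, true_and, mem_union]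
        by_contra h
        push Not at h
        apply hs'
        simp only [pop]
        rw [h.1, h.2, add_zero, ite_self]
    _ = Fintype.card (ι m) * (2 * (univ.filter fun s => α J s ≠ 0).card) := by
        rw [Finset.sum_add_distrib, sum_card_update m (fun s => α J s ≠ 0)]
        simp
        ring

/-- properties of the composites of the projections `pop` -/
structure IsProj (M : Finset κ) (P : Coch ι → Coch ι) : Prop where
  loc : ∀ φ, Loc φ → Loc (P φ)
  comm : ∀ φ, Loc φ → del (P φ) = P (del φ)
  supp : ∀ φ J, ¬ M ⊆ J → P φ J = 0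
  vanish : ∀ φ J, φ J = 0 → P φ J = 0

theorem exists_proj (hne : ∀ i, Nonempty (ι i)) (M : Finset κ) : ∀ α : Coch ι, Loc α →
    del α = 0 → ∃ (P : Coch ι → Coch ι) (β : Coch ι), IsProj M P ∧ Loc β ∧ α = del β + P α ∧
      Nm β + Nm (P α) ≤ 3 ^ M.card * Nm α ∧
      (∀ b : ℕ, (∀ J, J.card ≠ b → α J = 0) → ∀ J, J.card + 1 ≠ b → β J = 0) := by
  induction M using Finset.induction_on with
  | empty =>
    intro α hα hd
    refine ⟨id, 0, ⟨fun _ h => h, fun _ _ => rfl, fun _ J h => absurd (empty_subset J) h,
      fun _ _ h => h⟩, Loc.zero, ?_, ?_, ?_⟩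
    · rw [del_zero, zero_add]; rfl
    · rw [Nm_zero]; simp
    · intro b _ J _; rfl
  | insert m M hm ih =>
    intro α hα hd
    obtain ⟨P, β, hP, hβ, hαβ, hN, hb⟩ := ih α hα hd
    set α' := P α with hα'
    have hα'l : Loc α' := hP.loc α hα
    have hα'd : del α' = 0 := by
      rw [hα', hP.comm α hα, hd]
      funext J
      exact hP.vanish 0 J rfl
    -- choose the point
    have hsum : ∑ y : ι m, (Nm (hop m y α') + Nm (pop m y α')) ≤
        ∑ y : ι m, 3 * Nm α' := by
      rw [Finset.sum_add_distrib, Finset.sum_const, card_univ, smul_eq_mul]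
      have h1 := sum_Nm_hop m α'
      have h2 := sum_Nm_pop m α'
      calc _ ≤ Fintype.card (ι m) * Nm α' + Fintype.card (ι m) * (2 * Nm α') := add_le_add h1 h2
        _ = _ := by ring
    haveI := hne m
    obtain ⟨y, -, hy⟩ := Finset.exists_le_of_sum_le (univ_nonempty) hsum
    have hid := hom_id hα'l m y
    rw [hα'd, hop_zero, add_zero] at hid
    -- hid : del (hop m y α') = α' + pop m y α'
    refine ⟨fun φ => pop m y (P φ), β + hop m y α', ⟨?_, ?_, ?_, ?_⟩, hβ.add (hα'l.hop m y),
      ?_, ?_, ?_⟩
    · intro φ hφ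
      exact (hP.loc φ hφ).pop m y
    · intro φ hφ
      rw [del_pop (hP.loc φ hφ), hP.comm φ hφ]
    · intro φ J hJ
      funext s
      simp only [pop, Pi.zero_apply]
      split_ifs with hmJ
      · have : ¬ M ⊆ J := fun h => hJ (Finset.insert_subset hmJ h)
        rw [hP.supp φ J this]
        simp
      · rfl
    · intro φ J hJ
      funext s
      simp only [pop, Pi.zero_apply]
      rw [hP.vanish φ J hJ]
      simp
    · show α = del (β + hop m y α') + pop m y α'
      rw [del_add, hid, add_assoc, add_assoc, c2, add_zero]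
      exact hαβ
    · have h1 := Nm_add β (hop m y α')
      rw [card_insert_of_notMem hm, pow_succ]
      calc Nm (β + hop m y α') + Nm (pop m y (P α))
          ≤ Nm β + (Nm (hop m y α') + Nm (pop m y α')) := by rw [← hα']; omega
        _ ≤ Nm β + 3 * Nm α' := by omega
        _ ≤ 3 * (Nm β + Nm (P α)) := by rw [← hα']; omega
        _ ≤ 3 * (3 ^ M.card * Nm α) := Nat.mul_le_mul_left _ hN
        _ = 3 ^ M.card * 3 * Nm α := by ring
    · intro b hbα J hJ
      have h1 := hb b hbα J hJ
      funext s
      simp only [Pi.add_apply, Pi.zero_apply, hop]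
      rw [h1]
      split_ifs with hmJ
      · simp
      · have h2 : α' (insert m J) = 0 := by
          refine hP.vanish α _ (hbα _ ?_)
          rw [card_insert_of_notMem hmJ]
          exact hJ
        rw [h2]
        simp

/-- **Small primitives.** -/
theorem cofill (hne : ∀ i, Nonempty (ι i)) (α : Coch ι) (hα : Loc α) (hd : del α = 0) (b : ℕ)
    (hb : ∀ J, J.card ≠ b → α J = 0)
    (htop : b ≠ Fintype.card κ ∨ ∃ φ : Coch ι, Loc φ ∧ α = del φ ∧ φ univ = 0) :
    ∃ β : Coch ι, Loc β ∧ del β = α ∧ Nm β ≤ 3 ^ Fintype.card κ * Nm α ∧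
      ∀ J, J.card + 1 ≠ b → β J = 0 := by
  obtain ⟨P, β, hP, hβ, hαβ, hN, hb'⟩ := exists_proj hne univ α hα hd
  have hPα : P α = 0 := by
    rcases htop with htop | ⟨φ, hφ, hφα, hφu⟩
    · funext J
      by_cases hJ : (univ : Finset κ) ⊆ J
      · rw [Finset.univ_subset_iff] at hJ
        subst hJ
        exact hP.vanish α _ (hb _ (by rw [card_univ]; exact fun h => htop h.symm))
      · exact hP.supp α J hJ
    · have h1 : P φ = 0 := by
        funext J
        by_cases hJ : (univ : Finset κ) ⊆ J
        · rw [Finset.univ_subset_iff] at hJ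
          subst hJ
          exact hP.vanish φ _ hφu
        · exact hP.supp φ J hJ
      rw [hφα, ← hP.comm φ hφ, h1, del_zero]
  refine ⟨β, hβ, ?_, ?_, hb' b hb⟩
  · rw [hPα, add_zero] at hαβ
    exact hαβ.symm
  · have := hN
    rw [card_univ] at this
    omega

end Cofill

end Pool.Agent.J6H98.Sel
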