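import Pool.Agent.J6H98.Sel.Fill

set_option autoImplicit false
set_option linter.unusedSectionVars false

/-!
# A point in a positive fraction of the colourful simplices
-/

namespace Pool.Agent.J6H98.Sel

open Finset
open scoped Pointwise
open Finsupp (single)
open Pool.Agent.Helper325.BorsukUlam (Chain cone bdL bd sub bary S single_mem_S S_eq_span lin_mem
  cone_mem_S bdL_mem_S bd_single bd_cone bd_bdL bd_bd bd_sub sub_succ_single add_self S_mono
  bary_mem lin_eq_zero Good sub_iter_good sub_iter_good' bd_iter)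

section Deep

variable {E : Type*} [NormedAddCommGroup E] [NormedSpace ℝ E] [FiniteDimensional ℝ E]
variable {κ : Type*} [Fintype κ] [DecidableEq κ] {ι : κ → Type*}
variable [∀ i, Fintype (ι i)] [∀ i, DecidableEq (ι i)]

theorem hull_add_image {J : Type*} (T : Set J) (y : J → E) (w z : E) :
    z ∈ convexHull ℝ ((fun j => y j + w) '' T) ↔ z - w ∈ convexHull ℝ (y '' T) := by
  have h1 : (fun j => y j + w) '' T = w +ᵥ (y '' T) := by
    rw [← Set.image_vadd, Set.image_image]
    refine Set.image_congr fun j _ => ?_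
    rw [vadd_eq_add, add_comm]
  rw [h1, convexHull_vadd, Set.mem_vadd_set_iff_neg_vadd_mem, vadd_eq_add]
  rw [show -w + z = z - w by abel]

open Classical in
/-- the number of the colourful simplices (or faces of type `J`) which contain `p` -/
noncomputable def cov (x : (i : κ) → ι i → E) (J : Finset κ) (p : E) : ℕ :=
  (univ.filter fun s : (i : κ) → ι i =>
    p ∈ convexHull ℝ ((fun j => x j (s j)) '' (J : Set κ))).card

theorem core (hκ : Fintype.card κ = Module.finrank ℝ E + 1) (hd : 1 ≤ Module.finrank ℝ E)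
    (hne : ∀ i, Nonempty (ι i)) (x : (i : κ) → ι i → E) {I : Type*} [Finite I]
    (A : I → AffineSubspace ℝ E) (hA : ∀ i, A i ≠ ⊤) (K : ℕ)
    (hK : Bc (Fintype.card κ) (Fintype.card κ) * K < Fintype.card ((i : κ) → ι i))
    (h1 : ∀ p J, J.card < Fintype.card κ → cov x J p ≤ K)
    (h2 : ∀ p, (∀ i, p ∉ A i) → cov x univ p ≤ K) : False := by
  classical
  set m := Module.finrank ℝ E with hm
  -- step 1
  set R : ℝ := ∑ i, ∑ a, ‖x i a‖ with hR
  have hR0 : 0 ≤ R := by positivity
  have hxR : ∀ i a, ‖x i a‖ ≤ R := by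
    intro i a
    refine le_trans ?_ (Finset.single_le_sum (f := fun i => ∑ a, ‖x i a‖)
      (fun _ _ => Finset.sum_nonneg fun _ _ => norm_nonneg _) (mem_univ i))
    exact Finset.single_le_sum (f := fun a => ‖x i a‖) (fun _ _ => norm_nonneg _) (mem_univ a)
  -- step 2
  obtain ⟨p, hp1, hp2⟩ : ∃ p : Fin (m + 1) → E,
      Metric.closedBall (0 : E) (R + 1) ⊆ convexHull ℝ (Set.range p) ∧
      ∀ i, Disjoint (convexHull ℝ (p '' {i}ᶜ)) (Metric.closedBall (0 : E) (R + 1)) :=
    big_simplex (E := E) (R + 1) (by linarith)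
  set H : Set E := convexHull ℝ (Set.range p) with hH
  -- step 3
  set R3 : ℝ := ∑ i, ‖p i‖ with hR3
  have hpR3 : ∀ i, ‖p i‖ ≤ R3 := fun i =>
    Finset.single_le_sum (f := fun i => ‖p i‖) (fun _ _ => norm_nonneg _) (mem_univ i)
  have hR30 : 0 ≤ R3 := by positivity
  have hHR3 : ∀ y ∈ H, ‖y‖ ≤ R3 := by
    intro y hy
    have : H ⊆ Metric.closedBall (0 : E) R3 := by
      refine convexHull_min ?_ (convex_closedBall _ _)
      rintro _ ⟨i, rfl⟩
      simpa using hpR3 i
    simpa using this hy
  -- step 4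
  obtain ⟨η0, hη0, hleb⟩ := lebesgue (E := E) (I := Finset κ × ((i : κ) → ι i))
    (fun q => convexHull ℝ ((fun j => x j (q.2 j)) '' (q.1 : Set κ)))
    (fun q => (Set.Finite.isCompact_convexHull ℝ ((Finset.finite_toSet q.1).image _)).isClosed)
    (R3 + 1)
  -- step 5
  have hfrac : ((m + 1 : ℕ) : ℝ) / ((m + 1 : ℕ) + 1) < 1 := by
    rw [div_lt_one (by positivity)]
    linarith
  obtain ⟨N, hN⟩ : ∃ N : ℕ, (((m + 1 : ℕ) : ℝ) / ((m + 1 : ℕ) + 1)) ^ N * (2 * R3) ≤ η0 / 2 := by
    obtain ⟨N, hN⟩ := exists_pow_lt_of_lt_one (show 0 < η0 / 2 / (2 * R3 + 1) by positivity) hfrac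
    refine ⟨N, ?_⟩
    rw [lt_div_iff₀ (by positivity)] at hN
    have : 0 ≤ (((m + 1 : ℕ) : ℝ) / ((m + 1 : ℕ) + 1)) ^ N := by positivity
    nlinarith
  -- step 6
  set Δ : List E := List.ofFn p with hΔ
  let c : ℕ → Chain E := fun k => (sub (m + 1))^[k] (single Δ 1)
  have hmem : ∀ u ∈ Δ, u ∈ H := by
    intro u hu
    rw [hΔ, List.mem_ofFn] at hu
    obtain ⟨i, rfl⟩ := hu
    exact subset_convexHull ℝ _ ⟨i, rfl⟩
  have hgood0 : single Δ (1 : ZMod 2) ∈ S (Good (m + 1) (2 * R3) H) := by
    refine single_mem_S ⟨by rw [hΔ, List.length_ofFn], hmem, ?_⟩ 1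
    intro u hu v hv
    calc ‖u - v‖ ≤ ‖u‖ + ‖v‖ := norm_sub_le _ _
      _ ≤ R3 + R3 := add_le_add (hHR3 u (hmem u hu)) (hHR3 v (hmem v hv))
      _ = 2 * R3 := by ring
  have hcgood : ∀ k, c k ∈ S (Good (m + 1) ((((m + 1 : ℕ) : ℝ) / ((m + 1 : ℕ) + 1)) ^ k *
      (2 * R3)) H) := fun k =>
    sub_iter_good (m + 1) k (2 * R3) (by positivity) H (convex_convexHull ℝ _) _ hgood0
  set CC : Set (Set E) := Set.range fun i : Fin (m + 1) => convexHull ℝ (p '' {i}ᶜ) with hCC
  have hCCconv : ∀ C ∈ CC, Convex ℝ C := by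
    rintro _ ⟨i, rfl⟩
    exact convex_convexHull ℝ _
  have hbdΔ : bd (single Δ (1 : ZMod 2)) ∈ S (fun l => ∃ C ∈ CC, Good m (2 * R3) C l) := by
    rw [bd_single, one_smul, hΔ, bdL_ofFn]
    refine Submodule.sum_mem _ fun i _ => single_mem_S ⟨_, ⟨i, rfl⟩, ?_, ?_, ?_⟩ 1
    · rw [List.length_ofFn]
    · intro u hu
      rw [List.mem_ofFn] at hu
      obtain ⟨q, rfl⟩ := hu
      exact subset_convexHull ℝ _ ⟨i.succAbove q, Fin.succAbove_ne i q, rfl⟩
    · intro u hu v hv
      rw [List.mem_ofFn] at hu hv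
      obtain ⟨q, rfl⟩ := hu
      obtain ⟨q', rfl⟩ := hv
      calc ‖(p ∘ i.succAbove) q - (p ∘ i.succAbove) q'‖
          ≤ ‖p (i.succAbove q)‖ + ‖p (i.succAbove q')‖ := norm_sub_le _ _
        _ ≤ R3 + R3 := add_le_add (hpR3 _) (hpR3 _)
        _ = 2 * R3 := by ring
  have hbdc : ∀ k, bd (c k) ∈ S (fun l : List E => l.length = m ∧ Far CC l) := by
    intro k
    have : bd (c k) = (sub m)^[k] (bd (single Δ 1)) := bd_iter k m _
    rw [this]
    refine S_mono ?_ (sub_iter_good' m k (2 * R3) (by positivity) CC hCCconv _ hbdΔ)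
    rintro l ⟨C, hC, h⟩
    exact ⟨h.1, C, hC, h.2.1⟩
  -- step 7
  obtain ⟨W1, hW1, hW1'⟩ := exists_vertices (N + 1) c
  obtain ⟨W2, hW2, hW2'⟩ := exists_vertices (N + 1) (fun k => Hh (m + 1) (c k))
  set W : Finset E := W1 ∪ W2 ∪ {p 0} with hW
  have hWH : ∀ u ∈ W, u ∈ H := by
    intro u hu
    rw [hW, mem_union, mem_union, mem_singleton] at hu
    rcases hu with (hu | hu) | rfl
    · obtain ⟨k, _, l, hl, hu⟩ := hW1' u hu
      exact (mem_S_iff.1 (hcgood k) l hl).2.1 u hu
    · obtain ⟨k, _, l, hl, hu⟩ := hW2' u hu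
      have h3 : Hh (m + 1) (c k) ∈ S (fun l' : List E => l'.length = m + 1 + 1 ∧
          ∀ u ∈ l', u ∈ H) := by
        refine lin_mem (Hh (m + 1)) (P := fun l => l.length = m + 1 ∧ ∀ u ∈ l, u ∈ H) ?_ ?_
        · rintro l ⟨h3, h4⟩
          exact Hh_mem (m + 1) H (convex_convexHull ℝ _) l h3 h4
        · exact S_mono (fun l hl => ⟨hl.1, hl.2.1⟩) (hcgood k)
      exact (mem_S_iff.1 h3 l hl).2 u hu
    · exact subset_convexHull ℝ _ ⟨0, rfl⟩
  -- step 8
  have hsub : ∀ (T : Finset E) (J : Finset κ) (s : (i : κ) → ι i), ∃ B : AffineSubspace ℝ E,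
      B ≠ ⊤ ∧ (T.card + J.card ≤ Fintype.card κ → ∀ w : E,
      ¬ Disjoint (convexHull ℝ (T : Set E))
        (convexHull ℝ ((fun j => x j (s j) + w) '' (J : Set κ))) → w ∈ B) := by
    intro T J s
    by_cases hc : T.card + J.card ≤ Fintype.card κ
    · obtain ⟨B, hB, hB'⟩ := diff_subspace T J (fun j => x j (s j)) (by omega)
      exact ⟨B, hB, fun _ => hB'⟩
    · refine ⟨⊥, ?_, fun h => absurd h hc⟩
      exact bot_ne_top
  choose B hB hB' using hsub
  obtain ⟨w, hwU, hwA⟩ := avoid
    (I := ({T : Finset E // T ∈ W.powerset} × Finset κ × ((i : κ) → ι i)) ⊕ ({q : E // q ∈ W} × I))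
    (fun z => match z with
      | Sum.inl z => B z.1.1 z.2.1 z.2.2
      | Sum.inr z => refl z.1.1 (A z.2))
    (by
      rintro (z | z)
      · exact hB _ _ _
      · exact refl_ne_top _ _ (hA _))
    (Metric.ball (0 : E) 1) Metric.isOpen_ball ⟨0, by simp⟩
  have hw1 : ‖w‖ < 1 := by simpa using hwU
  set x' : (i : κ) → ι i → E := fun i a => x i a + w with hx'
  have hx'R : ∀ i a, x' i a ∈ Metric.closedBall (0 : E) (R + 1) := by
    intro i a
    rw [mem_closedBall_zero_iff]
    exact (norm_add_le _ _).trans (add_le_add (hxR i a) hw1.le)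
  have hhull' : ∀ (J : Finset κ) (s : (i : κ) → ι i),
      convexHull ℝ ((fun j => x' j (s j)) '' (J : Set κ)) ⊆ Metric.closedBall (0 : E) (R + 1) := by
    intro J s
    refine convexHull_min ?_ (convex_closedBall _ _)
    rintro _ ⟨j, _, rfl⟩
    exact hx'R _ _
  have hm1 : 1 < m + 1 := by omega
  -- step 9
  have hSit : Sit x' (W : Set E) (η0 / 2) K CC (p 0) := by
    refine ⟨hκ, hne, ?_, ?_, ?_, ?_, ?_⟩
    · intro l hl T J s hT hc
      by_contra hdis
      have hTW : T ∈ W.powerset := by
        rw [mem_powerset]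
        intro a ha
        exact hl a (hT a ha)
      exact hwA (Sum.inl (⟨T, hTW⟩, J, s)) (hB' T J s hc w hdis)
    · intro l J hok
      by_cases hlen : J.card + l.length = Fintype.card κ + 1
      swap
      · rw [Sit.hit_deg l J hlen]
        simp
      match l, hok, hlen with
      | [], _, hlen =>
        have := card_le_univ J
        simp only [List.length_nil] at hlen
        omega
      | [q], hok, hlen =>
        have hJ : J = univ := by
          rw [← Finset.card_eq_iff_eq_univ]
          simpa using hlen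
        subst hJ
        have hqW : q ∈ W := hok.1 q (by simp)
        refine le_trans (card_le_card ?_) (h2 (q - w) ?_)
        · intro s hs
          rw [mem_filter] at hs ⊢
          refine ⟨mem_univ _, ?_⟩
          have h3 := hs.2
          simp only [hitF] at h3
          rw [ite_ne_right_iff] at h3
          obtain ⟨⟨_, y, hy1, hy2⟩, _⟩ := h3
          have h4 : {a | a ∈ [q]} = {q} := by ext a; simp
          rw [h4, convexHull_singleton, Set.mem_singleton_iff] at hy1
          subst hy1
          exact (hull_add_image _ _ _ _).1 hy2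
        · intro i hi
          refine hwA (Sum.inr (⟨q, hqW⟩, i)) ?_
          show w ∈ refl q (A i)
          rw [mem_refl]
          exact hi
      | q :: r :: l', hok, hlen =>
        have hqW : q ∈ W := hok.1 q (by simp)
        obtain ⟨p0, hp0⟩ := hleb (q - w) (by
          rw [mem_closedBall_zero_iff]
          refine (norm_sub_le _ _).trans (add_le_add (hHR3 q (hWH q hqW)) hw1.le))
        refine le_trans (card_le_card ?_) (h1 p0 J (by
          simp only [List.length_cons] at hlen; omega))
        intro s hs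
        rw [mem_filter] at hs ⊢
        refine ⟨mem_univ _, ?_⟩
        have h3 := hs.2
        simp only [hitF] at h3
        rw [ite_ne_right_iff] at h3
        obtain ⟨⟨_, y, hy1, hy2⟩, _⟩ := h3
        by_contra hcon
        have h4 := hp0 (J, s) hcon
        have h5 : y - w ∈ Metric.ball (q - w) η0 := by
          have : convexHull ℝ {a | a ∈ q :: r :: l'} ⊆ Metric.ball q η0 := by
            refine convexHull_min ?_ (convex_ball _ _)
            intro a ha
            rw [mem_ball_iff_norm]
            have := hok.2 a ha q (by simp)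
            linarith
          have := this hy1
          rw [mem_ball_iff_norm] at this ⊢
          rwa [sub_sub_sub_cancel_right]
        exact (Set.disjoint_left.1 h4) h5 ((hull_add_image _ _ _ _).1 hy2)
    · rintro _ ⟨i, rfl⟩
      refine ⟨convex_convexHull ℝ _, fun J s => ?_⟩
      exact Set.disjoint_of_subset_right (hhull' J s) (hp2 i)
    · rw [mem_coe, hW]
      simp
    · refine ⟨_, ⟨⟨1, hm1⟩, rfl⟩, ?_⟩
      intro a ha
      rw [List.mem_singleton] at ha
      subst ha
      refine subset_convexHull ℝ _ ⟨0, ?_, rfl⟩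
      simp only [Set.mem_compl_iff, Set.mem_singleton_iff]
      intro h
      have := congrArg Fin.val h
      simp at this
  -- step 10
  have hzero : hitC x' (c N) = 0 := by
    refine hSit.main hK (c N) ?_ ?_
    · have h3 := S_inter (hcgood N) (hW1 N (by omega))
      refine S_mono ?_ h3
      rintro l ⟨h4, h5⟩
      refine ⟨by rw [h4.1, hκ], fun a ha => ?_, fun u hu v hv => (h4.2.2 u hu v hv).trans hN⟩
      rw [mem_coe, hW, mem_union, mem_union]
      exact Or.inl (Or.inl (h5 a ha))
    · exact S_mono (fun l hl => hl.2) (hbdc N)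
  -- step 11
  have : Nonempty κ := by
    rw [← Fintype.card_pos_iff]; omega
  obtain ⟨j⟩ : Nonempty κ := inferInstance
  let s : (i : κ) → ι i := fun i => (hne i).some
  have hcover : ∀ k, k ≤ N → hitC x' (c k) {j} s = 1 := by
    intro k
    induction k with
    | zero =>
      intro _
      show hitC x' (single Δ 1) {j} s = 1
      rw [hitC_single]
      simp only [hitF]
      rw [if_pos]
      refine ⟨by rw [hΔ, List.length_ofFn, hκ]; simp, x' j (s j), ?_, ?_⟩
      · have : {a | a ∈ Δ} = Set.range p := by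
          ext a
          rw [hΔ]
          exact List.mem_ofFn
        rw [this]
        exact hp1 (hx'R _ _)
      · exact subset_convexHull ℝ _ ⟨j, by simp, rfl⟩
    | succ k ih =>
      intro hk
      have e1 : c (k + 1) = sub (m + 1) (c k) := Function.iterate_succ_apply' _ _ _
      have e2 := bd_Hh m (c k)
      have e3 : sub (m + 1) (c k) = c k + (Hh m (bd (c k)) + bd (Hh (m + 1) (c k))) := by
        rw [e2]
        have : c k + (Hh m (bd (c k)) + (sub (m + 1) (c k) + c k + Hh m (bd (c k)))) =
          sub (m + 1) (c k) + (c k + c k) + (Hh m (bd (c k)) + Hh m (bd (c k))) := by abel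
        rw [this, add_self, add_self, add_zero, add_zero]
      rw [e1, e3, map_add, map_add]
      have e4 : hitC x' (Hh m (bd (c k))) = 0 := by
        have h3 : Hh m (bd (c k)) ∈ S (fun l : List E => Far CC l) := by
          refine lin_mem (Hh m) (P := fun l : List E => l.length = m ∧ Far CC l) ?_ (hbdc k)
          rintro l ⟨h4, C, hC, h5⟩
          refine S_mono ?_ (Hh_mem m C (hCCconv C hC) l h4 h5)
          rintro l' ⟨_, h6⟩
          exact ⟨C, hC, h6⟩
        refine lin_eq_zero (hitC x') (fun l hl => ?_) h3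
        rw [hitC_single]
        exact hSit.hit_far hl
      have e5 : hitC x' (bd (Hh (m + 1) (c k))) {j} s = 0 := by
        have h3 : Hh (m + 1) (c k) ∈ S (fun l : List E => ∀ a ∈ l, a ∈ (W : Set E)) := by
          refine S_mono ?_ (hW2 k (by omega))
          intro l hl a ha
          rw [mem_coe, hW, mem_union, mem_union]
          exact Or.inl (Or.inr (hl a ha))
        have h4 := lin_eq_zero (hitC x' ∘ₗ bd - delL ∘ₗ hitC x') (fun l hl => by
          rw [LinearMap.sub_apply, LinearMap.comp_apply, LinearMap.comp_apply, bd_single,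
            one_smul, hitC_single, hit_parity hκ x' l (hSit.gen l hl)]
          exact sub_self _) h3
        rw [LinearMap.sub_apply, LinearMap.comp_apply, LinearMap.comp_apply, sub_eq_zero] at h4
        rw [h4]
        show del (hitC x' (Hh (m + 1) (c k))) {j} s = 0
        simp only [del, Finset.sum_singleton]
        let Q : Submodule (ZMod 2) (Coch ι) :=
          { carrier := {α | α ∅ = 0}
            add_mem' := fun {a b} ha hb => by
              show (a + b) ∅ = 0
              rw [Pi.add_apply, show a ∅ = 0 from ha, show b ∅ = 0 from hb, add_zero]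
            zero_mem' := rfl
            smul_mem' := fun c a ha => by
              show (c • a) ∅ = 0
              rw [Pi.smul_apply, show a ∅ = 0 from ha, smul_zero] }
        have h5 : hitC x' (Hh (m + 1) (c k)) ∈ Q := by
          refine lin_mem' (hitC x') Q (fun l _ => ?_) h3
          rw [hitC_single]
          show hitF x' l ∅ = 0
          funext s
          simp [hitF]
        have h6 : hitC x' (Hh (m + 1) (c k)) ∅ = 0 := h5
        rw [Finset.erase_singleton, h6]
        rfl
      rw [Pi.add_apply, Pi.add_apply, Pi.add_apply, Pi.add_apply, ih (by omega), e4, e5]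
      simp
  have := hcover N le_rfl
  rw [hzero] at this
  simp at this

end Deep

end Pool.Agent.J6H98.Sel
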