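import Pool.Agent.J6H98.Sel.Chain

set_option autoImplicit false
set_option linter.unusedSectionVars false

/-!
# The inductive filling
-/

namespace Pool.Agent.J6H98.Sel

open Finset
open Finsupp (single)
open Pool.Agent.Helper325.BorsukUlam (Chain cone bdL bd sub bary S single_mem_S S_eq_span lin_mem
  cone_mem_S bdL_mem_S bd_single bd_cone bd_bdL bd_bd bd_sub sub_succ_single add_self S_mono
  bary_mem lin_eq_zero)

section Fill

variable {E : Type*} [NormedAddCommGroup E] [NormedSpace ℝ E] [FiniteDimensional ℝ E]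
variable {κ : Type*} [Fintype κ] [DecidableEq κ] {ι : κ → Type*}
variable [∀ i, Fintype (ι i)] [∀ i, DecidableEq (ι i)]

/-- the constants of the induction -/
def Bc (n : ℕ) : ℕ → ℕ
  | 0 => 0
  | k + 1 => 3 ^ n * (2 ^ n + (k + 1) * Bc n k)

/-- the points of the list lie in a common member of `CC` -/
def Far (CC : Set (Set E)) (l : List E) : Prop := ∃ C ∈ CC, ∀ a ∈ l, a ∈ C

/-- the points of the list lie in `V` and are close to each other -/
def Ok (V : Set E) (η : ℝ) (l : List E) : Prop :=
  (∀ a ∈ l, a ∈ V) ∧ ∀ u ∈ l, ∀ v ∈ l, ‖u - v‖ ≤ η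

/-- linear extension of a function on lists -/
noncomputable def ext (G : List E → Coch ι) : Chain E →ₗ[ZMod 2] Coch ι :=
  Finsupp.linearCombination (ZMod 2) G

theorem ext_single (G : List E → Coch ι) (l : List E) : ext G (single l 1) = G l := by
  simp [ext]

theorem ext_congr (G G' : List E → Coch ι) {P : List E → Prop} (h : ∀ l, P l → G l = G' l)
    {c : Chain E} (hc : c ∈ S P) : ext G c = ext G' c := by
  have := lin_eq_zero (ext G - ext G') (P := P) (fun l hl => by
    rw [LinearMap.sub_apply, ext_single, ext_single, h l hl, sub_self]) hc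
  rw [LinearMap.sub_apply] at this
  exact sub_eq_zero.1 this

/-- coboundary as a linear map -/
def delL : Coch ι →ₗ[ZMod 2] Coch ι where
  toFun := del
  map_add' := del_add
  map_smul' c α := by
    funext J s
    simp [del, Finset.mul_sum]

def locS : Submodule (ZMod 2) (Coch ι) where
  carrier := {α | Loc α}
  add_mem' h1 h2 := h1.add h2
  zero_mem' := Loc.zero
  smul_mem' c α h := by
    intro J s s' hs
    simp only [Pi.smul_apply]
    rw [h J s s' hs]

def degS (b : ℕ) : Submodule (ZMod 2) (Coch ι) where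
  carrier := {α | ∀ J, J.card ≠ b → α J = 0}
  add_mem' h1 h2 := by
    intro J hJ
    simp only [Pi.add_apply]
    rw [h1 J hJ, h2 J hJ, add_zero]
  zero_mem' := fun J _ => rfl
  smul_mem' c α h := by
    intro J hJ
    simp only [Pi.smul_apply]
    rw [h J hJ, smul_zero]

theorem Nm_sum {I : Type*} (T : Finset I) (f : I → Coch ι) :
    Nm (∑ i ∈ T, f i) ≤ ∑ i ∈ T, Nm (f i) := by
  classical
  induction T using Finset.induction_on with
  | empty => simp [Nm_zero]
  | insert a T ha ih =>
    rw [sum_insert ha, sum_insert ha]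
    exact (Nm_add _ _).trans (Nat.add_le_add_left ih _)

theorem Nm_eq_zero {α : Coch ι} (h : Nm α = 0) : α = 0 := by
  rw [Nm, Finset.sum_eq_zero_iff] at h
  funext J s
  have h1 := h J (mem_univ _)
  rw [card_eq_zero, Finset.filter_eq_empty_iff] at h1
  have := h1 (mem_univ s)
  push Not at this
  exact this

/-- the situation of the induction -/
structure Sit (x : (i : κ) → ι i → E) (V : Set E) (η : ℝ) (K : ℕ) (CC : Set (Set E)) (a0 : E) :
    Prop where
  hκ : Fintype.card κ = Module.finrank ℝ E + 1
  hne : ∀ i, Nonempty (ι i)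
  gen : ∀ l : List E, (∀ a ∈ l, a ∈ V) → GenL x l
  cnt : ∀ (l : List E) (J : Finset κ), Ok V η l →
    (univ.filter fun s => hitF x l J s ≠ 0).card ≤ K
  far : ∀ C ∈ CC, Convex ℝ C ∧ ∀ (J : Finset κ) (s : (i : κ) → ι i),
    Disjoint C (convexHull ℝ ((fun j => x j (s j)) '' (J : Set κ)))
  a0V : a0 ∈ V
  a0f : Far CC [a0]

variable {x : (i : κ) → ι i → E} {V : Set E} {η : ℝ} {K : ℕ} {CC : Set (Set E)} {a0 : E}

theorem Ok.sub {l l' : List E} (h : Ok V η l) (h' : l' ⊆ l) : Ok V η l' :=
  ⟨fun a ha => h.1 a (h' ha), fun u hu v hv => h.2 u (h' hu) v (h' hv)⟩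

theorem Far.sub {l l' : List E} (h : Far CC l) (h' : l' ⊆ l) : Far CC l' := by
  obtain ⟨C, hC, h⟩ := h
  exact ⟨C, hC, fun a ha => h a (h' ha)⟩

theorem Sit.hit_far (H : Sit x V η K CC a0) {l : List E} (h : Far CC l) : hitF x l = 0 := by
  obtain ⟨C, hC, h⟩ := h
  obtain ⟨hconv, hdis⟩ := H.far C hC
  funext J s
  simp only [hitF, Pi.zero_apply]
  rw [if_neg]
  rintro ⟨_, y, hy1, hy2⟩
  have : y ∈ C := (convexHull_min (fun a ha => h a ha) hconv) hy1
  exact (Set.disjoint_left.1 (hdis J s)) this hy2

theorem Sit.hit_deg (l : List E) (J : Finset κ) (h : J.card + l.length ≠ Fintype.card κ + 1) :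
    hitF x l J = 0 := by
  funext s
  simp only [hitF, Pi.zero_apply]
  rw [if_neg]
  rintro ⟨h1, _⟩
  omega

/-- the properties of the filling of a list -/
def Fil (x : (i : κ) → ι i → E) (K : ℕ) (CC : Set (Set E)) (G : List E → Coch ι) (l : List E)
    (β : Coch ι) : Prop :=
  Loc β ∧ (∀ J, J.card + l.length ≠ Fintype.card κ → β J = 0) ∧
    del β = hitF x l + ext G (bdL l) ∧ Nm β ≤ Bc (Fintype.card κ) l.length * K ∧
    (Far CC l → β = 0)

theorem Sit.step (H : Sit x V η K CC a0) (k : ℕ) (hk : k < Fintype.card κ)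
    (G : List E → Coch ι) (hG : ∀ l : List E, l.length ≤ k → Ok V η l → Fil x K CC G l (G l))
    (l : List E) (hl : l.length = k + 1) (hok : Ok V η l) : ∃ β, Fil x K CC G l β := by
  classical
  have hbd : bdL l ∈ S (fun l' : List E => l'.length ≤ k ∧ Ok V η l' ∧ l'.length = k ∧
      l' ⊆ l) := by
    refine S_mono ?_ (bdL_mem_S l)
    rintro l' ⟨h1, h2⟩
    exact ⟨by omega, hok.sub h2, by omega, h2⟩
  set α : Coch ι := hitF x l + ext G (bdL l) with hα
  have hloc : Loc α := by
    refine (hitF_loc x l).add ?_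
    have := lin_mem' (ext G) (locS (ι := ι)) (fun l' hl' => by
      rw [ext_single]; exact (hG l' hl'.1 hl'.2.1).1) hbd
    exact this
  have hdel : del α = 0 := by
    have h1 : del (hitF x l) = hitC x (bdL l) := (hit_parity H.hκ x l (H.gen l hok.1)).symm
    have h2 : del (ext G (bdL l)) = hitC x (bdL l) := by
      have h3 := lin_eq_zero (delL ∘ₗ ext G - hitC x - ext G ∘ₗ bd) (fun l' hl' => by
        rw [LinearMap.sub_apply, LinearMap.sub_apply, LinearMap.comp_apply, LinearMap.comp_apply,
          ext_single, hitC_single, bd_single, one_smul]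
        have := (hG l' hl'.1 hl'.2.1).2.2.1
        show del (G l') - hitF x l' - ext G (bdL l') = 0
        rw [this]; abel) hbd
      rw [LinearMap.sub_apply, LinearMap.sub_apply, LinearMap.comp_apply, LinearMap.comp_apply,
        bd_bdL, map_zero, sub_zero, sub_eq_zero] at h3
      exact h3
    rw [hα, del_add, h1, h2, c2]
  have hdeg : ∀ J, J.card ≠ Fintype.card κ - k → α J = 0 := by
    intro J hJ
    rw [hα, Pi.add_apply, Sit.hit_deg l J (by omega), zero_add]
    have := lin_mem' (ext G) (degS (ι := ι) (Fintype.card κ - k)) (fun l' hl' => by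
      rw [ext_single]
      intro J' hJ'
      refine (hG l' hl'.1 hl'.2.1).2.1 J' ?_
      have := hl'.2.2.1
      omega) hbd
    exact this J hJ
  have htop : Fintype.card κ - k ≠ Fintype.card κ ∨
      ∃ φ : Coch ι, Loc φ ∧ α = del φ ∧ φ univ = 0 := by
    rcases Nat.eq_zero_or_pos k with h0 | hpos
    · right
      subst h0
      obtain ⟨q, rfl⟩ := List.length_eq_one_iff.1 hl
      refine ⟨hitF x [a0, q], hitF_loc _ _, ?_, ?_⟩
      · have hV : ∀ a ∈ [a0, q], a ∈ V := by
          intro a ha
          rcases List.mem_cons.1 ha with rfl | ha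
          · exact H.a0V
          · exact hok.1 a ha
        rw [← hit_parity H.hκ x [a0, q] (H.gen _ hV)]
        have h1 : bdL [a0, q] = single [q] 1 + single [a0] 1 := by
          simp [bdL, cone]
        have h2 : bdL [q] = single [] 1 := by simp [bdL]
        rw [h1, map_add, hitC_single, hitC_single, H.hit_far H.a0f, add_zero, hα, h2, ext_single]
        have h3 : G [] = 0 := by
          have := (hG [] (by simp) ⟨by simp, by simp⟩).2.2.2.1
          simp only [List.length_nil, Bc, zero_mul, Nat.le_zero] at this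
          exact Nm_eq_zero this
        rw [h3, add_zero]
      · refine Sit.hit_deg _ _ ?_
        rw [card_univ]
        simp
    · left
      omega
  obtain ⟨β, hβ1, hβ2, hβ3, hβ4⟩ := cofill H.hne α hloc hdel _ hdeg htop
  refine ⟨β, hβ1, ?_, hβ2, ?_, ?_⟩
  · intro J hJ
    exact hβ4 J (by omega)
  · refine hβ3.trans ?_
    rw [hl, Bc, mul_assoc]
    refine Nat.mul_le_mul_left _ ?_
    refine (Nm_add _ _).trans ?_
    rw [add_mul]
    refine add_le_add ?_ ?_
    · rw [Nm]
      calc ∑ J : Finset κ, (univ.filter fun s => hitF x l J s ≠ 0).card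
          ≤ ∑ J : Finset κ, K := Finset.sum_le_sum fun J _ => H.cnt l J hok
        _ = 2 ^ Fintype.card κ * K := by
          rw [Finset.sum_const, card_univ, Fintype.card_finset, smul_eq_mul]
    · obtain ⟨u, rfl⟩ : ∃ u : Fin (k + 1) → E, l = List.ofFn u := by
        refine ⟨fun i => l.get (Fin.cast hl.symm i), ?_⟩
        refine List.ext_get (by rw [List.length_ofFn, hl]) ?_
        intro k h1 h2
        rw [List.get_ofFn]
        rfl
      rw [bdL_ofFn, map_sum]
      refine (Nm_sum _ _).trans ?_
      calc ∑ p : Fin (k + 1), Nm (ext G (single (List.ofFn (u ∘ p.succAbove)) 1))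
          ≤ ∑ p : Fin (k + 1), Bc (Fintype.card κ) k * K := by
            refine Finset.sum_le_sum fun p _ => ?_
            rw [ext_single]
            have hlen : (List.ofFn (u ∘ p.succAbove)).length = k := by simp
            have hsub : List.ofFn (u ∘ p.succAbove) ⊆ List.ofFn u := by
              intro a ha
              rw [List.mem_ofFn] at ha ⊢
              obtain ⟨i, rfl⟩ := ha
              exact ⟨p.succAbove i, rfl⟩
            have := (hG _ hlen.le (hok.sub hsub)).2.2.2.1
            rwa [hlen] at this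
        _ = (k + 1) * Bc (Fintype.card κ) k * K := by
            rw [Finset.sum_const, card_univ, Fintype.card_fin, smul_eq_mul, mul_assoc]
  · intro hf
    have h1 : α = 0 := by
      rw [hα, H.hit_far hf, zero_add]
      refine lin_eq_zero (ext G) (fun l' hl' => ?_) hbd
      rw [ext_single]
      exact (hG l' hl'.1 hl'.2.1).2.2.2.2 (hf.sub hl'.2.2.2)
    rw [h1, Nm_zero, mul_zero] at hβ3
    exact Nm_eq_zero (Nat.le_zero.1 hβ3)

theorem Fil_congr {G G' : List E → Coch ι} {l : List E} {β : Coch ι}
    (h : ∀ l' : List E, l'.length < l.length → G l' = G' l') (hf : Fil x K CC G l β) :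
    Fil x K CC G' l β := by
  obtain ⟨h1, h2, h3, h4, h5⟩ := hf
  refine ⟨h1, h2, ?_, h4, h5⟩
  rw [h3]
  congr 1
  refine ext_congr G G' (P := fun l' => l'.length < l.length) h ?_
  refine S_mono ?_ (bdL_mem_S l)
  rintro l' ⟨h1, _⟩
  omega

theorem Sit.fill (H : Sit x V η K CC a0) (k : ℕ) (hk : k ≤ Fintype.card κ) :
    ∃ G : List E → Coch ι, ∀ l : List E, l.length ≤ k → Ok V η l → Fil x K CC G l (G l) := by
  classical
  induction k with
  | zero =>
    refine ⟨fun _ => 0, ?_⟩
    intro l hl _
    have : l = [] := List.length_eq_zero_iff.1 (Nat.le_zero.1 hl)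
    subst this
    refine ⟨Loc.zero, fun _ _ => rfl, ?_, ?_, fun _ => rfl⟩
    · have h1 : hitF x ([] : List E) = 0 := by
        funext J s
        simp [hitF]
      rw [del_zero, h1]
      simp [bdL]
    · rw [Nm_zero]; exact Nat.zero_le _
  | succ k ih =>
    obtain ⟨G, hG⟩ := ih (by omega)
    have hex : ∀ l : List E, ∃ β, (l.length = k + 1 ∧ Ok V η l) → Fil x K CC G l β := by
      intro l
      by_cases h : l.length = k + 1 ∧ Ok V η l
      · obtain ⟨β, hβ⟩ := H.step k (by omega) G hG l h.1 h.2
        exact ⟨β, fun _ => hβ⟩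
      · exact ⟨0, fun h' => absurd h' h⟩
    choose g hg using hex
    refine ⟨fun l => if l.length = k + 1 then g l else G l, ?_⟩
    intro l hl hok
    by_cases h : l.length = k + 1
    · simp only [h, if_true]
      refine Fil_congr ?_ (hg l ⟨h, hok⟩)
      intro l' hl'
      rw [if_neg (by omega)]
    · simp only [h, if_false]
      refine Fil_congr ?_ (hG l (by omega) hok)
      intro l' hl'
      rw [if_neg (by omega)]

/-- the conclusion: a chain of small simplices whose boundary is far covers nothing -/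
theorem Sit.main (H : Sit x V η K CC a0)
    (hK : Bc (Fintype.card κ) (Fintype.card κ) * K < Fintype.card ((i : κ) → ι i))
    (c : Chain E) (hc : c ∈ S (fun l : List E => l.length = Fintype.card κ ∧ Ok V η l))
    (hb : bd c ∈ S (fun l : List E => Far CC l)) : hitC x c = 0 := by
  classical
  obtain ⟨G, hG⟩ := H.fill _ le_rfl
  have h0 : ∀ l : List E, l.length = Fintype.card κ → Ok V η l → G l = 0 := by
    intro l hl hok
    obtain ⟨h1, h2, _, h4, _⟩ := hG l hl.le hok
    rw [hl] at h4
    by_contra hne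
    have hJ : ∀ J : Finset κ, J ≠ ∅ → G l J = 0 := by
      intro J hJ
      refine h2 J ?_
      have := card_pos.2 (nonempty_iff_ne_empty.2 hJ)
      omega
    have hE : G l ∅ ≠ 0 := by
      intro h
      apply hne
      funext J
      by_cases hJ' : J = ∅
      · rw [hJ', h]; rfl
      · rw [hJ J hJ']; rfl
    obtain ⟨s0, hs0⟩ := Function.ne_iff.1 hE
    have hall : ∀ s, G l ∅ s ≠ 0 := by
      intro s
      rw [h1 ∅ s s0 (by simp)]
      exact hs0
    have : Fintype.card ((i : κ) → ι i) ≤ Nm (G l) := by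
      rw [Nm]
      refine le_trans ?_ (Finset.single_le_sum
        (f := fun J : Finset κ => (univ.filter fun s => G l J s ≠ 0).card)
        (fun _ _ => Nat.zero_le _) (mem_univ ∅))
      rw [Finset.filter_true_of_mem (fun s _ => hall s), card_univ]
    omega
  have hbS : bd c ∈ S (fun l' : List E => l'.length ≤ Fintype.card κ ∧ Ok V η l') := by
    refine lin_mem' bd _ (fun l hl => ?_) hc
    rw [bd_single, one_smul]
    refine S_mono ?_ (bdL_mem_S l)
    rintro l' ⟨h1, h2⟩
    exact ⟨by omega, hl.2.sub h2⟩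
  have h1 : ext G (bd c) = 0 := by
    refine lin_eq_zero (ext G) (fun l hl => ?_) (S_inter hbS hb)
    rw [ext_single]
    exact (hG l hl.1.1 hl.1.2).2.2.2.2 hl.2
  have h2 := lin_eq_zero (hitC x - ext G ∘ₗ bd) (fun l hl => by
    rw [LinearMap.sub_apply, LinearMap.comp_apply, hitC_single, bd_single, one_smul]
    have h3 := (hG l hl.1.le hl.2).2.2.1
    rw [h0 l hl.1 hl.2, del_zero] at h3
    -- 0 = hitF + ext
    have h4 : hitF x l = ext G (bdL l) := by
      have h5 : hitF x l + (hitF x l + ext G (bdL l)) = hitF x l + 0 := by rw [← h3]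
      rw [← add_assoc, c2, zero_add, add_zero] at h5
      exact h5.symm
    rw [h4, sub_self]) hc
  rw [LinearMap.sub_apply, LinearMap.comp_apply, h1, sub_zero] at h2
  exact h2

end Fill

end Pool.Agent.J6H98.Sel
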