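import Mathlib

set_option autoImplicit false
set_option linter.unusedSectionVars false

/-!
# A regularity lemma for multipartite hypergraphs

A dense multipartite hypergraph contains a box of positive proportion all of whose large sub-boxes
contain an edge.
-/

namespace Pool.Agent.J6H98.Sel

open Finset

section Reg

variable {κ : Type*} [Fintype κ] [DecidableEq κ] {α : Type*} [DecidableEq α]

/-- number of the edges in a box -/
noncomputable def edg (H : (κ → α) → Prop) [DecidablePred H] (Y : κ → Finset α) : ℝ :=
  ((Fintype.piFinset Y).filter H).card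

/-- volume of a box -/
noncomputable def vol (Y : κ → Finset α) : ℝ := ∏ i, ((Y i).card : ℝ)

theorem vol_eq (Y : κ → Finset α) : vol Y = (Fintype.piFinset Y).card := by
  rw [vol, Fintype.card_piFinset]
  push_cast
  rfl

theorem vol_pos {Y : κ → Finset α} (h : ∀ i, (Y i).Nonempty) : 0 < vol Y :=
  Finset.prod_pos fun i _ => by exact_mod_cast Finset.card_pos.2 (h i)

theorem edg_le (H : (κ → α) → Prop) [DecidablePred H] (Y : κ → Finset α) : edg H Y ≤ vol Y := by
  rw [vol_eq, edg]
  exact_mod_cast Finset.card_le_card (Finset.filter_subset _ _)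

theorem edg_nonneg (H : (κ → α) → Prop) [DecidablePred H] (Y : κ → Finset α) : 0 ≤ edg H Y :=
  Nat.cast_nonneg _

/-- splitting a box along one coordinate -/
theorem edg_split (H : (κ → α) → Prop) [DecidablePred H] (W : κ → Finset α) (j : κ)
    (Z : Finset α) (hZ : Z ⊆ W j) :
    edg H W = edg H (Function.update W j Z) + edg H (Function.update W j (W j \ Z)) := by
  rw [edg, edg, edg, ← Nat.cast_add]
  congr 1
  rw [← Finset.card_union_of_disjoint]
  · congr 1
    ext s
    simp only [mem_filter, Fintype.mem_piFinset, mem_union]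
    constructor
    · rintro ⟨h1, h2⟩
      by_cases hs : s j ∈ Z
      · left
        refine ⟨fun i => ?_, h2⟩
        by_cases hi : i = j
        · subst hi; simpa using hs
        · simpa [hi] using h1 i
      · right
        refine ⟨fun i => ?_, h2⟩
        by_cases hi : i = j
        · subst hi; simpa using ⟨h1 i, hs⟩
        · simpa [hi] using h1 i
    · rintro (⟨h1, h2⟩ | ⟨h1, h2⟩)
      · refine ⟨fun i => ?_, h2⟩
        have := h1 i
        by_cases hi : i = j
        · subst hi
          rw [Function.update_self] at this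
          exact hZ this
        · rwa [Function.update_of_ne hi] at this
      · refine ⟨fun i => ?_, h2⟩
        have := h1 i
        by_cases hi : i = j
        · subst hi
          rw [Function.update_self] at this
          exact (Finset.mem_sdiff.1 this).1
        · rwa [Function.update_of_ne hi] at this
  · rw [Finset.disjoint_left]
    intro s h1 h2
    have h3 := (Fintype.mem_piFinset.1 (mem_filter.1 h1).1) j
    have h4 := (Fintype.mem_piFinset.1 (mem_filter.1 h2).1) j
    rw [Function.update_self] at h3 h4
    exact (Finset.mem_sdiff.1 h4).2 h3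

theorem vol_update (W : κ → Finset α) (j : κ) (Z : Finset α) :
    vol (Function.update W j Z) * (W j).card = vol W * Z.card := by
  rw [vol, vol, ← Finset.mul_prod_erase univ _ (mem_univ j),
    ← Finset.mul_prod_erase univ (fun i => ((W i).card : ℝ)) (mem_univ j), Function.update_self]
  have : ∏ i ∈ univ.erase j, ((Function.update W j Z i).card : ℝ) =
      ∏ i ∈ univ.erase j, ((W i).card : ℝ) := by
    refine Finset.prod_congr rfl fun i hi => ?_
    rw [Function.update_of_ne (ne_of_mem_erase hi)]
  rw [this]
  ring

theorem num1 (K k : ℕ) (D t η r : ℝ) (hK : (0 : ℝ) < K) (hD : 0 < D) (ht : 0 < t) (hη : 0 < η)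
    (h3 : r ^ K * (η ^ k * t) ≤ D ^ K) : r ≤ D * (1 + 1 / (K * η ^ k) / t) := by
  by_contra hcon
  push Not at hcon
  obtain ⟨q, hrq⟩ : ∃ q, r = q * D := ⟨r / D, by rw [div_mul_cancel₀ _ hD.ne']⟩
  subst hrq
  have hδt : 0 < 1 / (K * η ^ k) / t := by positivity
  have hq1 : 1 + 1 / (K * η ^ k) / t < q := by
    rw [mul_comm] at hcon
    exact lt_of_mul_lt_mul_right hcon hD.le
  have h7 : 1 + (K : ℝ) * (q - 1) ≤ q ^ K := by
    have := one_add_mul_le_pow (show (-2 : ℝ) ≤ q - 1 by linarith) K
    have h : (1 : ℝ) + (q - 1) = q := by ring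
    rwa [h] at this
  have h8 : q ^ K * (η ^ k * t) ≤ 1 := by
    rw [mul_pow] at h3
    have h9 : q ^ K * (η ^ k * t) * D ^ K ≤ 1 * D ^ K := by
      calc _ = q ^ K * D ^ K * (η ^ k * t) := by ring
        _ ≤ D ^ K := h3
        _ = _ := by ring
    exact le_of_mul_le_mul_right h9 (by positivity)
  have h10 : (K : ℝ) * (1 / (K * η ^ k) / t) * (η ^ k * t) = 1 := by
    have h1 : (K : ℝ) ≠ 0 := hK.ne'
    have h2 : η ^ k ≠ 0 := by positivity
    field_simp
  have h11 : 0 < η ^ k * t := by positivity
  have h12 : (K : ℝ) * (1 / (K * η ^ k) / t) < 1 + (K : ℝ) * (q - 1) := by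
    have : (K : ℝ) * (1 / (K * η ^ k) / t) < K * (q - 1) := by
      refine mul_lt_mul_of_pos_left ?_ hK
      linarith
    linarith
  have h13 : (K : ℝ) * (1 / (K * η ^ k) / t) * (η ^ k * t) < q ^ K * (η ^ k * t) :=
    mul_lt_mul_of_pos_right (lt_of_lt_of_le h12 h7) h11
  linarith

theorem num2 (D A B δ z η v : ℝ) (hD : 0 ≤ D) (hη : 0 < η) (hzη : η ≤ z) (hA0 : 0 ≤ A)
    (hBA : B + δ ≤ A) (hv : 0 ≤ v) :
    D * (1 - A / η) * (z * v) ≤ D * (1 - B) * v - D * (1 - z + δ) * v := by
  have h18 : A ≤ A / η * z := by
    rw [div_mul_eq_mul_div, le_div_iff₀ hη]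
    exact mul_le_mul_of_nonneg_left hzη hA0
  have h17 : (1 - A / η) * z ≤ (1 - B) - (1 - z + δ) := by
    have : (1 - A / η) * z = z - A / η * z := by ring
    rw [this]
    linarith
  have h19 : D * ((1 - A / η) * z) ≤ D * ((1 - B) - (1 - z + δ)) :=
    mul_le_mul_of_nonneg_left h17 hD
  have h20 := mul_le_mul_of_nonneg_right h19 hv
  calc D * (1 - A / η) * (z * v) = D * ((1 - A / η) * z) * v := by ring
    _ ≤ D * ((1 - B) - (1 - z + δ)) * v := h20
    _ = _ := by ring

end Reg

theorem regular.{u, v} {κ : Type u} [Fintype κ] [DecidableEq κ] (η ρ : ℝ) (hη : 0 < η)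
    (hη1 : η ≤ 1) (hρ : 0 < ρ) :
    ∃ c : ℝ, 0 < c ∧ ∀ (α : Type v) [DecidableEq α] (X : κ → Finset α), (∀ i, (X i).Nonempty) →
      ∀ (H : (κ → α) → Prop) [DecidablePred H], ρ * vol X ≤ edg H X →
      ∃ Y : κ → Finset α, (∀ i, Y i ⊆ X i) ∧ (∀ i, c * (X i).card ≤ (Y i).card) ∧
        (∀ i, (Y i).Nonempty) ∧ ∀ Z : κ → Finset α, (∀ i, Z i ⊆ Y i) →
          (∀ i, η * (Y i).card ≤ (Z i).card) → ∃ s ∈ Fintype.piFinset Z, H s := by
  classical
  set k := Fintype.card κ with hk
  obtain ⟨K, hK⟩ := exists_nat_gt ((k : ℝ) / η ^ (2 * k))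
  have hK0 : (0 : ℝ) < K := lt_of_le_of_lt (by positivity) hK
  have hKne : K ≠ 0 := by
    intro h; rw [h] at hK0; simp at hK0
  refine ⟨ρ ^ K, by positivity, ?_⟩
  intro α _ X hX H _ hdens
  set 𝒴 : Finset (κ → Finset α) := (Fintype.piFinset fun i => (X i).powerset).filter
    fun Y => ∀ i, (Y i).Nonempty with h𝒴
  have hX𝒴 : X ∈ 𝒴 := by
    rw [h𝒴, mem_filter, Fintype.mem_piFinset]
    exact ⟨fun i => mem_powerset.2 (Finset.Subset.refl _), hX⟩
  obtain ⟨Y, hY, hmax⟩ := Finset.exists_max_image 𝒴 (fun Y => (edg H Y / vol Y) ^ K * vol Y)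
    ⟨X, hX𝒴⟩
  rw [h𝒴, mem_filter, Fintype.mem_piFinset] at hY
  have hYX : ∀ i, Y i ⊆ X i := fun i => mem_powerset.1 (hY.1 i)
  have hYne := hY.2
  have hvX := vol_pos hX
  have hvY := vol_pos hYne
  set D : ℝ := edg H Y / vol Y with hD
  have hD0 : 0 ≤ D := div_nonneg (edg_nonneg _ _) hvY.le
  have hD1 : D ≤ 1 := (div_le_one hvY).2 (edg_le _ _)
  have hΦ : ρ ^ K * vol X ≤ D ^ K * vol Y := by
    refine le_trans ?_ (hmax X hX𝒴)
    refine mul_le_mul_of_nonneg_right ?_ hvX.le
    refine pow_le_pow_left₀ hρ.le ?_ K
    rwa [le_div_iff₀ hvX]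
  have hDpos : 0 < D := by
    rcases hD0.lt_or_eq with h | h
    · exact h
    · rw [← h, zero_pow hKne, zero_mul] at hΦ
      have : 0 < ρ ^ K * vol X := by positivity
      linarith
  refine ⟨Y, hYX, ?_, hYne, ?_⟩
  · intro i
    have h1 : ρ ^ K * vol X ≤ vol Y := by
      refine hΦ.trans ?_
      have : D ^ K ≤ 1 := pow_le_one₀ hD0 hD1
      nlinarith
    rw [vol, vol, ← Finset.mul_prod_erase univ _ (mem_univ i),
      ← Finset.mul_prod_erase univ (fun i => ((Y i).card : ℝ)) (mem_univ i)] at h1
    set PX : ℝ := ∏ j ∈ univ.erase i, ((X j).card : ℝ) with hPX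
    set PY : ℝ := ∏ j ∈ univ.erase i, ((Y j).card : ℝ) with hPY
    have hPXpos : 0 < PX := Finset.prod_pos fun j _ => by exact_mod_cast Finset.card_pos.2 (hX j)
    have hPYX : PY ≤ PX := Finset.prod_le_prod (fun _ _ => Nat.cast_nonneg _) fun j _ => by
      exact_mod_cast Finset.card_le_card (hYX j)
    have h2 : ρ ^ K * ((X i).card : ℝ) * PX ≤ ((Y i).card : ℝ) * PX := by
      calc ρ ^ K * ((X i).card : ℝ) * PX = ρ ^ K * (((X i).card : ℝ) * PX) := by ring
        _ ≤ ((Y i).card : ℝ) * PY := h1
        _ ≤ ((Y i).card : ℝ) * PX := mul_le_mul_of_nonneg_left hPYX (Nat.cast_nonneg _)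
    exact le_of_mul_le_mul_right h2 hPXpos
  · intro Z hZY hZ
    set δ : ℝ := 1 / (K * η ^ k) with hδ
    have hδ0 : 0 < δ := by positivity
    have hZcard : ∀ i, 0 < ((Z i).card : ℝ) := fun i =>
      lt_of_lt_of_le (mul_pos hη (by exact_mod_cast Finset.card_pos.2 (hYne i))) (hZ i)
    have hZne : ∀ i, (Z i).Nonempty := fun i => Finset.card_pos.1 (by exact_mod_cast hZcard i)
    let W : Finset κ → κ → Finset α := fun S i => if i ∈ S then Z i else Y i
    have hWne : ∀ S i, (W S i).Nonempty := by
      intro S i
      simp only [W]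
      split_ifs
      · exact hZne i
      · exact hYne i
    have hWsub : ∀ S i, W S i ⊆ X i := by
      intro S i
      simp only [W]
      split_ifs
      · exact (hZY i).trans (hYX i)
      · exact hYX i
    have hWvol : ∀ S : Finset κ, η ^ S.card * vol Y ≤ vol (W S) := by
      intro S
      have e1 : η ^ S.card = ∏ i, (if i ∈ S then η else 1) := by
        rw [Finset.prod_ite_mem, Finset.univ_inter, Finset.prod_const]
      rw [e1, vol, vol, ← Finset.prod_mul_distrib]
      refine Finset.prod_le_prod (fun i _ => ?_) fun i _ => ?_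
      · split_ifs <;> positivity
      · simp only [W]
        split_ifs
        · exact hZ i
        · simp
    -- the main claim
    have claim : ∀ S : Finset κ, D * (1 - S.card * δ / η ^ S.card) * vol (W S) ≤ edg H (W S) := by
      intro S
      induction S using Finset.induction_on with
      | empty =>
        have : W ∅ = Y := by funext i; simp [W]
        rw [this]
        simp only [card_empty, Nat.cast_zero, zero_mul, pow_zero, zero_div, sub_zero, mul_one]
        rw [hD, div_mul_cancel₀ _ hvY.ne']
      | insert j S hj ih =>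
        have hWj : W S j = Y j := by simp [W, hj]
        have hupd : W (insert j S) = Function.update (W S) j (Z j) := by
          funext i
          by_cases hi : i = j
          · subst hi; simp [W]
          · simp [W, hi]
        have hSk : S.card ≤ k := card_le_univ S
        rw [card_insert_of_notMem hj]
        set mS := S.card with hmS
        have hεle : (mS : ℝ) * δ / η ^ mS + δ ≤ (mS + 1 : ℕ) * δ / η ^ mS := by
          have h1 : δ ≤ δ / η ^ mS := by
            rw [le_div_iff₀ (by positivity)]
            have : η ^ mS ≤ 1 := pow_le_one₀ hη.le hη1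
            nlinarith
          have h2 : ((mS + 1 : ℕ) : ℝ) * δ / η ^ mS = (mS : ℝ) * δ / η ^ mS + δ / η ^ mS := by
            rw [Nat.cast_add, Nat.cast_one, add_mul, add_div, one_mul]
          rw [h2]
          linarith
        have hε2 : ((mS + 1 : ℕ) : ℝ) * δ / η ^ (mS + 1) = ((mS + 1 : ℕ) : ℝ) * δ / η ^ mS / η := by
          rw [pow_succ, div_div]
        have hvW := vol_pos (hWne S)
        have hYj : (0 : ℝ) < (Y j).card := by exact_mod_cast Finset.card_pos.2 (hYne j)
        have hsplit := edg_split H (W S) j (Z j) (by rw [hWj]; exact hZY j)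
        rw [hWj] at hsplit
        have hv1 := vol_update (W S) j (Z j)
        rw [hWj] at hv1
        have hv2 := vol_update (W S) j (Y j \ Z j)
        rw [hWj] at hv2
        have hcardsub : ((Y j \ Z j).card : ℝ) = (Y j).card - (Z j).card := by
          rw [Finset.card_sdiff_of_subset (hZY j), Nat.cast_sub (Finset.card_le_card (hZY j))]
        -- bound for the other part
        have hother : edg H (Function.update (W S) j (Y j \ Z j)) ≤
            D * (((Y j \ Z j).card : ℝ) / (Y j).card + δ) * vol (W S) := by
          rcases (Y j \ Z j).eq_empty_or_nonempty with h0 | hne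
          · have : edg H (Function.update (W S) j (Y j \ Z j)) ≤ 0 := by
              refine (edg_le _ _).trans ?_
              rw [h0] at hv2 ⊢
              simp only [card_empty, Nat.cast_zero, mul_zero] at hv2
              rcases mul_eq_zero.1 hv2 with h | h
              · exact h.le
              · exact absurd h hYj.ne'
            refine this.trans ?_
            positivity
          · set W' := Function.update (W S) j (Y j \ Z j) with hW'
            have hW'ne : ∀ i, (W' i).Nonempty := by
              intro i
              by_cases hi : i = j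
              · subst hi; rw [hW', Function.update_self]; exact hne
              · rw [hW', Function.update_of_ne hi]; exact hWne S i
            have hW'mem : W' ∈ 𝒴 := by
              rw [h𝒴, mem_filter, Fintype.mem_piFinset]
              refine ⟨fun i => mem_powerset.2 ?_, hW'ne⟩
              by_cases hi : i = j
              · subst hi; rw [hW', Function.update_self]
                exact Finset.sdiff_subset.trans (hYX _)
              · rw [hW', Function.update_of_ne hi]; exact hWsub S i
            have hvW' := vol_pos hW'ne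
            set t : ℝ := ((Y j \ Z j).card : ℝ) / (Y j).card with ht
            have htpos : 0 < t := div_pos (by exact_mod_cast Finset.card_pos.2 hne) hYj
            have hvt : vol W' = t * vol (W S) := by
              rw [ht, div_mul_eq_mul_div, eq_div_iff hYj.ne', hv2]; ring
            have hlow : η ^ k * t * vol Y ≤ vol W' := by
              rw [hvt]
              have h1 := hWvol S
              have h2 : η ^ k ≤ η ^ S.card := pow_le_pow_of_le_one hη.le hη1 hSk
              calc η ^ k * t * vol Y = t * (η ^ k * vol Y) := by ring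
                _ ≤ t * (η ^ S.card * vol Y) := by gcongr
                _ ≤ t * vol (W S) := by gcongr
            have hm := hmax W' hW'mem
            set r : ℝ := edg H W' / vol W' with hr
            have hr0 : 0 ≤ r := div_nonneg (edg_nonneg _ _) hvW'.le
            -- r ^ K * vol W' ≤ D ^ K * vol Y
            have h3 : r ^ K * (η ^ k * t) ≤ D ^ K := by
              have h4 : r ^ K * (η ^ k * t * vol Y) ≤ D ^ K * vol Y :=
                (mul_le_mul_of_nonneg_left hlow (by positivity)).trans hm
              have h5 : r ^ K * (η ^ k * t) * vol Y ≤ D ^ K * vol Y := by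
                calc _ = r ^ K * (η ^ k * t * vol Y) := by ring
                  _ ≤ _ := h4
              exact le_of_mul_le_mul_right h5 hvY
            have h6 : r ≤ D * (1 + δ / t) := num1 K k D t η r hK0 hDpos htpos hη h3
            have h14 : edg H W' = r * vol W' := by rw [hr, div_mul_cancel₀ _ hvW'.ne']
            rw [h14, hvt]
            have h21 : (1 + δ / t) * t = t + δ := by
              rw [add_mul, one_mul, div_mul_cancel₀ _ htpos.ne']
            calc r * (t * vol (W S)) ≤ D * (1 + δ / t) * (t * vol (W S)) :=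
                  mul_le_mul_of_nonneg_right h6 (mul_nonneg htpos.le hvW.le)
              _ = D * ((1 + δ / t) * t) * vol (W S) := by ring
              _ = D * (t + δ) * vol (W S) := by rw [h21]
        -- conclusion
        rw [hupd]
        set z : ℝ := ((Z j).card : ℝ) / (Y j).card with hz
        have hzη : η ≤ z := by rw [hz, le_div_iff₀ hYj]; exact hZ j
        have hz0 : 0 < z := lt_of_lt_of_le hη hzη
        have htz : ((Y j \ Z j).card : ℝ) / (Y j).card = 1 - z := by
          rw [hcardsub, hz, sub_div, div_self hYj.ne']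
        rw [htz] at hother
        have hvz : vol (Function.update (W S) j (Z j)) = z * vol (W S) := by
          rw [hz, div_mul_eq_mul_div, eq_div_iff hYj.ne', hv1]; ring
        rw [hvz]
        have h15 : edg H (Function.update (W S) j (Z j)) ≥
            D * (1 - (mS : ℝ) * δ / η ^ mS) * vol (W S) - D * (1 - z + δ) * vol (W S) := by
          linarith
        refine le_trans ?_ h15
        rw [hε2]
        exact num2 D _ _ δ z η (vol (W S)) hD0 hη hzη (by positivity) hεle hvW.le
    have hfin := claim univ
    have hWZ : W univ = Z := by funext i; simp [W]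
    rw [hWZ, card_univ, ← hk] at hfin
    have hlt : (k : ℝ) * δ / η ^ k < 1 := by
      rw [hδ, mul_one_div, div_div, div_lt_one (mul_pos (mul_pos hK0 (pow_pos hη k)) (pow_pos hη k))]
      rw [div_lt_iff₀ (by positivity)] at hK
      calc (k : ℝ) < K * η ^ (2 * k) := hK
        _ = K * η ^ k * η ^ k := by ring
    have hpos : 0 < edg H Z := by
      refine lt_of_lt_of_le ?_ hfin
      have h1 : 0 < 1 - (k : ℝ) * δ / η ^ k := by linarith
      have h2 := vol_pos hZne
      positivity
    rw [edg] at hpos
    have hne : ((Fintype.piFinset Z).filter H).Nonempty :=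
      Finset.card_pos.1 (by exact_mod_cast hpos)
    obtain ⟨s, hs⟩ := hne
    exact ⟨s, (mem_filter.1 hs).1, (mem_filter.1 hs).2⟩

end Pool.Agent.J6H98.Sel
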