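import Pool.Agent.J6H98.Sel.GenPos
import Pool.Agent.J6H98.Sel.Reg
import Pool.Agent.R87.HS

set_option autoImplicit false
set_option linter.unusedSectionVars false

/-!
# The homogeneous selection theorem
-/

namespace Pool.Agent.J6H98.Sel

open Finset Filter Topology

section

variable {E : Type*} [NormedAddCommGroup E] [NormedSpace ℝ E] [FiniteDimensional ℝ E]

theorem mem_hull_sub {κ : Type*} [Fintype κ] (y : κ → E) (p : E) :
    p ∈ convexHull ℝ (Set.range y) ↔ (0 : E) ∈ convexHull ℝ (Set.range fun i => y i - p) := by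
  rw [← Set.image_univ, ← Set.image_univ, mem_hull_image, mem_hull_image]
  have h : ∀ a : κ → ℝ, ∑ i, a i = 1 → (∑ i, a i • (y i - p) = 0 ↔ ∑ i, a i • y i = p) := by
    intro a ha
    simp only [smul_sub, Finset.sum_sub_distrib, ← Finset.sum_smul, ha, one_smul, sub_eq_zero]
  constructor
  · rintro ⟨a, h1, h2, h3, h4⟩
    exact ⟨a, h1, h2, h3, (h a h3).2 h4⟩
  · rintro ⟨a, h1, h2, h3, h4⟩
    exact ⟨a, h1, h2, h3, (h a h3).1 h4⟩

theorem Bc_pos (n k : ℕ) (hk : 1 ≤ k) : 0 < Bc n k := by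
  obtain ⟨m, rfl⟩ : ∃ m, k = m + 1 := ⟨k - 1, by omega⟩
  rw [Bc]
  positivity

/-- a point in a positive proportion of the colourful simplices -/
theorem dense_point {κ : Type*} [Fintype κ] [DecidableEq κ]
    (hκ : Fintype.card κ = Module.finrank ℝ E + 1) (hd : 1 ≤ Module.finrank ℝ E)
    {α : Type*} [Fintype α] [DecidableEq α] (x : κ → α → E)
    (hx : GP (fun q : κ × α => x q.1 q.2))
    (hn : Bc (Fintype.card κ) (Fintype.card κ) * 2 ^ (Fintype.card κ) + 1 ≤ Fintype.card α) :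
    ∃ p : E, (∀ T : Finset (κ × α), T.card ≤ Module.finrank ℝ E →
      p ∉ affineSpan ℝ ((fun q : κ × α => x q.1 q.2) '' (T : Set (κ × α)))) ∧
      Fintype.card (κ → α) ≤ Bc (Fintype.card κ) (Fintype.card κ) *
        cov (ι := fun _ : κ => α) x univ p := by
  classical
  set k := Fintype.card κ with hk
  set n := Fintype.card α with hnn
  set B := Bc k k with hB
  have hBpos : 0 < B := Bc_pos _ _ (by omega)
  have hNcard : Fintype.card (κ → α) = n ^ k := by rw [Fintype.card_fun]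
  have hn1 : 1 ≤ n := by omega
  have hN1 : 1 ≤ n ^ k := Nat.one_le_pow _ _ hn1
  have hαne : Nonempty α := Fintype.card_pos_iff.1 (by omega)
  set K := (n ^ k - 1) / B with hK
  by_contra hcon
  push Not at hcon
  refine core (ι := fun _ : κ => α) hκ hd (fun _ => hαne) x
    (I := {T : Finset (κ × α) // T.card ≤ Module.finrank ℝ E})
    (fun T => affineSpan ℝ ((fun q : κ × α => x q.1 q.2) '' (T.1 : Set (κ × α))))
    (fun T => affineSpan_ne_top _ T.1 T.2) K ?_ ?_ ?_
  · rw [← hk, ← hB]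
    have h1 : B * K ≤ n ^ k - 1 := Nat.mul_div_le _ _
    have h2 : Fintype.card ((i : κ) → (fun _ : κ => α) i) = n ^ k := hNcard
    rw [h2]
    omega
  · intro p J hJ
    refine (cov_low x hx p J (by omega)).trans ?_
    rw [hK, Nat.le_div_iff_mul_le hBpos, ← hnn, ← hk]
    have h1 : n ^ k = n ^ (k - 1) * n := by
      rw [← pow_succ]
      congr 1
      omega
    have h2 : 1 ≤ n ^ (k - 1) := Nat.one_le_pow _ _ hn1
    have h3 : n ^ (k - 1) * (B * 2 ^ k + 1) ≤ n ^ (k - 1) * n := Nat.mul_le_mul_left _ hn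
    rw [h1]
    have h4 : n ^ (k - 1) * (B * 2 ^ k + 1) = 2 ^ k * n ^ (k - 1) * B + n ^ (k - 1) := by ring
    omega
  · intro p hp
    have h1 := hcon p (fun T hT => hp ⟨T, hT⟩)
    rw [hNcard] at h1
    rw [hK, Nat.le_div_iff_mul_le hBpos]
    have h2 : B * cov (ι := fun _ : κ => α) x univ p =
      cov (ι := fun _ : κ => α) x univ p * B := mul_comm _ _
    omega

/-- homogeneous selection in general position -/
theorem gp_case (κ : Type) [Fintype κ] [DecidableEq κ]
    (hκ : Fintype.card κ = Module.finrank ℝ E + 1) (hd : 1 ≤ Module.finrank ℝ E) :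
    ∃ (c : ℝ) (n0 : ℕ), 0 < c ∧ ∀ (α : Type) [Fintype α] [DecidableEq α],
      n0 ≤ Fintype.card α → ∀ x : κ → α → E, GP (fun q : κ × α => x q.1 q.2) →
      ∃ (p : E) (D : κ → Finset α), (∀ i, c * Fintype.card α ≤ (D i).card) ∧
        ∀ s : κ → α, (∀ i, s i ∈ D i) → p ∈ convexHull ℝ (Set.range fun i => x i (s i)) := by
  classical
  set k := Fintype.card κ with hk
  set B := Bc k k with hB
  have hBpos : 0 < B := Bc_pos _ _ (by omega)
  have hB0 : (0 : ℝ) < B := by exact_mod_cast hBpos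
  have hd0 : (1 : ℝ) ≤ Module.finrank ℝ E := by exact_mod_cast hd
  set θ : ℝ := 1 / (8 * Module.finrank ℝ E) with hθ
  have hθ0 : 0 < θ := by rw [hθ]; positivity
  have hθ1 : θ ≤ 1 := by
    rw [hθ, div_le_one (by positivity)]
    linarith
  set η : ℝ := θ ^ k with hη
  have hη0 : 0 < η := by positivity
  have hη1 : η ≤ 1 := pow_le_one₀ hθ0.le hθ1
  obtain ⟨c1, hc1, hreg⟩ := regular (κ := κ) η (1 / B) hη0 hη1 (by positivity)
  obtain ⟨n1, hn1⟩ := exists_nat_gt (4 * (Module.finrank ℝ E : ℝ) / (η * c1))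
  refine ⟨η * c1, max (B * 2 ^ k + 1) n1, by positivity, ?_⟩
  intro α _ _ hα x hx
  have hα1 : B * 2 ^ k + 1 ≤ Fintype.card α := le_trans (le_max_left _ _) hα
  have hα2 : n1 ≤ Fintype.card α := le_trans (le_max_right _ _) hα
  obtain ⟨p, hpA, hpc⟩ := dense_point hκ hd x hx hα1
  have hαne : Nonempty α := Fintype.card_pos_iff.1 (by omega)
  let H : (κ → α) → Prop := fun s => p ∈ convexHull ℝ (Set.range fun i => x i (s i))
  have hcov : cov (ι := fun _ : κ => α) x univ p = (univ.filter H).card := by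
    unfold cov
    congr 1
    ext s
    simp [H]
  obtain ⟨Y, _, hY2, hYne, hY3⟩ := hreg α (fun _ => univ) (fun _ => univ_nonempty) H (by
    rw [vol, edg]
    have h1 : Fintype.piFinset (fun _ : κ => (univ : Finset α)) = univ := by
      ext s; simp
    rw [h1, ← hcov, div_mul_eq_mul_div, one_mul, div_le_iff₀ hB0]
    simp only [card_univ, prod_const]
    have h2 : (Fintype.card (κ → α) : ℝ) ≤ B * cov (ι := fun _ : κ => α) x univ p := by
      exact_mod_cast hpc
    rw [Fintype.card_fun] at h2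
    push_cast at h2
    linarith)
  simp only [card_univ] at hY2
  have hgen := genZ_of_GP x hx p hpA
  obtain ⟨Z, u, hZ1, hZ2, hZ3⟩ := half_spaces hκ hd (fun i a => x i a - p) hgen Y θ hθ (by
    intro i
    rw [← hk, ← hη]
    have h1 := hY2 i
    have h2 : 4 * (Module.finrank ℝ E : ℝ) ≤ (n1 : ℝ) * (η * c1) := by
      rw [div_lt_iff₀ (by positivity)] at hn1
      exact hn1.le
    have h3 : (n1 : ℝ) ≤ Fintype.card α := by exact_mod_cast hα2
    have h4 : (n1 : ℝ) * (η * c1) ≤ Fintype.card α * (η * c1) :=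
      mul_le_mul_of_nonneg_right h3 (by positivity)
    have h5 : η * (c1 * Fintype.card α) ≤ η * (Y i).card := mul_le_mul_of_nonneg_left h1 hη0.le
    calc 4 * (Module.finrank ℝ E : ℝ) ≤ Fintype.card α * (η * c1) := h2.trans h4
      _ = η * (c1 * Fintype.card α) := by ring
      _ ≤ _ := h5)
  obtain ⟨s0, hs0, hH⟩ := hY3 Z hZ1 hZ2
  rw [Fintype.mem_piFinset] at hs0
  refine ⟨p, Z, ?_, ?_⟩
  · intro i
    calc η * c1 * Fintype.card α = η * (c1 * Fintype.card α) := by ring
      _ ≤ η * (Y i).card := mul_le_mul_of_nonneg_left (hY2 i) hη0.le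
      _ ≤ _ := hZ2 i
  · intro s hs
    have h1 : (0 : E) ∈ convexHull ℝ (Set.range fun i => x i (s0 i) - p) :=
      (mem_hull_sub (fun i => x i (s0 i)) p).1 hH
    have h2 := all_change hκ (fun i a => x i a - p) hgen Z u hZ3 s0 hs0 h1 s hs
    exact (mem_hull_sub (fun i => x i (s i)) p).2 h2

end

open Pool.Agent.R87.HS in
/-- limits of perturbed configurations -/
theorem limit_arg {d : ℕ} {κ : Type} [Fintype κ] [Nonempty κ] {α : Type} [Fintype α]
    (x : κ → α → Pool.Agent.R87.HS.E d) (P : (κ → Finset α) → Prop)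
    (h : ∀ ε : ℝ, 0 < ε → ∃ y : κ → α → Pool.Agent.R87.HS.E d, (∀ i a, ‖y i a - x i a‖ ≤ ε) ∧
      ∃ (p : Pool.Agent.R87.HS.E d) (D : κ → Finset α), P D ∧ (∀ i, (D i).Nonempty) ∧
        ∀ s : κ → α, (∀ i, s i ∈ D i) → p ∈ convexHull ℝ (Set.range fun i => y i (s i))) :
    ∃ (p : Pool.Agent.R87.HS.E d) (D : κ → Finset α), P D ∧
      ∀ s : κ → α, (∀ i, s i ∈ D i) → p ∈ convexHull ℝ (Set.range fun i => x i (s i)) := by
  classical
  set R0 : ℝ := ∑ i, ∑ a, ‖x i a‖ with hR0
  have hR0x : ∀ i a, ‖x i a‖ ≤ R0 := by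
    intro i a
    calc ‖x i a‖ ≤ ∑ a, ‖x i a‖ :=
          Finset.single_le_sum (f := fun a => ‖x i a‖) (fun _ _ => norm_nonneg _) (mem_univ a)
      _ ≤ R0 := Finset.single_le_sum (f := fun i => ∑ a, ‖x i a‖)
          (fun _ _ => Finset.sum_nonneg fun _ _ => norm_nonneg _) (mem_univ i)
  have key : ∀ᶠ m : ℕ in (atTop : Filter ℕ), ∃ D ∈ (Set.univ : Set (κ → Finset α)),
      P D ∧ ∃ p : Pool.Agent.R87.HS.E d,
      p ∈ Metric.closedBall (0 : Pool.Agent.R87.HS.E d) (R0 + 1) ∧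
      ∀ s : κ → α, (∀ i, s i ∈ D i) →
        ∃ q ∈ convexHull ℝ (Set.range fun i => x i (s i)), ‖p - q‖ ≤ 1 / ((m : ℝ) + 1) := by
    refine Eventually.of_forall fun m => ?_
    have hm : (0 : ℝ) < 1 / ((m : ℝ) + 1) := by positivity
    obtain ⟨y, hy, p, D, hP, hne, hD⟩ := h _ hm
    have hnear : ∀ s : κ → α, (∀ i, s i ∈ D i) →
        ∃ q ∈ convexHull ℝ (Set.range fun i => x i (s i)), ‖p - q‖ ≤ 1 / ((m : ℝ) + 1) := by
      intro s hs
      exact near_hull (fun i => x i (s i)) (fun i => y i (s i)) _ (fun i => hy i (s i)) p (hD s hs)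
    refine ⟨D, Set.mem_univ _, hP, p, ?_, hnear⟩
    choose s hs using hne
    obtain ⟨q, hq, hpq⟩ := hnear s hs
    have hq2 : ‖q‖ ≤ R0 := by
      have : convexHull ℝ (Set.range fun i => x i (s i)) ⊆
          Metric.closedBall (0 : Pool.Agent.R87.HS.E d) R0 := by
        refine convexHull_min ?_ (convex_closedBall _ _)
        rintro _ ⟨i, rfl⟩
        simpa using hR0x i (s i)
      simpa using this hq
    rw [mem_closedBall_zero_iff]
    have h3 : 1 / ((m : ℝ) + 1) ≤ 1 := by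
      rw [div_le_one (by positivity)]
      have : (0 : ℝ) ≤ m := Nat.cast_nonneg _
      linarith
    calc ‖p‖ = ‖(p - q) + q‖ := by rw [sub_add_cancel]
      _ ≤ ‖p - q‖ + ‖q‖ := norm_add_le _ _
      _ ≤ R0 + 1 := by linarith
  let 𝒰 : Ultrafilter ℕ := Ultrafilter.of atTop
  have h𝒰 : (𝒰 : Filter ℕ) ≤ atTop := Ultrafilter.of_le _
  obtain ⟨D, _, hev⟩ := (Ultrafilter.eventually_exists_mem_iff Set.finite_univ).1
    (key.filter_mono h𝒰)
  have hPD : P D := by
    obtain ⟨m, hm⟩ := hev.exists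
    exact hm.1
  obtain ⟨g, hg⟩ := (hev.mono fun m hm => hm.2).choice
  have hmem : Metric.closedBall (0 : Pool.Agent.R87.HS.E d) (R0 + 1) ∈
      (𝒰.map g : Filter (Pool.Agent.R87.HS.E d)) := by
    rw [Ultrafilter.coe_map, Filter.mem_map]
    filter_upwards [hg] with ε h using h.1
  obtain ⟨p, _, hp⟩ := (isCompact_closedBall (0 : Pool.Agent.R87.HS.E d)
    (R0 + 1)).ultrafilter_le_nhds' (𝒰.map g) hmem
  have htend : Tendsto g 𝒰 (𝓝 p) := hp
  refine ⟨p, D, hPD, ?_⟩
  intro s hs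
  set K := convexHull ℝ (Set.range fun i => x i (s i)) with hK
  have hKc : IsClosed K := ((Set.finite_range _).isCompact_convexHull ℝ).isClosed
  have hKn : K.Nonempty := ⟨_, subset_convexHull ℝ _ ⟨Classical.arbitrary κ, rfl⟩⟩
  rw [hKc.mem_iff_infDist_zero hKn]
  refine le_antisymm ?_ Metric.infDist_nonneg
  have h1 : Tendsto (fun m => Metric.infDist (g m) K) 𝒰 (𝓝 (Metric.infDist p K)) :=
    ((Metric.continuous_infDist_pt K).tendsto p).comp htend
  have h2 : Tendsto (fun m : ℕ => 1 / ((m : ℝ) + 1)) 𝒰 (𝓝 0) :=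
    (tendsto_one_div_add_atTop_nhds_zero_nat (𝕜 := ℝ)).mono_left h𝒰
  refine le_of_tendsto_of_tendsto h1 h2 ?_
  filter_upwards [hg] with m h
  obtain ⟨q, hq, hpq⟩ := h.2 s hs
  calc Metric.infDist (g m) K ≤ dist (g m) q := Metric.infDist_le_dist_of_mem hq
    _ ≤ _ := by rw [dist_eq_norm]; exact hpq

/-- **Pach's homogeneous selection theorem** -/
theorem pach (d : ℕ) (hd : 1 ≤ d) : ∃ c : ℝ, 0 < c ∧ Pool.Agent.R87.HS.PachEqual d c := by
  classical
  have hfr : Module.finrank ℝ (Pool.Agent.R87.HS.E d) = d := by simp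
  obtain ⟨c0, n0, hc0, hmain⟩ := gp_case (E := Pool.Agent.R87.HS.E d) (Fin (d + 1))
    (by rw [hfr, Fintype.card_fin]) (by rw [hfr]; exact hd)
  refine ⟨min c0 (1 / ((n0 : ℝ) + 1)), lt_min hc0 (by positivity), ?_⟩
  intro n C hn hC hdisj
  have hn0 : (0 : ℝ) < n := by exact_mod_cast hn
  by_cases hnn : n0 ≤ n
  · let e : ∀ i, {a // a ∈ C i} ≃ Fin n := fun i => (C i).equivFinOfCardEq (hC i)
    let x : Fin (d + 1) → Fin n → Pool.Agent.R87.HS.E d := fun i a => ((e i).symm a : _)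
    obtain ⟨p, D, hD, hp⟩ := limit_arg x (fun D => ∀ i, c0 * n ≤ (D i).card) (by
      intro ε hε
      obtain ⟨y, hy, hgp⟩ := perturb (fun q : Fin (d + 1) × Fin n => x q.1 q.2) ε hε
      obtain ⟨p, D, hD, hp⟩ := hmain (Fin n) (by simpa using hnn) (fun i a => y (i, a)) hgp
      rw [Fintype.card_fin] at hD
      refine ⟨fun i a => y (i, a), fun i a => hy (i, a), p, D, hD, ?_, hp⟩
      intro i
      rw [← Finset.card_pos]
      have h1 := hD i
      have h2 : 0 < c0 * n := mul_pos hc0 hn0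
      exact_mod_cast lt_of_lt_of_le h2 h1)
    refine ⟨p, fun i => (D i).image (x i), fun i => ⟨?_, ?_⟩, ?_⟩
    · intro z hz
      obtain ⟨a, _, rfl⟩ := mem_image.1 hz
      exact ((e i).symm a).2
    · rw [card_image_of_injective]
      · exact (mul_le_mul_of_nonneg_right (min_le_left _ _) hn0.le).trans (hD i)
      · intro a b hab
        exact (e i).symm.injective (Subtype.ext hab)
    · intro z hz
      choose s hs1 hs2 using fun i => mem_image.1 (hz i)
      have h1 := hp s hs1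
      have h2 : (fun i => x i (s i)) = z := funext hs2
      rw [h2] at h1
      exact h1
  · push Not at hnn
    have hne : ∀ i, (C i).Nonempty := by
      intro i
      rw [← Finset.card_pos, hC i]
      omega
    choose z hz using hne
    refine ⟨z 0, fun i => {z i}, fun i => ⟨by simpa using hz i, ?_⟩, ?_⟩
    · rw [card_singleton, Nat.cast_one]
      have h1 : (n : ℝ) ≤ (n0 : ℝ) + 1 := by
        have : (n : ℝ) ≤ n0 := by exact_mod_cast hnn.le
        linarith
      calc min c0 (1 / ((n0 : ℝ) + 1)) * n ≤ 1 / ((n0 : ℝ) + 1) * ((n0 : ℝ) + 1) := by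
            refine mul_le_mul (min_le_right _ _) h1 hn0.le (by positivity)
        _ = 1 := by
            rw [one_div, inv_mul_cancel₀]
            positivity
    · intro y hy
      refine subset_convexHull ℝ _ ⟨0, ?_⟩
      simpa using hy 0

end Pool.Agent.J6H98.Sel
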