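import Pool.Agent.J6H98.Sel.Hit

set_option autoImplicit false
set_option linter.unusedSectionVars false

/-!
# General position and large simplices
-/

namespace Pool.Agent.J6H98.Sel

open Finset
open scoped Pointwise

section Geo

variable {E : Type*} [NormedAddCommGroup E] [NormedSpace ℝ E] [FiniteDimensional ℝ E]

/-- A nonempty open set is not covered by finitely many proper affine subspaces. -/
theorem avoid {I : Type*} [Finite I] (A : I → AffineSubspace ℝ E) (hA : ∀ i, A i ≠ ⊤)
    (U : Set E) (hU : IsOpen U) (hne : U.Nonempty) : ∃ y ∈ U, ∀ i, y ∉ A i := by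
  borelize E
  let μ : MeasureTheory.Measure E := MeasureTheory.Measure.addHaar
  have h1 : μ (⋃ i, (A i : Set E)) = 0 := by
    rw [MeasureTheory.measure_iUnion_null_iff]
    intro i
    exact MeasureTheory.Measure.addHaar_affineSubspace μ (A i) (hA i)
  have h2 : 0 < μ U := hU.measure_pos μ hne
  by_contra hcon
  push Not at hcon
  have h3 : U ⊆ ⋃ i, (A i : Set E) := by
    intro y hy
    obtain ⟨i, hi⟩ := hcon y hy
    exact Set.mem_iUnion.2 ⟨i, hi⟩
  have := MeasureTheory.measure_mono_null h3 h1
  exact h2.ne' this

/-- the affine subspace of the points `w` with `q - w ∈ A` -/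
noncomputable def refl (q : E) (A : AffineSubspace ℝ E) : AffineSubspace ℝ E :=
  A.comap (AffineMap.const ℝ E q - AffineMap.id ℝ E)

theorem mem_refl (q : E) (A : AffineSubspace ℝ E) (w : E) : w ∈ refl q A ↔ q - w ∈ A := by
  simp [refl, AffineSubspace.mem_comap]

theorem refl_ne_top (q : E) (A : AffineSubspace ℝ E) (hA : A ≠ ⊤) : refl q A ≠ ⊤ := by
  intro h
  apply hA
  rw [eq_top_iff]
  intro z _
  have : q - z ∈ refl q A := by rw [h]; trivial
  rw [mem_refl] at this
  simpa using this

/-- the differences of the points of two simplices of small dimensions lie in a proper affine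
subspace -/
theorem diff_subspace {κ : Type*} [DecidableEq κ] (T : Finset E) (J : Finset κ) (y : κ → E)
    (hc : T.card + J.card ≤ Module.finrank ℝ E + 1) :
    ∃ A : AffineSubspace ℝ E, A ≠ ⊤ ∧ ∀ w : E,
      ¬ Disjoint (convexHull ℝ (T : Set E)) (convexHull ℝ ((fun j => y j + w) '' (J : Set κ))) →
        w ∈ A := by
  classical
  rcases T.eq_empty_or_nonempty with hT | ⟨t0, ht0⟩
  · subst hT
    refine ⟨⊥, bot_ne_top, ?_⟩
    intro w hw
    exact absurd (by simp) hw
  rcases J.eq_empty_or_nonempty with hJ | ⟨j0, hj0⟩
  · subst hJ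
    refine ⟨⊥, bot_ne_top, ?_⟩
    intro w hw
    exact absurd (by simp) hw
  set F : Finset E := (T.erase t0).image (fun t => t - t0) ∪
    (J.erase j0).image (fun j => y j0 - y j) with hF
  have hFcard : F.card + 1 ≤ Module.finrank ℝ E := by
    have h1 : F.card ≤ (T.card - 1) + (J.card - 1) := by
      refine (card_union_le _ _).trans (add_le_add ?_ ?_)
      · exact card_image_le.trans (card_erase_of_mem ht0).le
      · exact card_image_le.trans (card_erase_of_mem hj0).le
    have h2 := card_pos.2 ⟨t0, ht0⟩
    have h3 := card_pos.2 ⟨j0, hj0⟩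
    omega
  set D : Submodule ℝ E := Submodule.span ℝ (F : Set E) with hD
  have hDtop : D ≠ ⊤ := by
    intro h
    have h1 := finrank_span_finset_le_card (R := ℝ) F
    rw [Set.finrank, ← hD, h, finrank_top] at h1
    omega
  refine ⟨AffineSubspace.mk' (t0 - y j0) D, ?_, ?_⟩
  · intro h
    apply hDtop
    have := congrArg AffineSubspace.direction h
    rwa [AffineSubspace.direction_mk', AffineSubspace.direction_top] at this
  · intro w hw
    rw [Set.not_disjoint_iff] at hw
    obtain ⟨z, hz1, hz2⟩ := hw
    rw [AffineSubspace.mem_mk']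
    -- z - t0 ∈ D
    have e1 : z - t0 ∈ D := by
      have : convexHull ℝ (T : Set E) ⊆ {z | z - t0 ∈ D} := by
        refine convexHull_min ?_ ?_
        · intro t ht
          by_cases h : t = t0
          · subst h; simp
          · refine Submodule.subset_span ?_
            rw [hF, coe_union]
            left
            rw [coe_image]
            exact ⟨t, mem_coe.2 (mem_erase.2 ⟨h, ht⟩), rfl⟩
        · intro a ha b hb p q _ _ hpq
          have : p • a + q • b - t0 = p • (a - t0) + q • (b - t0) := by
            have : t0 = (p + q) • t0 := by rw [hpq, one_smul]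
            rw [smul_sub, smul_sub]
            nth_rewrite 1 [this]
            rw [add_smul]; abel
          show p • a + q • b - t0 ∈ D
          rw [this]
          exact D.add_mem (D.smul_mem _ ha) (D.smul_mem _ hb)
      exact this hz1
    have e2 : y j0 + w - z ∈ D := by
      have : convexHull ℝ ((fun j => y j + w) '' (J : Set κ)) ⊆ {z | y j0 + w - z ∈ D} := by
        refine convexHull_min ?_ ?_
        · rintro _ ⟨j, hj, rfl⟩
          by_cases h : j = j0
          · subst h; simp
          · have : y j0 + w - (y j + w) = y j0 - y j := by abel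
            show y j0 + w - (y j + w) ∈ D
            rw [this]
            refine Submodule.subset_span ?_
            rw [hF, coe_union]
            right
            rw [coe_image]
            exact ⟨j, mem_coe.2 (mem_erase.2 ⟨h, hj⟩), rfl⟩
        · intro a ha b hb p q _ _ hpq
          have : y j0 + w - (p • a + q • b) = p • (y j0 + w - a) + q • (y j0 + w - b) := by
            have : y j0 + w = (p + q) • (y j0 + w) := by rw [hpq, one_smul]
            rw [smul_sub, smul_sub]
            nth_rewrite 1 [this]
            rw [add_smul]; abel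
          show y j0 + w - (p • a + q • b) ∈ D
          rw [this]
          exact D.add_mem (D.smul_mem _ ha) (D.smul_mem _ hb)
      exact this hz2
    have : w -ᵥ (t0 - y j0) = (z - t0) + (y j0 + w - z) := by
      rw [vsub_eq_sub]; abel
    rw [this]
    exact D.add_mem e1 e2

/-- a simplex whose facets are far from the origin -/
theorem big_simplex (R : ℝ) (hR : 0 ≤ R) : ∃ p : Fin (Module.finrank ℝ E + 1) → E,
    Metric.closedBall (0 : E) R ⊆ convexHull ℝ (Set.range p) ∧
    ∀ i, Disjoint (convexHull ℝ (p '' {i}ᶜ)) (Metric.closedBall (0 : E) R) := by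
  obtain ⟨b, hb, -⟩ := exists_mem_interior_convexHull_affineBasis
    (Filter.univ_mem : (Set.univ : Set E) ∈ nhds (0 : E))
  have hopen : IsOpen (interior (convexHull ℝ (Set.range b))) := isOpen_interior
  obtain ⟨r, hr, hball⟩ := Metric.isOpen_iff.1 hopen 0 hb
  set K : ℝ := (R + 1) / r with hK
  have hK0 : 0 < K := by positivity
  have hKr : K⁻¹ * R < r := by
    rw [hK, inv_div, div_mul_eq_mul_div, div_lt_iff₀ (by positivity)]
    nlinarith
  have hmem : ∀ y ∈ Metric.closedBall (0 : E) R, K⁻¹ • y ∈ interior (convexHull ℝ (Set.range b)) := by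
    intro y hy
    apply hball
    rw [mem_ball_zero_iff, norm_smul, norm_inv, Real.norm_of_nonneg hK0.le]
    rw [mem_closedBall_zero_iff] at hy
    exact lt_of_le_of_lt (mul_le_mul_of_nonneg_left hy (by positivity)) hKr
  refine ⟨fun i => K • b i, ?_, ?_⟩
  · intro y hy
    have h1 := interior_subset (hmem y hy)
    have h2 : K • (K⁻¹ • y) ∈ K • convexHull ℝ (Set.range b) := Set.smul_mem_smul_set h1
    rw [smul_smul, mul_inv_cancel₀ hK0.ne', one_smul, ← convexHull_smul] at h2
    have h3 : K • Set.range b = Set.range fun i => K • b i := by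
      rw [← Set.image_smul, ← Set.range_comp]; rfl
    rwa [h3] at h2
  · intro i
    rw [Set.disjoint_left]
    intro y hy hyR
    have h1 := hmem y hyR
    rw [AffineBasis.interior_convexHull] at h1
    have h2 : 0 < b.coord i (K⁻¹ • y) := h1 i
    have h3 : (fun i => K • b i) '' {i}ᶜ = K • (b '' {i}ᶜ) := by
      rw [← Set.image_smul, Set.image_image]
    rw [h3, convexHull_smul] at hy
    obtain ⟨z, hz, rfl⟩ := hy
    rw [smul_smul, inv_mul_cancel₀ hK0.ne', one_smul] at h2
    have h4 : b.coord i z = 0 := by
      have : convexHull ℝ (b '' {i}ᶜ) ⊆ {z | b.coord i z = 0} := by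
        refine convexHull_min ?_ ?_
        · rintro _ ⟨j, hj, rfl⟩
          show b.coord i (b j) = 0
          rw [AffineBasis.coord_apply, if_neg]
          exact fun e => hj e.symm
        · have := (convex_singleton (𝕜 := ℝ) (0 : ℝ)).affine_preimage (b.coord i)
          simpa [Set.preimage] using this
      exact this hz
    rw [h4] at h2
    exact lt_irrefl _ h2

/-- Lebesgue number for a finite family of closed sets -/
theorem lebesgue {I : Type*} [Finite I] (C : I → Set E) (hC : ∀ i, IsClosed (C i)) (R : ℝ) :
    ∃ η > 0, ∀ q ∈ Metric.closedBall (0 : E) R, ∃ p : E, ∀ i, p ∉ C i →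
      Disjoint (Metric.ball q η) (C i) := by
  classical
  have hcomp : IsCompact (Metric.closedBall (0 : E) R) := isCompact_closedBall _ _
  let U : E → Set E := fun p => ⋂ i, if p ∈ C i then Set.univ else (C i)ᶜ
  have hU : ∀ p, IsOpen (U p) := by
    intro p
    refine isOpen_iInter_of_finite fun i => ?_
    split_ifs
    · exact isOpen_univ
    · exact (hC i).isOpen_compl
  have hpU : ∀ p, p ∈ U p := by
    intro p
    refine Set.mem_iInter.2 fun i => ?_
    split_ifs with h
    · trivial
    · exact h
  obtain ⟨η, hη, h⟩ := lebesgue_number_lemma_of_metric hcomp hU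
    (fun q _ => Set.mem_iUnion.2 ⟨q, hpU q⟩)
  refine ⟨η, hη, fun q hq => ?_⟩
  obtain ⟨p, hp⟩ := h q hq
  refine ⟨p, fun i hi => ?_⟩
  rw [Set.disjoint_left]
  intro z hz hzi
  have := Set.mem_iInter.1 (hp hz) i
  rw [if_neg hi] at this
  exact this hzi

end Geo

end Pool.Agent.J6H98.Sel
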