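import Pool.Agent.J6H98.Sel.Homog
import Pool.Agent.J6H98.Sel.Geo
import Pool.Agent.J6H98.Sel.Deep

set_option autoImplicit false
set_option linter.unusedSectionVars false

/-!
# General position
-/

namespace Pool.Agent.J6H98.Sel

open Finset

section

variable {E : Type*} [NormedAddCommGroup E] [NormedSpace ℝ E] [FiniteDimensional ℝ E]

open Classical in
/-- any `finrank E + 1` of the points are affinely independent -/
def GP {Q : Type*} [Fintype Q] (y : Q → E) : Prop :=
  ∀ w : Q → ℝ, (univ.filter fun q => w q ≠ 0).card ≤ Module.finrank ℝ E + 1 →
    ∑ q, w q = 0 → ∑ q, w q • y q = 0 → w = 0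

theorem affineSpan_ne_top {Q : Type*} (y : Q → E) (T : Finset Q)
    (hT : T.card ≤ Module.finrank ℝ E) : affineSpan ℝ (y '' (T : Set Q)) ≠ ⊤ := by
  classical
  intro h
  rcases Nat.eq_zero_or_pos T.card with h0 | hpos
  · rw [Finset.card_eq_zero] at h0
    rw [h0] at h
    simp only [coe_empty, Set.image_empty, AffineSubspace.span_empty] at h
    exact bot_ne_top h
  · have h1 : vectorSpan ℝ (y '' (T : Set Q)) = ⊤ := by
      rw [← direction_affineSpan, h, AffineSubspace.direction_top]
    have h2 := finrank_vectorSpan_image_finset_le ℝ y T (n := T.card - 1) (by omega)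
    rw [← Finset.coe_image] at h1
    rw [h1, finrank_top] at h2
    omega

theorem mem_span_of_comb {Q : Type*} [Fintype Q] (y : Q → E) (T : Finset Q) (w : Q → ℝ)
    (hT : ∀ q, q ∉ T → w q = 0) (h1 : ∑ q, w q = 1) :
    ∑ q, w q • y q ∈ affineSpan ℝ (y '' (T : Set Q)) := by
  classical
  have h2 : ∑ q ∈ T, w q = 1 := by
    rw [← h1]
    exact Finset.sum_subset (subset_univ _) fun q _ hq => hT q hq
  have h3 : ∑ q, w q • y q = ∑ q ∈ T, w q • y q := by
    symm
    exact Finset.sum_subset (subset_univ _) fun q _ hq => by rw [hT q hq, zero_smul]
  rw [h3, ← Finset.affineCombination_eq_linear_combination T y w h2]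
  exact affineCombination_mem_affineSpan_image h2 (fun i hi hn => absurd hi hn) y

/-- perturbation to general position -/
theorem perturb {Q : Type*} [Fintype Q] (x : Q → E) (ε : ℝ) (hε : 0 < ε) :
    ∃ y : Q → E, (∀ q, ‖y q - x q‖ ≤ ε) ∧ GP y := by
  classical
  have key : ∀ S : Finset Q, ∃ y : Q → E, (∀ q, ‖y q - x q‖ ≤ ε) ∧
      ∀ w : Q → ℝ, (∀ q, q ∉ S → w q = 0) →
        (univ.filter fun q => w q ≠ 0).card ≤ Module.finrank ℝ E + 1 →
        ∑ q, w q = 0 → ∑ q, w q • y q = 0 → w = 0 := by
    intro S
    induction S using Finset.induction_on with
    | empty =>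
      refine ⟨x, fun q => by simpa using hε.le, fun w hw _ _ _ => ?_⟩
      funext q
      exact hw q (by simp)
    | insert a S ha ih =>
      obtain ⟨y, hy, hg⟩ := ih
      let I := {T : Finset Q // T.card ≤ Module.finrank ℝ E}
      obtain ⟨v, hv, hvA⟩ := avoid (fun T : I => affineSpan ℝ (y '' (T.1 : Set Q)))
        (fun T => affineSpan_ne_top y T.1 T.2) (Metric.ball (x a) ε) Metric.isOpen_ball
        ⟨x a, Metric.mem_ball_self hε⟩
      refine ⟨Function.update y a v, ?_, ?_⟩
      · intro q
        by_cases h : q = a
        · subst h
          rw [Function.update_self]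
          rw [mem_ball_iff_norm] at hv
          exact hv.le
        · rw [Function.update_of_ne h]; exact hy q
      · intro w hw hcard hsum hcomb
        have hcomb' : w a • v + ∑ q ∈ univ.erase a, w q • y q = 0 := by
          rw [← Finset.add_sum_erase _ _ (mem_univ a), Function.update_self] at hcomb
          rw [← hcomb]
          congr 1
          refine Finset.sum_congr rfl fun q hq => ?_
          rw [Function.update_of_ne (ne_of_mem_erase hq)]
        by_cases hwa : w a = 0
        · refine hg w ?_ hcard hsum ?_
          · intro q hq
            by_cases h : q = a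
            · rw [h, hwa]
            · exact hw q (by rw [mem_insert]; push Not; exact ⟨h, hq⟩)
          · rw [← Finset.add_sum_erase _ _ (mem_univ a), hwa, zero_smul]
            rw [hwa, zero_smul] at hcomb'
            exact hcomb'
        · exfalso
          set T : Finset Q := (univ.filter fun q => w q ≠ 0).erase a with hT
          have hTc : T.card ≤ Module.finrank ℝ E := by
            have hmem : a ∈ univ.filter fun q => w q ≠ 0 := mem_filter.2 ⟨mem_univ _, hwa⟩
            rw [hT, card_erase_of_mem hmem]
            omega
          refine hvA ⟨T, hTc⟩ ?_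
          have h1 := mem_span_of_comb y T (fun q => if q = a then 0 else - w q / w a) ?_ ?_
          · have h2 : ∑ q, (if q = a then 0 else - w q / w a) • y q = v := by
              rw [← Finset.add_sum_erase _ _ (mem_univ a)]
              simp only [if_true, zero_smul, zero_add]
              have h3 : ∑ q ∈ univ.erase a, (if q = a then 0 else - w q / w a) • y q =
                  - ((w a)⁻¹ • ∑ q ∈ univ.erase a, w q • y q) := by
                rw [Finset.smul_sum, ← Finset.sum_neg_distrib]
                refine Finset.sum_congr rfl fun q hq => ?_
                rw [if_neg (ne_of_mem_erase hq), smul_smul, ← neg_smul]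
                congr 1
                ring
              rw [h3]
              have h4 : ∑ q ∈ univ.erase a, w q • y q = - (w a • v) :=
                eq_neg_of_add_eq_zero_right hcomb'
              rw [h4, smul_neg, neg_neg, smul_smul, inv_mul_cancel₀ hwa, one_smul]
            rw [h2] at h1
            exact h1
          · intro q hq
            by_cases h : q = a
            · simp [h]
            · simp only [if_neg h]
              have : w q = 0 := by
                by_contra hne
                exact hq (mem_erase.2 ⟨h, mem_filter.2 ⟨mem_univ _, hne⟩⟩)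
              rw [this]; simp
          · rw [← Finset.add_sum_erase _ _ (mem_univ a)]
            simp only [if_true, zero_add]
            have h3 : ∑ q ∈ univ.erase a, (if q = a then 0 else - w q / w a) =
                - (∑ q ∈ univ.erase a, w q) / w a := by
              rw [← Finset.sum_neg_distrib, Finset.sum_div]
              refine Finset.sum_congr rfl fun q hq => ?_
              rw [if_neg (ne_of_mem_erase hq)]
            rw [h3]
            have h4 : ∑ q ∈ univ.erase a, w q = - w a := by
              rw [← Finset.add_sum_erase _ _ (mem_univ a)] at hsum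
              exact eq_neg_of_add_eq_zero_right hsum
            rw [h4, neg_neg, div_self hwa]
  obtain ⟨y, h1, h2⟩ := key univ
  refine ⟨y, h1, ?_⟩
  intro w hw
  refine h2 w (fun q hq => absurd (mem_univ q) hq) ?_
  convert hw

variable {κ : Type*} [Fintype κ] [DecidableEq κ] {α : Type*} [Fintype α] [DecidableEq α]

/-- translation of the points in general position by a generic point -/
theorem genZ_of_GP (x : κ → α → E) (hx : GP (fun q : κ × α => x q.1 q.2)) (p : E)
    (hp : ∀ T : Finset (κ × α), T.card ≤ Module.finrank ℝ E →
      p ∉ affineSpan ℝ ((fun q : κ × α => x q.1 q.2) '' (T : Set (κ × α)))) :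
    GenZ (fun i a => x i a - p) := by
  classical
  intro w hw hsum
  have h1 : ∑ q : κ × α, w q • x q.1 q.2 = (∑ q, w q) • p := by
    rw [Finset.sum_smul, ← sub_eq_zero, ← Finset.sum_sub_distrib, ← hsum]
    refine Finset.sum_congr rfl fun q _ => ?_
    rw [smul_sub]
  by_cases hW : ∑ q, w q = 0
  · refine hx w ?_ hW ?_
    · exact le_trans (le_of_eq (by congr 1)) (hw.trans (Nat.le_succ _))
    · rw [h1, hW, zero_smul]
  · exfalso
    refine hp (univ.filter fun q => w q ≠ 0) hw ?_
    have h2 := mem_span_of_comb (fun q : κ × α => x q.1 q.2) (univ.filter fun q => w q ≠ 0)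
      (fun q => w q / ∑ q, w q) ?_ ?_
    · have h3 : ∑ q : κ × α, (w q / ∑ q, w q) • x q.1 q.2 = p := by
        have : ∑ q : κ × α, (w q / ∑ q, w q) • x q.1 q.2 =
            (∑ q, w q)⁻¹ • ∑ q : κ × α, w q • x q.1 q.2 := by
          rw [Finset.smul_sum]
          refine Finset.sum_congr rfl fun q _ => ?_
          rw [smul_smul]
          congr 1
          rw [div_eq_inv_mul]
        rw [this, h1, smul_smul, inv_mul_cancel₀ hW, one_smul]
      rw [h3] at h2
      exact h2
    · intro q hq
      have : w q = 0 := by
        by_contra h
        exact hq (mem_filter.2 ⟨mem_univ _, h⟩)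
      rw [this, zero_div]
    · rw [← Finset.sum_div, div_self hW]

/-- a point lies in few lower dimensional colourful faces -/
theorem cov_low (x : κ → α → E) (hx : GP (fun q : κ × α => x q.1 q.2)) (p : E) (J : Finset κ)
    (hJ : J.card ≤ Module.finrank ℝ E) :
    cov (ι := fun _ : κ => α) x J p ≤
      2 ^ (Fintype.card κ) * (Fintype.card α) ^ (Fintype.card κ - 1) := by
  classical
  let P : Finset κ → (κ → α) → Prop := fun J' s => ∃ a : κ → ℝ, (∀ j ∈ J', 0 < a j) ∧
    (∀ j, j ∉ J' → a j = 0) ∧ ∑ j, a j = 1 ∧ ∑ j, a j • x j (s j) = p
  have h1 : (univ.filter fun s : κ → α =>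
      p ∈ convexHull ℝ ((fun j => x j (s j)) '' (J : Set κ))) ⊆
      J.powerset.biUnion fun J' => univ.filter fun s => P J' s := by
    intro s hs
    rw [mem_filter, mem_hull_image] at hs
    obtain ⟨a, ha0, haJ, ha1, hap⟩ := hs.2
    rw [mem_biUnion]
    refine ⟨univ.filter fun j => a j ≠ 0, ?_, ?_⟩
    · rw [mem_powerset]
      intro j hj
      by_contra hjJ
      exact (mem_filter.1 hj).2 (haJ j (by simpa using hjJ))
    · rw [mem_filter]
      refine ⟨mem_univ _, a, ?_, ?_, ha1, hap⟩
      · intro j hj
        exact lt_of_le_of_ne (ha0 j) (Ne.symm (mem_filter.1 hj).2)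
      · intro j hj
        by_contra h
        exact hj (mem_filter.2 ⟨mem_univ _, h⟩)
  have h2 : ∀ J' ∈ J.powerset, (univ.filter fun s => P J' s).card ≤
      (Fintype.card α) ^ (Fintype.card κ - 1) := by
    intro J' hJ'
    rw [mem_powerset] at hJ'
    rcases J'.eq_empty_or_nonempty with he | ⟨j0, hj0⟩
    · subst he
      have : (univ.filter fun s => P ∅ s) = ∅ := by
        rw [Finset.filter_eq_empty_iff]
        rintro s _ ⟨a, _, h2, h3, _⟩
        rw [Finset.sum_eq_zero (fun j _ => h2 j (by simp))] at h3
        exact zero_ne_one h3
      rw [this]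
      simp
    · have h3 : (univ.filter fun s => P J' s).card ≤
          Fintype.card ({j : κ // j ≠ j0} → α) := by
        rw [← card_univ]
        refine Finset.card_le_card_of_injOn (fun s j => s j) (fun _ _ => mem_univ _) ?_
        intro s hs s' hs' hss
        have hagree : ∀ j, j ≠ j0 → s j = s' j := fun j hj => congrFun hss ⟨j, hj⟩
        by_contra hne
        have hne0 : s j0 ≠ s' j0 := by
          intro h
          apply hne
          funext j
          by_cases hj : j = j0
          · rw [hj, h]
          · exact hagree j hj
        obtain ⟨a, ha0, haJ, ha1, hap⟩ := (mem_filter.1 (Finset.mem_coe.1 hs)).2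
        obtain ⟨b, hb0, hbJ, hb1, hbp⟩ := (mem_filter.1 (Finset.mem_coe.1 hs')).2
        let w : κ × α → ℝ := fun q => (if q.2 = s q.1 then a q.1 else 0) -
          (if q.2 = s' q.1 then b q.1 else 0)
        have hw0 : w = 0 := by
          refine hx w ?_ ?_ ?_
          · have hsub : (univ.filter fun q => w q ≠ 0) ⊆
                (J'.image fun j => (j, s j)) ∪ {(j0, s' j0)} := by
              rintro ⟨j, b'⟩ hq
              rw [mem_filter] at hq
              have hq2 := hq.2
              rw [mem_union, mem_image, mem_singleton]
              by_contra hcon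
              push Not at hcon
              obtain ⟨hc1, hc2⟩ := hcon
              apply hq2
              show (if b' = s j then a j else 0) - (if b' = s' j then b j else 0) = 0
              have e1 : (if b' = s j then a j else 0) = 0 := by
                split_ifs with h
                · by_cases hj : j ∈ J'
                  · exact absurd (by rw [h]) (hc1 j hj)
                  · exact haJ j hj
                · rfl
              have e2 : (if b' = s' j then b j else 0) = 0 := by
                split_ifs with h
                · by_cases hj : j ∈ J'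
                  · by_cases hjj : j = j0
                    · subst hjj
                      exact absurd (by rw [h]) hc2
                    · exact absurd (by rw [h, hagree j hjj]) (hc1 j hj)
                  · exact hbJ j hj
                · rfl
              rw [e1, e2, sub_zero]
            have hJ'c : J'.card ≤ Module.finrank ℝ E := (card_le_card hJ').trans hJ
            have h5 := card_image_le (s := J') (f := fun j => (j, s j))
            have h6 := card_union_le (J'.image fun j => (j, s j)) {(j0, s' j0)}
            rw [card_singleton] at h6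
            refine le_trans ?_ (h6.trans (by omega))
            exact le_trans (le_of_eq (by congr 1)) (card_le_card hsub)
          · simp only [w, Finset.sum_sub_distrib]
            rw [Fintype.sum_prod_type, Fintype.sum_prod_type]
            simp only [Finset.sum_ite_eq', mem_univ, if_true]
            rw [ha1, hb1, sub_self]
          · simp only [w, sub_smul, Finset.sum_sub_distrib]
            rw [Fintype.sum_prod_type, Fintype.sum_prod_type]
            simp only [ite_smul, zero_smul, Finset.sum_ite_eq', mem_univ, if_true]
            rw [hap, hbp, sub_self]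
        have h4 : w (j0, s j0) = a j0 := by
          show (if s j0 = s j0 then a j0 else 0) - (if s j0 = s' j0 then b j0 else 0) = a j0
          rw [if_pos rfl, if_neg hne0, sub_zero]
        rw [hw0] at h4
        exact (ha0 j0 hj0).ne h4
      refine h3.trans (le_of_eq ?_)
      rw [Fintype.card_fun]
      congr 1
      rw [Fintype.card_subtype_compl, Fintype.card_subtype_eq]
  calc cov (ι := fun _ : κ => α) x J p ≤ (J.powerset.biUnion fun J' =>
        univ.filter fun s => P J' s).card := by
        refine le_trans (le_of_eq ?_) (card_le_card h1)
        unfold cov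
        congr 1
    _ ≤ ∑ J' ∈ J.powerset, (univ.filter fun s => P J' s).card := card_biUnion_le
    _ ≤ ∑ J' ∈ J.powerset, (Fintype.card α) ^ (Fintype.card κ - 1) := Finset.sum_le_sum h2
    _ = 2 ^ J.card * (Fintype.card α) ^ (Fintype.card κ - 1) := by
        rw [Finset.sum_const, card_powerset, smul_eq_mul]
    _ ≤ _ := Nat.mul_le_mul_right _ (Nat.pow_le_pow_right (by norm_num) (card_le_univ _))

end

end Pool.Agent.J6H98.Sel
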