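import Pool.Agent.J6H98.Sel.Parity
import Pool.Agent.J6H98.Sel.Cofill
import Pool.Agent.Helper325.BorsukUlam

set_option autoImplicit false
set_option linter.unusedSectionVars false

/-!
# Intersection numbers modulo two
-/

namespace Pool.Agent.J6H98.Sel

open Finset
open Finsupp (single)
open Pool.Agent.Helper325.BorsukUlam (Chain cone bdL bd sub bary)

section Hull

variable {E : Type*} [AddCommGroup E] [Module ℝ E]

theorem mem_hull_image {ι : Type*} [Fintype ι] (u : ι → E) (S : Set ι) (y : E) :
    y ∈ convexHull ℝ (u '' S) ↔ ∃ a : ι → ℝ, (∀ i, 0 ≤ a i) ∧ (∀ i, i ∉ S → a i = 0) ∧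
      ∑ i, a i = 1 ∧ ∑ i, a i • u i = y := by
  classical
  constructor
  · intro hy
    have hconv : Convex ℝ {y : E | ∃ a : ι → ℝ, (∀ i, 0 ≤ a i) ∧ (∀ i, i ∉ S → a i = 0) ∧
      ∑ i, a i = 1 ∧ ∑ i, a i • u i = y} := by
      rintro y1 ⟨a, ha0, haS, ha1, hay⟩ y2 ⟨b, hb0, hbS, hb1, hby⟩ p q hp hq hpq
      refine ⟨fun i => p * a i + q * b i, fun i => ?_, fun i hi => ?_, ?_, ?_⟩
      · have := ha0 i; have := hb0 i; positivity
      · simp only []
        rw [haS i hi, hbS i hi]; ring
      · rw [sum_add_distrib, ← mul_sum, ← mul_sum, ha1, hb1]; linarith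
      · rw [← hay, ← hby, smul_sum, smul_sum, ← sum_add_distrib]
        refine sum_congr rfl fun i _ => ?_
        rw [add_smul, mul_smul, mul_smul]
    refine convexHull_min ?_ hconv hy
    rintro _ ⟨i, hi, rfl⟩
    refine ⟨fun j => if j = i then 1 else 0, fun j => ?_, ?_, ?_, ?_⟩
    · show (0 : ℝ) ≤ if j = i then 1 else 0
      split_ifs <;> norm_num
    · intro j hj
      have : j ≠ i := fun e => hj (e ▸ hi)
      simp [this]
    · simp
    · simp
  · rintro ⟨a, ha0, haS, ha1, rfl⟩
    have h1 : ∑ i ∈ univ.filter (fun i => i ∈ S), a i = 1 := by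
      rw [← ha1]
      refine Finset.sum_subset (filter_subset _ _) fun i _ hi => haS i ?_
      simpa using hi
    have h2 : ∑ i ∈ univ.filter (fun i => i ∈ S), a i • u i = ∑ i, a i • u i := by
      refine Finset.sum_subset (filter_subset _ _) fun i _ hi => ?_
      rw [haS i (by simpa using hi), zero_smul]
    rw [← h2]
    refine (convex_convexHull ℝ _).sum_mem (fun i _ => ha0 i) h1 fun i hi => ?_
    exact subset_convexHull ℝ _ ⟨i, (mem_filter.1 hi).2, rfl⟩

theorem bdL_ofFn {V : Type*} (m : ℕ) (u : Fin (m + 1) → V) :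
    bdL (List.ofFn u) = ∑ p : Fin (m + 1), single (List.ofFn (u ∘ p.succAbove)) (1 : ZMod 2) := by
  induction m with
  | zero =>
    rw [List.ofFn_succ, bdL]
    simp [bdL]
  | succ m ih =>
    rw [List.ofFn_succ, bdL, ih, map_sum, Fin.sum_univ_succ (n := m + 1)]
    congr 1
    refine sum_congr rfl fun p _ => ?_
    rw [Pool.Agent.Helper325.BorsukUlam.cone_single, List.ofFn_succ]
    congr 2
    congr 1
    funext i
    simp

variable {κ : Type*} [Fintype κ] [DecidableEq κ] {ι : κ → Type*}

open Classical in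
/-- the intersection number modulo two of the simplex with the vertices `l` and the simplex with
the vertices `x j (s j)`, `j ∈ J` (equal to `0` if the dimensions are not complementary) -/
noncomputable def hitF (x : (i : κ) → ι i → E) (l : List E) : Coch ι := fun J s =>
  if l.length + J.card = Fintype.card κ + 1 ∧ (convexHull ℝ {a | a ∈ l} ∩
    convexHull ℝ ((fun j => x j (s j)) '' (J : Set κ))).Nonempty then 1 else 0

theorem hitF_loc (x : (i : κ) → ι i → E) (l : List E) : Loc (hitF x l) := by
  intro J s s' h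
  have : (fun j => x j (s j)) '' (J : Set κ) = (fun j => x j (s' j)) '' (J : Set κ) := by
    refine Set.image_congr fun j hj => ?_
    rw [h j hj]
  unfold hitF
  rw [this]

/-- linear extension -/
noncomputable def hitC (x : (i : κ) → ι i → E) : Chain E →ₗ[ZMod 2] Coch ι :=
  Finsupp.linearCombination (ZMod 2) (hitF x)

theorem hitC_single (x : (i : κ) → ι i → E) (l : List E) : hitC x (single l 1) = hitF x l := by
  simp [hitC]

/-- general position of the points of `l` with respect to `x` -/
def GenL (x : (i : κ) → ι i → E) (l : List E) : Prop :=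
  ∀ (T : Finset E) (J : Finset κ) (s : (i : κ) → ι i), (∀ a ∈ T, a ∈ l) →
    T.card + J.card ≤ Fintype.card κ →
    Disjoint (convexHull ℝ (T : Set E)) (convexHull ℝ ((fun j => x j (s j)) '' (J : Set κ)))

variable [FiniteDimensional ℝ E]

/-- the linear system -/
noncomputable def sys {m : ℕ} {K : Type*} [Fintype K] (u : Fin m → E) (w : K → E) :
    ((Fin m ⊕ K) → ℝ) →ₗ[ℝ] (E × ℝ × ℝ) where
  toFun z := (∑ p, z (Sum.inl p) • u p - ∑ j, z (Sum.inr j) • w j, ∑ p, z (Sum.inl p),
    ∑ j, z (Sum.inr j))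
  map_add' z z' := by
    simp only [Pi.add_apply, add_smul, sum_add_distrib, Prod.mk_add_mk, Prod.mk.injEq]
    refine ⟨by abel, trivial⟩
  map_smul' c z := by
    simp only [Pi.smul_apply, smul_eq_mul, mul_smul, RingHom.id_apply, Prod.smul_mk, smul_sub,
      Finset.smul_sum, Finset.mul_sum]

theorem sys_eq {m : ℕ} {K : Type*} [Fintype K] (u : Fin m → E) (w : K → E)
    (z : (Fin m ⊕ K) → ℝ) : sys u w z = (0, 1, 1) ↔
      ∑ p, z (Sum.inl p) • u p = ∑ j, z (Sum.inr j) • w j ∧ ∑ p, z (Sum.inl p) = 1 ∧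
        ∑ j, z (Sum.inr j) = 1 := by
  simp only [sys, LinearMap.coe_mk, AddHom.coe_mk, Prod.mk.injEq, sub_eq_zero]

theorem sys_meet {m : ℕ} {K : Type*} [Fintype K] (u : Fin m → E) (w : K → E)
    (S : Set (Fin m)) (S' : Set K) :
    (convexHull ℝ (u '' S) ∩ convexHull ℝ (w '' S')).Nonempty ↔
      ∃ z : (Fin m ⊕ K) → ℝ, (∀ i, 0 ≤ z i) ∧ sys u w z = (0, 1, 1) ∧
        (∀ p, p ∉ S → z (Sum.inl p) = 0) ∧ ∀ j, j ∉ S' → z (Sum.inr j) = 0 := by
  constructor
  · rintro ⟨y, hy1, hy2⟩
    obtain ⟨a, ha0, haS, ha1, hay⟩ := (mem_hull_image u S y).1 hy1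
    obtain ⟨b, hb0, hbS, hb1, hby⟩ := (mem_hull_image w S' y).1 hy2
    refine ⟨Sum.elim a b, ?_, ?_, ?_, ?_⟩
    · rintro (i | i)
      · exact ha0 i
      · exact hb0 i
    · rw [sys_eq]
      simp only [Sum.elim_inl, Sum.elim_inr]
      exact ⟨hay.trans hby.symm, ha1, hb1⟩
    · intro p hp; exact haS p hp
    · intro j hj; exact hbS j hj
  · rintro ⟨z, hz, hsys, h1, h2⟩
    rw [sys_eq] at hsys
    refine ⟨∑ p, z (Sum.inl p) • u p, ?_, ?_⟩
    · exact (mem_hull_image u S _).2 ⟨fun p => z (Sum.inl p), fun p => hz _, h1, hsys.2.1, rfl⟩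
    · exact (mem_hull_image w S' _).2 ⟨fun p => z (Sum.inr p), fun p => hz _, h2, hsys.2.2,
        hsys.1.symm⟩

theorem hit_parity (hκ : Fintype.card κ = Module.finrank ℝ E + 1) (x : (i : κ) → ι i → E)
    (l : List E) (hg : GenL x l) : hitC x (bdL l) = del (hitF x l) := by
  classical
  rcases Nat.eq_zero_or_pos l.length with h0 | hpos
  · have : l = [] := List.length_eq_zero_iff.1 h0
    subst this
    funext J s
    have h1 : hitC x (bdL ([] : List E)) = 0 := by simp [bdL]
    rw [h1]
    simp only [Pi.zero_apply, del, hitF]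
    symm
    refine Finset.sum_eq_zero fun j _ => ?_
    rw [if_neg]
    rintro ⟨_, h2⟩
    simp at h2
  obtain ⟨m, hm⟩ : ∃ m, l.length = m + 1 := ⟨l.length - 1, by omega⟩
  obtain ⟨u, rfl⟩ : ∃ u : Fin (m + 1) → E, l = List.ofFn u := by
    refine ⟨fun i => l.get (Fin.cast hm.symm i), ?_⟩
    refine List.ext_get (by rw [List.length_ofFn, hm]) ?_
    intro k h1 h2
    rw [List.get_ofFn]
    rfl
  rw [bdL_ofFn, map_sum]
  simp only [hitC_single]
  funext J s
  rw [Finset.sum_apply, Finset.sum_apply]
  simp only [del]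
  set w : κ → E := fun j => x j (s j) with hw
  by_cases hc : m + 1 + J.card = Fintype.card κ + 2
  swap
  · rw [Finset.sum_eq_zero, Finset.sum_eq_zero]
    · intro j hj
      simp only [hitF]
      rw [if_neg]
      rintro ⟨h1, _⟩
      rw [List.length_ofFn, card_erase_of_mem hj] at h1
      have := card_pos.2 ⟨j, hj⟩
      omega
    · intro p _
      simp only [hitF]
      rw [if_neg]
      rintro ⟨h1, _⟩
      rw [List.length_ofFn] at h1
      omega
  -- the sum of the two sides is the number of elements of `S`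
  set w' : J → E := fun j => w j with hw'
  have hS := parity (sys u w') ((0, 1, 1) : E × ℝ × ℝ) (by
      rw [Fintype.card_sum, Fintype.card_fin, Fintype.card_coe]
      simp only [Module.finrank_prod, Module.finrank_self]
      omega) (by
      intro z hz hLz
      simp only [sys, LinearMap.coe_mk, AddHom.coe_mk] at hLz
      have e1 : ∑ p, z (Sum.inl p) = 0 := (congrArg (fun q : E × ℝ × ℝ => q.2.1) hLz)
      have e2 : ∑ j, z (Sum.inr j) = 0 := (congrArg (fun q : E × ℝ × ℝ => q.2.2) hLz)
      rw [Finset.sum_eq_zero_iff_of_nonneg (fun i _ => hz _)] at e1 e2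
      funext i
      rcases i with i | i
      · exact e1 i (mem_univ _)
      · exact e2 i (mem_univ _)) (by
      intro z hz hLz i j hij hzi hzj
      set A : Finset (Fin (m + 1)) := univ.filter fun p => z (Sum.inl p) ≠ 0 with hA
      set B : Finset J := univ.filter fun j => z (Sum.inr j) ≠ 0 with hB
      have hcardAB : A.card + B.card ≤ Fintype.card κ := by
        have h1 : (univ.filter fun k : Fin (m + 1) ⊕ J => z k ≠ 0).card = A.card + B.card := by
          rw [hA, hB, card_filter, card_filter, card_filter, Fintype.sum_sum_type]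
        have h2 : (univ.filter fun k : Fin (m + 1) ⊕ J => z k ≠ 0) ⊆ (univ.erase i).erase j := by
          intro k hk
          rw [mem_filter] at hk
          rw [mem_erase, mem_erase]
          refine ⟨?_, ?_, mem_univ _⟩
          · rintro rfl; exact hk.2 hzj
          · rintro rfl; exact hk.2 hzi
        have h3 := card_le_card h2
        rw [card_erase_of_mem (mem_erase.2 ⟨hij.symm, mem_univ _⟩),
          card_erase_of_mem (mem_univ _), card_univ, Fintype.card_sum, Fintype.card_fin,
          Fintype.card_coe, h1] at h3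
        omega
      have hdis := hg (A.image u) (B.image (Subtype.val : J → κ)) s (by
          intro a ha
          obtain ⟨p, _, rfl⟩ := Finset.mem_image.1 ha
          exact List.mem_ofFn.2 ⟨p, rfl⟩)
        (le_trans (add_le_add card_image_le card_image_le) hcardAB)
      have hne : (convexHull ℝ (u '' (A : Set (Fin (m + 1)))) ∩
          convexHull ℝ (w' '' (B : Set J))).Nonempty := by
        rw [sys_meet]
        refine ⟨z, hz, hLz, ?_, ?_⟩
        · intro p hp; simpa [hA] using hp
        · intro p hp; simpa [hB] using hp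
      obtain ⟨y, hy1, hy2⟩ := hne
      have hy1' : y ∈ convexHull ℝ ((A.image u : Finset E) : Set E) := by
        rw [coe_image]; exact hy1
      have hy2' : y ∈ convexHull ℝ ((fun j => x j (s j)) ''
          ((B.image (Subtype.val : J → κ) : Finset κ) : Set κ)) := by
        rw [coe_image, Set.image_image]
        exact hy2
      exact (Set.disjoint_left.1 hdis) hy1' hy2')
    (univ.filter fun k => ∃ z : (Fin (m + 1) ⊕ J) → ℝ, (∀ i, 0 ≤ z i) ∧
      sys u w' z = (0, 1, 1) ∧ z k = 0) (by intro i; simp)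
  have h1 : ∀ p : Fin (m + 1), hitF x (List.ofFn (u ∘ p.succAbove)) J s =
      if (∃ z : (Fin (m + 1) ⊕ J) → ℝ, (∀ i, 0 ≤ z i) ∧
      sys u w' z = (0, 1, 1) ∧ z (Sum.inl p) = 0) then 1 else 0 := by
    intro p
    simp only [hitF]
    refine if_congr ?_ rfl rfl
    have e1 : {a | a ∈ List.ofFn (u ∘ p.succAbove)} = u '' {p}ᶜ := by
      rw [← Fin.range_succAbove p, ← Set.range_comp]
      ext a
      simp [List.mem_ofFn]
    have e2 : (fun j => x j (s j)) '' (J : Set κ) = w' '' Set.univ := by
      ext a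
      simp [hw', hw]
    rw [e1, e2, sys_meet]
    constructor
    · rintro ⟨_, z, hz, hL, h3, _⟩
      exact ⟨z, hz, hL, h3 p (by simp)⟩
    · rintro ⟨z, hz, hL, h3⟩
      refine ⟨by rw [List.length_ofFn]; omega, z, hz, hL, ?_, ?_⟩
      · intro q hq
        have : q = p := by simpa using hq
        rw [this]; exact h3
      · intro j hj
        exact absurd (Set.mem_univ _) hj
  have h2 : ∀ j : J, hitF x (List.ofFn u) (J.erase j) s =
      if (∃ z : (Fin (m + 1) ⊕ J) → ℝ, (∀ i, 0 ≤ z i) ∧
      sys u w' z = (0, 1, 1) ∧ z (Sum.inr j) = 0) then 1 else 0 := by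
    intro j
    simp only [hitF]
    refine if_congr ?_ rfl rfl
    have e1 : {a | a ∈ List.ofFn u} = u '' Set.univ := by
      rw [Set.image_univ]
      ext a
      exact List.mem_ofFn
    have e2 : (fun j => x j (s j)) '' ((J.erase j : Finset κ) : Set κ) = w' '' {j}ᶜ := by
      ext a
      constructor
      · rintro ⟨k, hk, rfl⟩
        rw [mem_coe, mem_erase] at hk
        refine ⟨⟨k, hk.2⟩, ?_, rfl⟩
        simp only [Set.mem_compl_iff, Set.mem_singleton_iff]
        intro e
        exact hk.1 (congrArg Subtype.val e)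
      · rintro ⟨k, hk, rfl⟩
        refine ⟨k, ?_, rfl⟩
        rw [mem_coe, mem_erase]
        refine ⟨?_, k.2⟩
        intro e
        exact hk (Subtype.ext e)
    rw [e1, e2, sys_meet]
    have hj := card_erase_of_mem j.2
    have hjp := card_pos.2 ⟨j.1, j.2⟩
    constructor
    · rintro ⟨_, z, hz, hL, _, h3⟩
      exact ⟨z, hz, hL, h3 j (by simp)⟩
    · rintro ⟨z, hz, hL, h3⟩
      refine ⟨by rw [List.length_ofFn, hj]; omega, z, hz, hL, ?_, ?_⟩
      · intro q hq
        exact absurd (Set.mem_univ _) hq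
      · intro q hq
        have : q = j := by simpa using hq
        rw [this]; exact h3
  have h3 : ∑ j ∈ J, hitF x (List.ofFn u) (J.erase j) s =
      ∑ j : J, hitF x (List.ofFn u) (J.erase j) s :=
    (Finset.sum_coe_sort J fun j => hitF x (List.ofFn u) (J.erase j) s).symm
  rw [h3, Finset.sum_congr rfl fun p _ => h1 p, Finset.sum_congr rfl fun j _ => h2 j]
  have h4 : (((univ.filter fun k => ∃ z : (Fin (m + 1) ⊕ J) → ℝ, (∀ i, 0 ≤ z i) ∧
      sys u w' z = (0, 1, 1) ∧ z k = 0).card : ℕ) : ZMod 2) = 0 :=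
    (ZMod.natCast_eq_zero_iff_even).2 hS
  rw [card_filter, Nat.cast_sum, Fintype.sum_sum_type] at h4
  simp only [Nat.cast_ite, Nat.cast_one, Nat.cast_zero] at h4
  exact CharTwo.add_eq_zero.1 h4

end Hull

end Pool.Agent.J6H98.Sel
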