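import Pool.Agent.J6H98.Sel.Same

set_option autoImplicit false
set_option linter.unusedSectionVars false

/-!
# Homogeneous boxes for the relation `0 ∈ conv`, part 2
-/

namespace Pool.Agent.J6H98.Sel

open Finset

section

variable {E : Type*} [NormedAddCommGroup E] [NormedSpace ℝ E] [FiniteDimensional ℝ E]
variable {κ : Type*} [Fintype κ] [DecidableEq κ] {α : Type*} [Fintype α] [DecidableEq α]

theorem half_spaces (hκ : Fintype.card κ = Module.finrank ℝ E + 1) (hd : 1 ≤ Module.finrank ℝ E)
    (z : κ → α → E) (hz : GenZ z) (Y : κ → Finset α) (θ : ℝ)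
    (hθ : θ = 1 / (8 * Module.finrank ℝ E))
    (hY : ∀ i, 4 * (Module.finrank ℝ E : ℝ) ≤ θ ^ (Fintype.card κ) * (Y i).card) :
    ∃ (Z : κ → Finset α) (u : κ → E →ₗ[ℝ] ℝ), (∀ i, Z i ⊆ Y i) ∧
      (∀ i, θ ^ (Fintype.card κ) * (Y i).card ≤ (Z i).card) ∧
      ∀ k j, j ≠ k → ∀ a ∈ Z j, 0 < u k (z j a) := by
  classical
  have hd0 : (1 : ℝ) ≤ Module.finrank ℝ E := by exact_mod_cast hd
  have hθ0 : 0 < θ := by rw [hθ]; positivity
  have hθ1 : θ ≤ 1 := by
    rw [hθ, div_le_one (by positivity)]
    linarith
  have key : ∀ S : Finset κ, ∃ (Z : κ → Finset α) (u : κ → E →ₗ[ℝ] ℝ), (∀ i, Z i ⊆ Y i) ∧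
      (∀ i, θ ^ S.card * (Y i).card ≤ (Z i).card) ∧
      ∀ k ∈ S, ∀ j, j ≠ k → ∀ a ∈ Z j, 0 < u k (z j a) := by
    intro S
    induction S using Finset.induction_on with
    | empty =>
      refine ⟨Y, fun _ => 0, fun i => Finset.Subset.refl _, ?_, ?_⟩
      · intro i; simp
      · intro k hk; simp at hk
    | insert k S hk ih =>
      obtain ⟨Z, u, h1, h2, h3⟩ := ih
      have h4 : ∀ i, 4 * (Module.finrank ℝ E : ℝ) ≤ (Z i).card := by
        intro i
        refine (hY i).trans (le_trans ?_ (h2 i))
        refine mul_le_mul_of_nonneg_right ?_ (Nat.cast_nonneg _)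
        exact pow_le_pow_of_le_one hθ0.le hθ1 (card_le_univ S)
      obtain ⟨Y', v, h5, h6, h7⟩ := half_space hκ hd z hz k Z θ hθ h4
      refine ⟨Y', Function.update u k v, fun i => (h5 i).trans (h1 i), ?_, ?_⟩
      · intro i
        rw [card_insert_of_notMem hk, pow_succ]
        calc θ ^ S.card * θ * (Y i).card = θ * (θ ^ S.card * (Y i).card) := by ring
          _ ≤ θ * (Z i).card := mul_le_mul_of_nonneg_left (h2 i) hθ0.le
          _ ≤ _ := h6 i
      · intro l hl j hj a ha
        by_cases hlk : l = k
        · subst hlk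
          rw [Function.update_self]
          exact h7 j hj a ha
        · rw [Function.update_of_ne hlk]
          exact h3 l ((mem_insert.1 hl).resolve_left hlk) j hj a (h5 j ha)
  obtain ⟨Z, u, h1, h2, h3⟩ := key univ
  exact ⟨Z, u, h1, by simpa [card_univ] using h2, fun k => h3 k (mem_univ k)⟩

/-- changing one vertex of a simplex around the origin -/
theorem one_change (hκ : Fintype.card κ = Module.finrank ℝ E + 1)
    (v : κ → E) (i : κ) (v' : E) (u : κ → E →ₗ[ℝ] ℝ)
    (hli : LinearIndependent ℝ (fun j : {j : κ // j ≠ i} => v j))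
    (hu : ∀ k j, j ≠ k → 0 < u k (v j)) (hu' : ∀ k, k ≠ i → 0 < u k v')
    (h0 : (0 : E) ∈ convexHull ℝ (Set.range v)) :
    (0 : E) ∈ convexHull ℝ (Set.range (Function.update v i v')) := by
  classical
  rw [← Set.image_univ, mem_hull_image] at h0
  obtain ⟨a, ha0, _, ha1, hav⟩ := h0
  have hapos : ∀ k, 0 < a k := by
    intro k
    by_contra hk
    have hak : a k = 0 := le_antisymm (not_lt.1 hk) (ha0 k)
    have h1 : ∑ j, a j * u k (v j) = 0 := by
      have := congrArg (u k) hav
      rw [map_sum, map_zero] at this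
      simpa [map_smul] using this
    have h2 : ∀ j ∈ (univ : Finset κ), 0 ≤ a j * u k (v j) := by
      intro j _
      by_cases hj : j = k
      · rw [hj, hak, zero_mul]
      · exact mul_nonneg (ha0 j) (hu k j hj).le
    have h3 := (Finset.sum_eq_zero_iff_of_nonneg h2).1 h1
    have h4 : ∀ j, a j = 0 := by
      intro j
      by_cases hj : j = k
      · rw [hj, hak]
      · rcases mul_eq_zero.1 (h3 j (mem_univ _)) with h | h
        · exact h
        · exact absurd h (hu k j hj).ne'
    rw [Finset.sum_eq_zero (fun j _ => h4 j)] at ha1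
    exact zero_ne_one ha1
  have hcard : Fintype.card {j : κ // j ≠ i} = Module.finrank ℝ E := by
    have : Fintype.card {j : κ // j ≠ i} = Fintype.card κ - 1 := by
      rw [Fintype.card_subtype_compl, Fintype.card_subtype_eq]
    omega
  -- coordinates of `v'`
  have hspan : v' ∈ Submodule.span ℝ (Set.range (fun j : {j : κ // j ≠ i} => v j)) := by
    rw [hli.span_eq_top_of_card_eq_finrank' hcard]
    exact Submodule.mem_top
  obtain ⟨c', hc'⟩ := (Submodule.mem_span_range_iff_exists_fun ℝ).1 hspan
  obtain ⟨c, hc⟩ : ∃ c : κ → ℝ, ∑ j ∈ univ.erase i, c j • v j = v' := by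
    refine ⟨fun j => if h : j ≠ i then c' ⟨j, h⟩ else 0, ?_⟩
    rw [← hc']
    rw [Finset.sum_subtype (univ.erase i) (p := fun j => j ≠ i) (by simp)
      (fun j => (fun j => if h : j ≠ i then c' ⟨j, h⟩ else 0) j • v j)]
    refine Finset.sum_congr rfl fun j _ => ?_
    show (if h : (j : κ) ≠ i then c' ⟨j, h⟩ else 0) • v j = c' j • v j
    rw [dif_pos j.2]
  have hvi : a i • v i = - ∑ j ∈ univ.erase i, a j • v j := by
    rw [← Finset.add_sum_erase _ _ (mem_univ i)] at hav
    exact eq_neg_of_add_eq_zero_left hav
  have hcneg : ∀ k, k ≠ i → c k ≤ 0 := by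
    by_contra hcon
    push Not at hcon
    obtain ⟨k, hki, hck⟩ := hcon
    obtain ⟨m, hm, hmax⟩ := Finset.exists_max_image (univ.erase i) (fun j => c j / a j)
      ⟨k, mem_erase.2 ⟨hki, mem_univ _⟩⟩
    have hmi : m ≠ i := ne_of_mem_erase hm
    set r := c m / a m with hr
    have hrpos : 0 < r :=
      lt_of_lt_of_le (div_pos hck (hapos k)) (hmax k (mem_erase.2 ⟨hki, mem_univ _⟩))
    have h1 : (r * a i) • v i + v' = ∑ j ∈ univ.erase i, (c j - r * a j) • v j := by
      rw [mul_smul, hvi, ← hc]
      simp only [sub_smul, Finset.sum_sub_distrib, mul_smul, ← Finset.smul_sum]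
      rw [smul_neg]
      abel
    have h2 := congrArg (u m) h1
    rw [map_add, map_smul, map_sum] at h2
    have h3 : 0 < (r * a i) • u m (v i) + u m v' := by
      have h4 := hu m i (Ne.symm hmi)
      have h5 := hu' m hmi
      have h6 : 0 < (r * a i) * u m (v i) := mul_pos (mul_pos hrpos (hapos i)) h4
      rw [smul_eq_mul]
      linarith
    have h4 : ∑ j ∈ univ.erase i, u m ((c j - r * a j) • v j) ≤ 0 := by
      refine Finset.sum_nonpos fun j hj => ?_
      rw [map_smul, smul_eq_mul]
      by_cases hjm : j = m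
      · have : c j - r * a j = 0 := by
          rw [hjm, hr, div_mul_cancel₀ _ (hapos m).ne', sub_self]
        rw [this, zero_mul]
      · refine mul_nonpos_of_nonpos_of_nonneg ?_ (hu m j hjm).le
        have := hmax j hj
        rw [div_le_iff₀ (hapos j)] at this
        linarith
    linarith
  rw [← Set.image_univ, mem_hull_image]
  set T : ℝ := 1 + ∑ j ∈ univ.erase i, - c j with hT
  have hT1 : 0 < T := by
    have : 0 ≤ ∑ j ∈ univ.erase i, - c j :=
      Finset.sum_nonneg fun j hj => by linarith [hcneg j (ne_of_mem_erase hj)]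
    linarith
  refine ⟨fun j => if j = i then 1 / T else - c j / T, ?_, ?_, ?_, ?_⟩
  · intro j
    simp only
    split_ifs with h
    · positivity
    · exact div_nonneg (by linarith [hcneg j h]) hT1.le
  · intro j hj
    exact absurd (Set.mem_univ _) hj
  · rw [← Finset.add_sum_erase _ _ (mem_univ i), if_pos rfl]
    have : ∑ j ∈ univ.erase i, (if j = i then 1 / T else - c j / T) =
        (∑ j ∈ univ.erase i, - c j) / T := by
      rw [Finset.sum_div]
      refine Finset.sum_congr rfl fun j hj => ?_
      rw [if_neg (ne_of_mem_erase hj)]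
    rw [this, ← add_div, ← hT, div_self hT1.ne']
  · rw [← Finset.add_sum_erase _ _ (mem_univ i)]
    simp only [if_true, Function.update_self]
    have : ∑ j ∈ univ.erase i, (if j = i then 1 / T else - c j / T) •
        Function.update v i v' j = - ((1 / T) • v') := by
      rw [← hc, Finset.smul_sum, ← Finset.sum_neg_distrib]
      refine Finset.sum_congr rfl fun j hj => ?_
      rw [if_neg (ne_of_mem_erase hj), Function.update_of_ne (ne_of_mem_erase hj), smul_smul,
        ← neg_smul]
      congr 1
      ring
    rw [this, add_neg_cancel]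

/-- all transversals behave in the same way -/
theorem all_change (hκ : Fintype.card κ = Module.finrank ℝ E + 1)
    (z : κ → α → E) (hz : GenZ z) (Z : κ → Finset α) (u : κ → E →ₗ[ℝ] ℝ)
    (hu : ∀ k j, j ≠ k → ∀ a ∈ Z j, 0 < u k (z j a)) (s : κ → α) (hs : ∀ i, s i ∈ Z i)
    (h0 : (0 : E) ∈ convexHull ℝ (Set.range fun i => z i (s i))) (s' : κ → α)
    (hs' : ∀ i, s' i ∈ Z i) :
    (0 : E) ∈ convexHull ℝ (Set.range fun i => z i (s' i)) := by
  classical
  have key : ∀ S : Finset κ, (0 : E) ∈ convexHull ℝ
      (Set.range fun i => z i (S.piecewise s' s i)) := by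
    intro S
    induction S using Finset.induction_on with
    | empty => simpa using h0
    | insert k S hk ih =>
      have hmem : ∀ i, S.piecewise s' s i ∈ Z i := by
        intro i
        by_cases h : i ∈ S
        · rw [piecewise_eq_of_mem _ _ _ h]; exact hs' i
        · rw [piecewise_eq_of_notMem _ _ _ h]; exact hs i
      have h1 := one_change hκ (fun i => z i (S.piecewise s' s i)) k (z k (s' k)) u ?_ ?_ ?_ ih
      · have h2 : Function.update (fun i => z i (S.piecewise s' s i)) k (z k (s' k)) =
            fun i => z i ((insert k S).piecewise s' s i) := by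
          funext i
          by_cases h : i = k
          · subst h
            rw [Function.update_self, piecewise_eq_of_mem _ _ _ (mem_insert_self _ _)]
          · rw [Function.update_of_ne h]
            congr 1
            rw [piecewise_insert, Function.update_of_ne h]
        rw [h2] at h1
        exact h1
      · refine hz.linInd (K := {j : κ // j ≠ k}) ?_
          (fun j => ((j : κ), S.piecewise s' s j)) ?_
        · have : Fintype.card {j : κ // j ≠ k} = Fintype.card κ - 1 := by
            rw [Fintype.card_subtype_compl, Fintype.card_subtype_eq]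
          omega
        · intro j j' h
          exact Subtype.ext (Prod.mk.inj h).1
      · intro l j hj
        exact hu l j hj _ (hmem j)
      · intro l hl
        exact hu l k (Ne.symm hl) _ (hs' k)
  have := key univ
  simpa using this

end

end Pool.Agent.J6H98.Sel
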