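import Mathlib

set_option autoImplicit false

/-!
# A parity lemma for polytopes of dimension one

Let `P` be the set of the nonnegative solutions of a linear system whose number of unknowns exceeds
the dimension of the target by one, and suppose that no point of `P` has two vanishing coordinates
and that `P` has no recession direction.  Then the number of coordinates which vanish somewhere on
`P` is even.
-/

namespace Pool.Agent.J6H98.Sel

open Finset

section Parity

variable {ι : Type*} [Fintype ι] {W : Type*} [AddCommGroup W] [Module ℝ W]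

/-- moving along a direction with a negative coordinate until a coordinate vanishes -/
lemma exists_hit (z w : ι → ℝ) (hz : ∀ i, 0 ≤ z i) (hw : ∃ i, w i < 0) :
    ∃ t : ℝ, 0 ≤ t ∧ (∀ i, 0 ≤ z i + t * w i) ∧ ∃ i, w i < 0 ∧ z i + t * w i = 0 := by
  classical
  obtain ⟨i0, hi0⟩ := hw
  obtain ⟨k, hk, hmin⟩ := Finset.exists_min_image (univ.filter fun i => w i < 0)
    (fun i => z i / (-(w i))) ⟨i0, by simp [hi0]⟩
  have hk' : w k < 0 := (mem_filter.1 hk).2
  have hk0 : w k ≠ 0 := hk'.ne
  refine ⟨z k / (-(w k)), div_nonneg (hz k) (by linarith), ?_, k, hk', ?_⟩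
  · intro i
    by_cases hi : w i < 0
    · have h1 := hmin i (by simp [hi])
      have h3 := mul_le_mul_of_nonneg_right h1 (show 0 ≤ -(w i) by linarith)
      have h4 : z i / (-(w i)) * (-(w i)) = z i := div_mul_cancel₀ _ (by linarith)
      rw [h4] at h3
      linarith
    · have h1 : 0 ≤ z k / (-(w k)) := div_nonneg (hz k) (by linarith)
      have := hz i
      have h2 := mul_nonneg h1 (not_lt.1 hi)
      linarith
  · field_simp
    ring

theorem parity [DecidableEq ι] [FiniteDimensional ℝ W] (L : (ι → ℝ) →ₗ[ℝ] W) (b : W)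
    (hcard : Fintype.card ι = Module.finrank ℝ W + 1)
    (hrec : ∀ w : ι → ℝ, (∀ i, 0 ≤ w i) → L w = 0 → w = 0)
    (h2 : ∀ z : ι → ℝ, (∀ i, 0 ≤ z i) → L z = b → ∀ i j, i ≠ j → z i = 0 → z j ≠ 0)
    (S : Finset ι) (hS : ∀ i, i ∈ S ↔ ∃ z : ι → ℝ, (∀ i, 0 ≤ z i) ∧ L z = b ∧ z i = 0) :
    Even S.card := by
  classical
  by_cases hP : ∃ z : ι → ℝ, (∀ i, 0 ≤ z i) ∧ L z = b
  swap
  · have : S = ∅ := by
      rw [Finset.eq_empty_iff_forall_notMem]
      intro i hi
      obtain ⟨z, hz, hz', _⟩ := (hS i).1 hi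
      exact hP ⟨z, hz, hz'⟩
    simp [this]
  obtain ⟨z0, hz0, hLz0⟩ := hP
  have hker : ∃ w : ι → ℝ, w ≠ 0 ∧ L w = 0 := by
    by_contra hcon
    push Not at hcon
    have hinj : Function.Injective L := by
      rw [← LinearMap.ker_eq_bot, LinearMap.ker_eq_bot']
      intro m hm
      by_contra hm0
      exact hcon m hm0 hm
    have := LinearMap.finrank_le_finrank_of_injective hinj
    rw [Module.finrank_fintype_fun_eq_card] at this
    omega
  obtain ⟨w, hw0, hLw⟩ := hker
  have hneg : ∀ u : ι → ℝ, u ≠ 0 → L u = 0 → ∃ i, u i < 0 := by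
    intro u hu hLu
    by_contra hcon
    push Not at hcon
    exact hu (hrec u hcon hLu)
  obtain ⟨t1, -, hp1, i1, hi1, hz1i⟩ := exists_hit z0 w hz0 (hneg w hw0 hLw)
  obtain ⟨t2, -, hp2, i2, hi2, hz2i⟩ := exists_hit z0 (-w) hz0
    (hneg (-w) (by simpa using hw0) (by rw [map_neg, hLw, neg_zero]))
  set z1 : ι → ℝ := z0 + t1 • w with hz1
  set z2 : ι → ℝ := z0 + t2 • (-w) with hz2
  have hz1n : ∀ i, 0 ≤ z1 i := fun i => by simpa [hz1] using hp1 i
  have hz2n : ∀ i, 0 ≤ z2 i := fun i => by simpa [hz2] using hp2 i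
  have hL1 : L z1 = b := by rw [hz1, map_add, map_smul, hLw, smul_zero, add_zero, hLz0]
  have hL2 : L z2 = b := by
    rw [hz2, map_add, map_smul, map_neg, hLw, neg_zero, smul_zero, add_zero, hLz0]
  have h1i : z1 i1 = 0 := by simpa [hz1] using hz1i
  have h2i : z2 i2 = 0 := by simpa [hz2] using hz2i
  have hwi2 : 0 < w i2 := by simpa using hi2
  have hwi1 : w i1 < 0 := hi1
  -- the kernel is one dimensional
  have hline : ∀ u : ι → ℝ, L u = 0 → ∃ c : ℝ, u = c • w := by
    intro u hu
    refine ⟨u i1 / w i1, ?_⟩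
    by_contra hne
    set w' : ι → ℝ := u - (u i1 / w i1) • w with hw'
    have hw'0 : w' ≠ 0 := fun h => hne (sub_eq_zero.1 h)
    have hLw' : L w' = 0 := by rw [hw', map_sub, map_smul, hu, hLw, smul_zero, sub_zero]
    have hw'i : w' i1 = 0 := by
      simp only [hw', Pi.sub_apply, Pi.smul_apply, smul_eq_mul]
      rw [div_mul_cancel₀ _ hwi1.ne, sub_self]
    obtain ⟨t, -, hp, j, hj, hzj⟩ := exists_hit z1 w' hz1n (hneg w' hw'0 hLw')
    have hji : j ≠ i1 := by
      rintro rfl
      rw [hw'i] at hj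
      exact lt_irrefl _ hj
    refine h2 (z1 + t • w') (fun i => by simpa using hp i) ?_ j i1 hji (by simpa using hzj) ?_
    · rw [map_add, map_smul, hLw', smul_zero, add_zero, hL1]
    · simp [h1i, hw'i]
  have hSeq : S = {i1, i2} := by
    ext i
    rw [Finset.mem_insert, Finset.mem_singleton, hS]
    constructor
    · rintro ⟨z, hz, hLz, hzi⟩
      by_contra hcon
      push Not at hcon
      obtain ⟨hne1, hne2⟩ := hcon
      obtain ⟨c, hc⟩ := hline (z - z1) (by rw [map_sub, hLz, hL1, sub_self])
      obtain ⟨c', hc'⟩ := hline (z - z2) (by rw [map_sub, hLz, hL2, sub_self])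
      have e1 : ∀ k, z k = z1 k + c * w k := fun k => by
        have := congrFun hc k
        simp only [Pi.sub_apply, Pi.smul_apply, smul_eq_mul] at this
        linarith
      have e2 : ∀ k, z k = z2 k + c' * w k := fun k => by
        have := congrFun hc' k
        simp only [Pi.sub_apply, Pi.smul_apply, smul_eq_mul] at this
        linarith
      have p1 : 0 < z1 i := lt_of_le_of_ne (hz1n i)
        (Ne.symm (h2 z1 hz1n hL1 i1 i (Ne.symm hne1) h1i))
      have p2 : 0 < z2 i := lt_of_le_of_ne (hz2n i)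
        (Ne.symm (h2 z2 hz2n hL2 i2 i (Ne.symm hne2) h2i))
      have q1 : c ≤ 0 := by
        have h3 := hz i1
        rw [e1 i1, h1i, zero_add] at h3
        by_contra hc0
        push Not at hc0
        nlinarith
      have q2 : 0 ≤ c' := by
        have h3 := hz i2
        rw [e2 i2, h2i, zero_add] at h3
        by_contra hc0
        push Not at hc0
        nlinarith
      have r1 := e1 i
      have r2 := e2 i
      rw [hzi] at r1 r2
      have s1 : c * w i < 0 := by linarith
      have s2 : c' * w i < 0 := by linarith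
      have u1 : 0 < w i := by
        by_contra h
        push Not at h
        nlinarith [mul_nonneg_of_nonpos_of_nonpos q1 h]
      nlinarith [mul_nonneg q2 u1.le]
    · rintro (rfl | rfl)
      · exact ⟨z1, hz1n, hL1, h1i⟩
      · exact ⟨z2, hz2n, hL2, h2i⟩
  have hne : i1 ≠ i2 := by
    rintro rfl
    exact lt_asymm hwi1 hwi2
  rw [hSeq, Finset.card_pair hne]
  exact even_two

end Parity

end Pool.Agent.J6H98.Sel
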