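import Pool.Agent.J6H98.Sel.Cofill
import Pool.Agent.J6H98.Sel.Parity
import Pool.Agent.J6H98.Sel.Hit

set_option autoImplicit false
set_option linter.unusedSectionVars false

/-!
# Homogeneous boxes for the relation `0 ∈ conv`
-/

namespace Pool.Agent.J6H98.Sel

open Finset

/-- few vertices of a tournament have small out-degree -/
theorem tournament {B : Type*} [Fintype B] [DecidableEq B] (g : B → B → ℝ)
    (h1 : ∀ a b, g b a = - g a b) (h2 : ∀ a b, a ≠ b → g a b ≠ 0) (t : ℝ) (ht : 0 ≤ t) :
    ((univ.filter fun a => ((univ.filter fun b => 0 < g a b).card : ℝ) < t).card : ℝ) ≤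
      2 * t + 1 := by
  classical
  set S : Finset B := univ.filter fun a => ((univ.filter fun b => 0 < g a b).card : ℝ) < t with hS
  rcases S.eq_empty_or_nonempty with h0 | hne
  · rw [h0]; simp; linarith
  set P : Finset (B × B) := (S ×ˢ S).filter fun q => 0 < g q.1 q.2 with hP
  have hPcard : (P.card : ℝ) ≤ t * S.card := by
    have h3 : P.card = ∑ a ∈ S, (S.filter fun b => 0 < g a b).card := by
      rw [hP, card_filter, Finset.sum_product]
      refine Finset.sum_congr rfl fun a _ => ?_
      rw [card_filter]
    rw [h3]
    push_cast
    calc ∑ a ∈ S, ((S.filter fun b => 0 < g a b).card : ℝ) ≤ ∑ a ∈ S, t := by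
          refine Finset.sum_le_sum fun a ha => ?_
          have h4 := (mem_filter.1 ha).2
          refine le_trans ?_ h4.le
          exact_mod_cast card_le_card (Finset.filter_subset_filter _ (subset_univ _))
      _ = t * S.card := by rw [Finset.sum_const, nsmul_eq_mul]; ring
  have hoff : S.offDiag = P ∪ P.image Prod.swap := by
    ext ⟨a, b⟩
    simp only [mem_offDiag, hP, mem_union, mem_filter, mem_product, mem_image, Prod.exists,
      Prod.swap_prod_mk, Prod.mk.injEq]
    constructor
    · rintro ⟨ha, hb, hab⟩
      rcases lt_or_gt_of_ne (h2 a b hab) with h | h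
      · right
        exact ⟨b, a, ⟨⟨hb, ha⟩, by rw [h1 a b]; linarith⟩, rfl, rfl⟩
      · left
        exact ⟨⟨ha, hb⟩, h⟩
    · have hself : ∀ a, g a a = 0 := fun a => by have := h1 a a; linarith
      rintro (⟨⟨ha, hb⟩, h⟩ | ⟨b', a', ⟨⟨hb, ha⟩, h⟩, rfl, rfl⟩)
      · refine ⟨ha, hb, ?_⟩
        rintro rfl
        rw [hself] at h
        exact lt_irrefl _ h
      · refine ⟨ha, hb, ?_⟩
        rintro rfl
        rw [hself] at h
        exact lt_irrefl _ h
  have hcard : S.card * S.card - S.card ≤ 2 * P.card := by
    rw [← offDiag_card, hoff]
    refine (card_union_le _ _).trans ?_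
    have := card_image_le (s := P) (f := Prod.swap)
    omega
  have hSpos : (0 : ℝ) < S.card := by exact_mod_cast card_pos.2 hne
  have h5 : (S.card : ℝ) * S.card ≤ 2 * P.card + S.card := by
    have : S.card * S.card ≤ 2 * P.card + S.card := by omega
    exact_mod_cast this
  have h6 : (S.card : ℝ) * S.card ≤ (2 * t + 1) * S.card := by nlinarith
  exact le_of_mul_le_mul_right h6 hSpos

section Same

variable {E : Type*} [NormedAddCommGroup E] [NormedSpace ℝ E] [FiniteDimensional ℝ E]
variable {κ : Type*} [Fintype κ] [DecidableEq κ] {α : Type*} [Fintype α] [DecidableEq α]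

/-- any `finrank E` of the vectors `z i a` are linearly independent -/
def GenZ (z : κ → α → E) : Prop :=
  ∀ w : κ × α → ℝ, (univ.filter fun q => w q ≠ 0).card ≤ Module.finrank ℝ E →
    ∑ q, w q • z q.1 q.2 = 0 → w = 0

theorem GenZ.linInd {z : κ → α → E} (h : GenZ z) {K : Type*} [Fintype K]
    (hK : Fintype.card K ≤ Module.finrank ℝ E) (q : K → κ × α) (hq : Function.Injective q) :
    LinearIndependent ℝ (fun j => z (q j).1 (q j).2) := by
  classical
  rw [Fintype.linearIndependent_iff]
  intro c hc j
  let w : κ × α → ℝ := fun y => ∑ j, if q j = y then c j else 0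
  have hwq : ∀ j, w (q j) = c j := by
    intro j
    simp only [w]
    rw [Finset.sum_eq_single j]
    · simp
    · intro k _ hk
      rw [if_neg]
      exact fun e => hk (hq e)
    · simp
  have h1 : w = 0 := by
    refine h w ?_ ?_
    · refine le_trans ?_ hK
      have : (univ.filter fun y => w y ≠ 0) ⊆ univ.image q := by
        intro y hy
        rw [mem_filter] at hy
        rw [mem_image]
        by_contra hcon
        push Not at hcon
        apply hy.2
        simp only [w]
        refine Finset.sum_eq_zero fun k _ => ?_
        rw [if_neg]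
        exact hcon k (mem_univ _)
      refine (card_le_card this).trans ?_
      exact card_image_le
    · simp only [w]
      simp only [Finset.sum_smul]
      rw [Finset.sum_comm]
      rw [← hc]
      refine Finset.sum_congr rfl fun k _ => ?_
      rw [Finset.sum_eq_single (q k)]
      · simp
      · intro y _ hy
        rw [if_neg (fun e => hy e.symm), zero_smul]
      · simp
  rw [← hwq j, h1]
  rfl

theorem half_space (hκ : Fintype.card κ = Module.finrank ℝ E + 1) (hd : 1 ≤ Module.finrank ℝ E)
    (z : κ → α → E) (hz : GenZ z) (i0 : κ) (Y : κ → Finset α) (θ : ℝ)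
    (hθ : θ = 1 / (8 * Module.finrank ℝ E))
    (hY : ∀ i, 4 * (Module.finrank ℝ E : ℝ) ≤ (Y i).card) :
    ∃ (Y' : κ → Finset α) (u : E →ₗ[ℝ] ℝ), (∀ i, Y' i ⊆ Y i) ∧
      (∀ i, θ * (Y i).card ≤ (Y' i).card) ∧ ∀ j, j ≠ i0 → ∀ a ∈ Y' j, 0 < u (z j a) := by
  classical
  set d := Module.finrank ℝ E with hd'
  have hd0 : (1 : ℝ) ≤ d := by exact_mod_cast hd
  have hθ0 : 0 < θ := by rw [hθ]; positivity
  have hθ1 : θ ≤ 1 / 2 := by
    rw [hθ, div_le_div_iff₀ (by positivity) (by norm_num)]
    linarith
  -- the classes other than `i0`
  let K := {j : κ // j ≠ i0}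
  have hKcard : Fintype.card K = d := by
    have : Fintype.card K = Fintype.card κ - 1 := by
      rw [Fintype.card_subtype_compl, Fintype.card_subtype_eq]
    omega
  have hKne : Nonempty K := Fintype.card_pos_iff.1 (by omega)
  obtain ⟨js⟩ := id hKne
  let b : Module.Basis K ℝ E := (Module.finBasisOfFinrankEq ℝ E rfl).reindex
    (Fintype.equivFinOfCardEq hKcard).symm
  let Om := (j : K) → {a : α // a ∈ Y j}
  have hOmne : ∀ j : K, Nonempty {a : α // a ∈ Y j} := by
    intro j
    have h1 : (0 : ℝ) < (Y j).card := by
      have := hY j; linarith
    obtain ⟨a, ha⟩ := card_pos.1 (by exact_mod_cast h1 : 0 < (Y j.1).card)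
    exact ⟨⟨a, ha⟩⟩
  -- the functional
  let f : Om → E →ₗ[ℝ] ℝ := fun s =>
    (b.det).toMultilinearMap.toLinearMap (fun j : K => z j (s j)) js
  have hf : ∀ s x, f s x = b.det (Function.update (fun j : K => z j (s j)) js x) := by
    intro s x; rfl
  -- nonvanishing of determinants
  have hdet : ∀ q : K → κ × α, Function.Injective q →
      b.det (fun j => z (q j).1 (q j).2) ≠ 0 := by
    intro q hq
    have hli := hz.linInd (K := K) hKcard.le q hq
    let b' := basisOfLinearIndependentOfCardEqFinrank hli hKcard
    have h1 := b.isUnit_det b'
    have h2 : (b' : K → E) = fun j => z (q j).1 (q j).2 :=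
      coe_basisOfLinearIndependentOfCardEqFinrank hli hKcard
    rw [h2] at h1
    exact h1.ne_zero
  -- the bad events
  let g : K → Om → α → ℝ := fun j s a => f s (z j a)
  let bad : K → Om → Prop := fun j s =>
    (((univ.filter fun a : {a : α // a ∈ Y j} => 0 < g j s a).card : ℝ) < θ * (Y j).card) ∨
    (((univ.filter fun a : {a : α // a ∈ Y j} => g j s a < 0).card : ℝ) < θ * (Y j).card)
  have hbadcount : ∀ j : K, j ≠ js → ((univ.filter fun s : Om => bad j s).card : ℝ) *
      (Y j).card ≤ (Fintype.card Om : ℝ) * (4 * (θ * (Y j).card) + 2) := by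
    intro j hj
    have h1 := sum_card_update (ι := fun j : K => {a : α // a ∈ Y j}) j (fun s => bad j s)
    have h2 : ∑ y : {a : α // a ∈ Y j}, (univ.filter fun s : Om =>
        bad j (Function.update s j y)).card =
        ∑ s : Om, (univ.filter fun y : {a : α // a ∈ Y j} => bad j (Function.update s j y)).card := by
      simp only [card_filter]
      exact Finset.sum_comm
    have h3 : ∀ s : Om, ((univ.filter fun y : {a : α // a ∈ Y j} =>
        bad j (Function.update s j y)).card : ℝ) ≤ 4 * (θ * (Y j).card) + 2 := by
      intro s
      -- the antisymmetric function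
      let G : {a : α // a ∈ Y j} → {a : α // a ∈ Y j} → ℝ := fun a c =>
        g j (Function.update s j a) c
      have hG : ∀ a c, G a c = b.det (Function.update (Function.update
          (fun j' : K => z j' (s j')) j (z j a)) js (z j c)) := by
        intro a c
        show f (Function.update s j a) (z j c) = _
        rw [hf]
        congr 2
        funext j'
        by_cases h : j' = j
        · subst h; simp
        · simp [h]
      have hG1 : ∀ a c, G c a = - G a c := by
        intro a c
        rw [hG, hG]
        have := b.det.map_swap (Function.update (Function.update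
          (fun j' : K => z j' (s j')) j (z j a)) js (z j c)) hj
        rw [← this]
        congr 1
        funext j'
        simp only [Function.comp_apply]
        by_cases h : j' = js
        · subst h
          rw [Function.update_self, Equiv.swap_apply_right, Function.update_of_ne hj,
            Function.update_self]
        · rw [Function.update_of_ne h]
          by_cases h' : j' = j
          · subst h'
            rw [Function.update_self, Equiv.swap_apply_left, Function.update_self]
          · rw [Function.update_of_ne h', Equiv.swap_apply_of_ne_of_ne h' h,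
              Function.update_of_ne h, Function.update_of_ne h']
      have hG2 : ∀ a c, a ≠ c → G a c ≠ 0 := by
        intro a c hac
        rw [hG]
        have hinj : Function.Injective (fun j' : K => if j' = js then ((j : κ), (c : α)) else
            if j' = j then ((j : κ), (a : α)) else ((j' : κ), ((s j' : {a : α // a ∈ Y j'}) : α))) := by
          intro k k' hkk
          by_cases h1 : k = js <;> by_cases h2 : k' = js
          · rw [h1, h2]
          · exfalso
            subst h1
            simp only [if_true, if_neg h2] at hkk
            by_cases h3 : k' = j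
            · rw [if_pos h3] at hkk
              exact hac (Subtype.ext (Prod.mk.inj hkk).2.symm)
            · rw [if_neg h3] at hkk
              exact h3 (Subtype.ext (Prod.mk.inj hkk).1.symm)
          · exfalso
            subst h2
            simp only [if_true, if_neg h1] at hkk
            by_cases h3 : k = j
            · rw [if_pos h3] at hkk
              exact hac (Subtype.ext (Prod.mk.inj hkk).2)
            · rw [if_neg h3] at hkk
              exact h3 (Subtype.ext (Prod.mk.inj hkk).1)
          · simp only [if_neg h1, if_neg h2] at hkk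
            by_cases h3 : k = j <;> by_cases h4 : k' = j
            · rw [h3, h4]
            · rw [if_pos h3, if_neg h4] at hkk
              exact absurd (Subtype.ext (Prod.mk.inj hkk).1.symm) h4
            · rw [if_neg h3, if_pos h4] at hkk
              exact absurd (Subtype.ext (Prod.mk.inj hkk).1) h3
            · rw [if_neg h3, if_neg h4] at hkk
              exact Subtype.ext (Prod.mk.inj hkk).1
        have := hdet _ hinj
        convert this using 2
        funext j'
        by_cases h : j' = js
        · subst h; simp
        · rw [Function.update_of_ne h]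
          by_cases h' : j' = j
          · subst h'; simp [h]
          · rw [Function.update_of_ne h', if_neg h, if_neg h']
      have ht : 0 ≤ θ * ((Y j).card : ℝ) := mul_nonneg hθ0.le (Nat.cast_nonneg _)
      have t1 := tournament G hG1 hG2 (θ * (Y j).card) ht
      have t2 := tournament (fun a c => - G a c) (fun a c => by rw [hG1 a c])
        (fun a c h => neg_ne_zero.2 (hG2 a c h)) (θ * (Y j).card) ht
      have h4 : (univ.filter fun y : {a : α // a ∈ Y j} => bad j (Function.update s j y)) ⊆
          (univ.filter fun a => ((univ.filter fun b => 0 < G a b).card : ℝ) < θ * (Y j).card) ∪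
          (univ.filter fun a => ((univ.filter fun b => 0 < - G a b).card : ℝ) <
            θ * (Y j).card) := by
        intro y hy
        rw [mem_filter] at hy
        rw [mem_union, mem_filter, mem_filter]
        rcases hy.2 with h | h
        · left; exact ⟨mem_univ _, h⟩
        · right
          refine ⟨mem_univ _, ?_⟩
          have h6 : (univ.filter fun b => 0 < - G y b) =
              (univ.filter fun a : {a : α // a ∈ Y j} => g j (Function.update s j y) a < 0) := by
            refine Finset.filter_congr fun b _ => ?_
            exact neg_pos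
          rw [h6]
          exact h
      calc ((univ.filter fun y : {a : α // a ∈ Y j} => bad j (Function.update s j y)).card : ℝ)
          ≤ ((univ.filter fun a => ((univ.filter fun b => 0 < G a b).card : ℝ) <
              θ * (Y j).card).card : ℝ) + ((univ.filter fun a =>
              ((univ.filter fun b => 0 < - G a b).card : ℝ) < θ * (Y j).card).card : ℝ) := by
            exact_mod_cast (card_le_card h4).trans (card_union_le _ _)
        _ ≤ (2 * (θ * (Y j).card) + 1) + (2 * (θ * (Y j).card) + 1) := add_le_add t1 t2
        _ = _ := by ring
    have h5 : (Fintype.card {a : α // a ∈ Y j} : ℝ) * (univ.filter fun s : Om => bad j s).card =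
        ∑ s : Om, ((univ.filter fun y : {a : α // a ∈ Y j} =>
          bad j (Function.update s j y)).card : ℝ) := by
      rw [← Nat.cast_sum, ← h2]
      rw [← Nat.cast_mul]
      exact_mod_cast h1.symm
    rw [Fintype.card_coe] at h5
    calc ((univ.filter fun s : Om => bad j s).card : ℝ) * (Y j).card
        = ((Y j).card : ℝ) * (univ.filter fun s : Om => bad j s).card := mul_comm _ _
      _ = ∑ s : Om, ((univ.filter fun y : {a : α // a ∈ Y j} =>
          bad j (Function.update s j y)).card : ℝ) := h5
      _ ≤ ∑ s : Om, (4 * (θ * (Y j).card) + 2) := Finset.sum_le_sum fun s _ => h3 s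
      _ = _ := by rw [Finset.sum_const, card_univ, nsmul_eq_mul]
  -- a good choice
  have hOm : (0 : ℝ) < Fintype.card Om := by
    exact_mod_cast Fintype.card_pos_iff.2 ⟨fun j => (hOmne j).some⟩
  obtain ⟨s, hs⟩ : ∃ s : Om, ∀ j, j ≠ js → ¬ bad j s := by
    by_contra hcon
    push Not at hcon
    have h1 : (univ : Finset Om) ⊆ (univ.erase js).biUnion fun j => univ.filter fun s => bad j s := by
      intro s _
      obtain ⟨j, hj, hb⟩ := hcon s
      exact mem_biUnion.2 ⟨j, mem_erase.2 ⟨hj, mem_univ _⟩, mem_filter.2 ⟨mem_univ _, hb⟩⟩
    have h2 := (card_le_card h1).trans card_biUnion_le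
    rw [card_univ] at h2
    have h3 : (Fintype.card Om : ℝ) ≤ ∑ j ∈ univ.erase js,
        ((univ.filter fun s : Om => bad j s).card : ℝ) := by exact_mod_cast h2
    have h4 : ∀ j ∈ univ.erase js, ((univ.filter fun s : Om => bad j s).card : ℝ) ≤
        (Fintype.card Om : ℝ) * (1 / d) := by
      intro j hj
      have h5 := hbadcount j (ne_of_mem_erase hj)
      have hYj := hY j
      have hYpos : (0 : ℝ) < (Y j).card := by linarith
      have h6 : 4 * (θ * ((Y j).card : ℝ)) + 2 ≤ 1 / d * (Y j).card := by
        have h7 : 4 * (θ * ((Y j).card : ℝ)) = 1 / (2 * d) * (Y j).card := by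
          rw [hθ]; field_simp; ring
        have h8 : 2 ≤ 1 / (2 * d) * ((Y j).card : ℝ) := by
          rw [one_div, inv_mul_eq_div, le_div_iff₀ (by positivity)]
          linarith
        have h9 : (1 : ℝ) / d * (Y j).card = 1 / (2 * d) * (Y j).card + 1 / (2 * d) * (Y j).card := by
          field_simp; ring
        rw [h7, h9]
        linarith
      have h10 : ((univ.filter fun s : Om => bad j s).card : ℝ) * (Y j).card ≤
          (Fintype.card Om : ℝ) * (1 / d) * (Y j).card := by
        refine h5.trans ?_
        rw [mul_assoc]
        exact mul_le_mul_of_nonneg_left h6 hOm.le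
      exact le_of_mul_le_mul_right h10 hYpos
    have h5 : (Fintype.card Om : ℝ) ≤ ((d : ℝ) - 1) * ((Fintype.card Om : ℝ) * (1 / d)) := by
      refine h3.trans ((Finset.sum_le_sum h4).trans ?_)
      rw [Finset.sum_const, card_erase_of_mem (mem_univ _), card_univ, hKcard, nsmul_eq_mul,
        Nat.cast_sub hd, Nat.cast_one]
    have h6 : ((d : ℝ) - 1) * ((Fintype.card Om : ℝ) * (1 / d)) =
        (Fintype.card Om : ℝ) - (Fintype.card Om : ℝ) * (1 / d) := by
      field_simp
    have h7 : 0 < (Fintype.card Om : ℝ) * (1 / d) := by positivity
    linarith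
  -- sign on the class js
  have hgjs : ∀ a ∈ Y js, f s (z js a) ≠ 0 := by
    intro a ha
    rw [hf]
    have hinj : Function.Injective (fun j' : K => if j' = js then ((js : κ), a) else
        ((j' : κ), ((s j' : {a : α // a ∈ Y j'}) : α))) := by
      intro k k' hkk
      have h1 : ∀ k : K, (if k = js then ((js : κ), a) else
        ((k : κ), ((s k : {a : α // a ∈ Y k}) : α))).1 = (k : κ) := by
        intro k
        split_ifs with h
        · rw [h]
        · rfl
      have := congrArg Prod.fst hkk
      simp only [] at this
      rw [h1, h1] at this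
      exact Subtype.ext this
    have := hdet _ hinj
    convert this using 2
    funext j'
    by_cases h : j' = js
    · subst h; simp
    · rw [Function.update_of_ne h]; simp [h]
  obtain ⟨ε, hε, hεcard⟩ : ∃ ε : ℝ, (ε = 1 ∨ ε = -1) ∧
      θ * (Y js).card ≤ ((Y js).filter fun a => 0 < ε * f s (z js a)).card := by
    by_cases h : θ * (Y js).card ≤ ((Y js).filter fun a => 0 < (1 : ℝ) * f s (z js a)).card
    · exact ⟨1, Or.inl rfl, h⟩
    · refine ⟨-1, Or.inr rfl, ?_⟩
      push Not at h
      have h1 : ((Y js).filter fun a => 0 < (1 : ℝ) * f s (z js a)).card +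
          ((Y js).filter fun a => 0 < (-1 : ℝ) * f s (z js a)).card = (Y js).card := by
        rw [← card_union_of_disjoint]
        · congr 1
          ext a
          simp only [mem_union, mem_filter]
          constructor
          · rintro (h | h) <;> exact h.1
          · intro ha
            rcases lt_or_gt_of_ne (hgjs a ha) with h | h
            · right; exact ⟨ha, by linarith⟩
            · left; exact ⟨ha, by linarith⟩
        · rw [Finset.disjoint_left]
          intro a h1 h2
          rw [mem_filter] at h1 h2
          linarith [h1.2, h2.2]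
      have h2 : ((((Y js).filter fun a => 0 < (1 : ℝ) * f s (z js a)).card : ℕ) : ℝ) +
          (((Y js).filter fun a => 0 < (-1 : ℝ) * f s (z js a)).card : ℕ) = (Y js).card := by
        exact_mod_cast h1
      have h3 : (0 : ℝ) ≤ (Y js).card := Nat.cast_nonneg _
      nlinarith
  refine ⟨fun i => if i = i0 then Y i else (Y i).filter fun a => 0 < ε * f s (z i a), ε • f s,
    ?_, ?_, ?_⟩
  · intro i
    simp only
    split_ifs
    · exact Finset.Subset.refl _
    · exact filter_subset _ _
  · intro i
    simp only
    split_ifs with hi
    · have : (0 : ℝ) ≤ (Y i).card := Nat.cast_nonneg _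
      nlinarith
    · by_cases hij : (⟨i, hi⟩ : K) = js
      · have : i = js := congrArg Subtype.val hij
        rw [this]
        exact hεcard
      · have h1 := hs ⟨i, hi⟩ hij
        simp only [bad] at h1
        push Not at h1
        have hconv : ∀ (P : α → Prop) [DecidablePred P],
            (univ.filter fun a : {a : α // a ∈ Y i} => P a).card = ((Y i).filter P).card := by
          intro P _
          rw [← Finset.card_map ⟨Subtype.val, Subtype.val_injective⟩]
          congr 1
          ext a
          simp [and_comm]
        rcases hε with rfl | rfl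
        · have := h1.1
          rw [hconv (fun a => 0 < g ⟨i, hi⟩ s a)] at this
          simpa [g] using this
        · have := h1.2
          rw [hconv (fun a => g ⟨i, hi⟩ s a < 0)] at this
          simpa [g] using this
  · intro j hj a ha
    simp only [if_neg hj, mem_filter] at ha
    simpa using ha.2

end Same

end Pool.Agent.J6H98.Sel
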